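import Pool.Agent.H68.N.Basic

set_option autoImplicit false

namespace Pool.Agent.H68.WLN

open Pool.Agent.H68.WL

/-- A chain of subgroups from `T` to `S`, each step adding one generator. -/
theorem exists_sub_chain {Q : Type} [Group Q] [Finite Q] (S : Subgroup Q) (T : Subgroup Q) :
    T ≤ S → ∃ (n : ℕ) (σ : ℕ → Q) (H : ℕ → Subgroup Q), H 0 = T ∧
      (∀ i, i < n → σ i ∈ S ∧ σ i ∉ H i ∧ H i ≤ H (i + 1) ∧ σ i ∈ H (i + 1) ∧
        H (i + 1) = H i ⊔ Subgroup.zpowers (σ i)) ∧ H n = S := by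
  induction T using WellFoundedGT.induction with
  | _ T ih =>
    intro hT
    by_cases hTS : T = S
    · exact ⟨0, fun _ => 1, fun _ => T, rfl, by intro i hi; omega, hTS⟩
    · obtain ⟨s, hs, hsT⟩ := SetLike.exists_of_lt (lt_of_le_of_ne hT hTS)
      have h1 : T < T ⊔ Subgroup.zpowers s := by
        refine lt_of_le_of_ne le_sup_left ?_
        intro h
        apply hsT
        rw [h]
        exact (le_sup_right : Subgroup.zpowers s ≤ _) (Subgroup.mem_zpowers s)
      have h2 : T ⊔ Subgroup.zpowers s ≤ S :=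
        sup_le hT (by rw [Subgroup.zpowers_le]; exact hs)
      obtain ⟨n, σ, H, h3, h4, h5⟩ := ih _ h1 h2
      refine ⟨n + 1, fun i => Nat.casesOn i s σ, fun i => Nat.casesOn i T H, rfl, ?_, h5⟩
      intro i hi
      cases i with
      | zero =>
        refine ⟨hs, hsT, ?_, ?_, ?_⟩
        · change T ≤ H 0
          rw [h3]; exact le_sup_left
        · change s ∈ H 0
          rw [h3]
          exact (le_sup_right : Subgroup.zpowers s ≤ _) (Subgroup.mem_zpowers s)
        · exact h3
      | succ i => exact h4 i (by omega)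

theorem block_abel {Q V : Type} [Group Q] [Finite Q] [MulAction Q V] [Finite V]
    (S : Subgroup Q) (hab : ∀ a ∈ S, ∀ b ∈ S, a * b = b * a) (v0 : V)
    (hne : ∃ a ∈ S, a • v0 ≠ v0) (c : Col) :
    ∃ κ0 : V → Col, Pat {w | ∃ a ∈ S, a • v0 = w} c κ0 ∧
      ∀ {K : ℕ}, 12 ≤ K → ∀ (Z : BF Q V K) (κ : V → Col),
        (∀ a ∈ S, κ (a • v0) = κ0 (a • v0)) → Z.Pres κ →
        (∀ g g', Z.F [(g, g')] [] → g ∈ S → g' ∈ S) →
        ∀ v w, (∃ a ∈ S, a • v0 = v) → (∃ a ∈ S, a • v0 = w) → Z.F [] [(v, w)] → v = w := by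
  classical
  let SB : Subgroup Q := S ⊓ MulAction.stabilizer Q v0
  obtain ⟨n, σ, H, hH0, hH, hHn⟩ := exists_sub_chain S SB inf_le_left
  have hmono : ∀ i j, i ≤ j → j ≤ n → H i ≤ H j := by
    intro i j hij hj
    induction j, hij using Nat.le_induction with
    | base => exact le_rfl
    | succ j hij ih => exact (ih (by omega)).trans (hH j (by omega)).2.2.1
  have hσS : ∀ i, i < n → σ i ∈ S := fun i hi => (hH i hi).1
  have hσn : ∀ i, i < n → σ i ∉ H i := fun i hi => (hH i hi).2.1
  have hσH : ∀ i j, i < j → j ≤ n → σ i ∈ H j := fun i j hij hj =>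
    hmono (i + 1) j (by omega) hj (hH i (by omega)).2.2.2.1
  have hSBH : ∀ j, j ≤ n → SB ≤ H j := by
    intro j hj
    rw [← hH0]; exact hmono 0 j (Nat.zero_le _) hj
  have hn : 0 < n := by
    rcases Nat.eq_zero_or_pos n with h | h
    · exfalso
      obtain ⟨a, ha, hav⟩ := hne
      rw [h, hH0] at hHn
      rw [← hHn] at ha
      exact hav ha.2
    · exact h
  -- equal images
  have hmod : ∀ x y, x ∈ S → y ∈ S → x • v0 = y • v0 → y⁻¹ * x ∈ SB := by
    intro x y hx hy h
    refine ⟨S.mul_mem (S.inv_mem hy) hx, ?_⟩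
    change (y⁻¹ * x) • v0 = v0
    rw [mul_smul, h, inv_smul_smul]
  have hσ0 : ∀ i, i < n → σ i • v0 ≠ v0 := by
    intro i hi h
    apply hσn i hi
    exact hSBH i hi.le ⟨hσS i hi, h⟩
  have hσne : ∀ i j, i < j → j < n → σ j • v0 ≠ σ i • v0 := by
    intro i j hij hj h
    apply hσn j hj
    have h1 := hmod _ _ (hσS j hj) (hσS i (by omega)) h
    have h2 : σ j = σ i * ((σ i)⁻¹ * σ j) := by group
    rw [h2]
    exact (H j).mul_mem (hσH i j hij hj.le) (hSBH j hj.le h1)
  have hσσ0 : ∀ i, i + 1 < n → (σ i * σ (i + 1)) • v0 ≠ v0 := by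
    intro i hi h
    apply hσn (i + 1) hi
    have h1 : σ i * σ (i + 1) ∈ SB := ⟨S.mul_mem (hσS i (by omega)) (hσS _ hi), h⟩
    have h2 : σ (i + 1) = (σ i)⁻¹ * (σ i * σ (i + 1)) := by group
    rw [h2]
    exact (H (i + 1)).mul_mem ((H (i + 1)).inv_mem (hσH i (i + 1) (by omega) hi.le))
      (hSBH _ hi.le h1)
  have hσσne : ∀ i j, i + 1 < n → j < n → (σ i * σ (i + 1)) • v0 ≠ σ j • v0 := by
    intro i j hi hj h
    have h1 := hmod _ _ (S.mul_mem (hσS i (by omega)) (hσS _ hi)) (hσS j hj) h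
    rcases lt_trichotomy j (i + 1) with hlt | heq | hgt
    · apply hσn (i + 1) hi
      have h2 : σ (i + 1) = (σ i)⁻¹ * (σ j * ((σ j)⁻¹ * (σ i * σ (i + 1)))) := by group
      rw [h2]
      exact (H (i + 1)).mul_mem ((H (i + 1)).inv_mem (hσH i (i + 1) (by omega) hi.le))
        ((H (i + 1)).mul_mem (hσH j (i + 1) hlt hi.le) (hSBH _ hi.le h1))
    · subst heq
      rw [hab _ (hσS i (by omega)) _ (hσS _ hi), mul_smul] at h
      exact hσ0 i (by omega) (smul_left_cancel _ h)
    · apply hσn j hj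
      have h2 : σ j = (σ i * σ (i + 1)) * ((σ j)⁻¹ * (σ i * σ (i + 1)))⁻¹ := by group
      rw [h2]
      exact (H j).mul_mem ((H j).mul_mem (hσH i j (by omega) hj.le)
        (hσH (i + 1) j hgt hj.le)) ((H j).inv_mem (hSBH j hj.le h1))
  -- the colouring
  let κ0 : V → Col := fun u =>
    if u = v0 then (c.1, 0) else if u = σ 0 • v0 then (c.2, 1) else
      if ∃ j, 1 ≤ j ∧ j < n ∧ u = σ j • v0 then (0, 2) else
        if ∃ i, i + 1 < n ∧ u = (σ i * σ (i + 1)) • v0 then (0, 3) else (0, 4)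
  have K0 : κ0 v0 = (c.1, 0) := if_pos rfl
  have K1 : κ0 (σ 0 • v0) = (c.2, 1) := by
    change (if _ then _ else _) = _
    rw [if_neg (hσ0 0 hn), if_pos rfl]
  have K2 : ∀ j, 1 ≤ j → j < n → κ0 (σ j • v0) = (0, 2) := by
    intro j h1 hj
    change (if _ then _ else _) = _
    rw [if_neg (hσ0 j hj), if_neg (hσne 0 j (by omega) hj), if_pos ⟨j, h1, hj, rfl⟩]
  have K3 : ∀ i, i + 1 < n → κ0 ((σ i * σ (i + 1)) • v0) = (0, 3) := by
    intro i hi
    change (if _ then _ else _) = _
    rw [if_neg (hσσ0 i hi), if_neg (hσσne i 0 hi hn), if_neg, if_pos ⟨i, hi, rfl⟩]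
    rintro ⟨j, _, hj, h⟩
    exact hσσne i j hi hj h
  have D0 : ∀ u, (κ0 u).2 = 0 → u = v0 := by
    intro u hu
    by_contra h0
    change (if _ then _ else _ : Col).2 = 0 at hu
    rw [if_neg h0] at hu
    split_ifs at hu
    all_goals exact absurd hu (by simp)
  have D1 : ∀ u, (κ0 u).2 = 1 → u = σ 0 • v0 := by
    intro u hu
    by_contra h0
    change (if _ then _ else _ : Col).2 = 1 at hu
    rw [if_neg h0] at hu
    split_ifs at hu
    all_goals exact absurd hu (by simp)
  have D2 : ∀ u, (κ0 u).2 = 2 → ∃ j, 1 ≤ j ∧ j < n ∧ u = σ j • v0 := by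
    intro u hu
    by_contra h0
    change (if _ then _ else _ : Col).2 = 2 at hu
    rw [if_neg h0] at hu
    split_ifs at hu
    all_goals exact absurd hu (by simp; try decide)
  have D3 : ∀ u, (κ0 u).2 = 3 → ∃ i, i + 1 < n ∧ u = (σ i * σ (i + 1)) • v0 := by
    intro u hu
    by_contra h0
    change (if _ then _ else _ : Col).2 = 3 at hu
    rw [if_neg h0] at hu
    split_ifs at hu
    all_goals exact absurd hu (by simp; try decide)
  refine ⟨κ0, ⟨v0, ⟨1, S.one_mem, one_smul _ _⟩, σ 0 • v0, ⟨σ 0, hσS 0 hn, rfl⟩,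
    (hσ0 0 hn).symm, K0, K1, fun u _ hu => D0 u hu, fun u _ hu => D1 u hu⟩, ?_⟩
  intro K hK Z κ hκ hPres hS
  -- colours are preserved inside the block
  have hcol : ∀ a b, a ∈ S → b ∈ S → Z.F [] [(a • v0, b • v0)] →
      κ0 (a • v0) = κ0 (b • v0) := by
    intro a b ha hb h
    rw [← hκ a ha, ← hκ b hb]
    exact hPres _ _ h
  have hS1 : ∀ g g' A B, Z.F ((g, g') :: A) B → g ∈ S → g' ∈ S := by
    intro g g' A B h hg
    exact hS g g' (Z.mono h (by simp) (by simp)) hg
  let Nm : Q → Prop := fun g => ∀ g', Z.F [(g, g')] [(v0, v0)] → g • v0 = g' • v0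
  -- the elements with a good image form a subgroup
  let N : Subgroup Q :=
    { carrier := {a | a ∈ S ∧ Nm a}
      one_mem' := by
        refine ⟨S.one_mem, fun g' h => ?_⟩
        have h1 : g' = 1 := Z.toSys0.one_eq (Z.mono h (by simp) (by simp) : Z.F [(1, g')] [])
        rw [h1]
      mul_mem' := by
        rintro a b ⟨ha, hNa⟩ ⟨hb, hNb⟩
        refine ⟨S.mul_mem ha hb, fun g' h => ?_⟩
        obtain ⟨a', h1⟩ := Z.moveG h (by simp; omega) a
        obtain ⟨b', h2⟩ := Z.moveG h1 (by simp; omega) b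
        have ha' : a' ∈ S := hS1 _ _ _ _ h1 ha
        have hb' : b' ∈ S := hS1 _ _ _ _ h2 hb
        have e1 : a' * b' = g' := Z.mul (Z.mono h2 (by
          intro p hp
          simp only [List.mem_cons, List.not_mem_nil, or_false] at hp ⊢
          tauto) (by simp) : Z.F [(a, a'), (b, b'), (a * b, g')] [])
        have e2 : a • v0 = a' • v0 := hNa a' (Z.monoA h1 (by simp))
        have e3 : b • v0 = b' • v0 := hNb b' (Z.monoA h2 (by simp))
        rw [← e1, mul_smul, mul_smul, ← e3, ← mul_smul, ← mul_smul, hab _ ha _ hb,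
          hab _ ha' _ hb, mul_smul, mul_smul, e2]
      inv_mem' := by
        rintro a ⟨ha, hNa⟩
        refine ⟨S.inv_mem ha, fun g' h => ?_⟩
        obtain ⟨a', h1⟩ := Z.moveG h (by simp; omega) a
        have ha' : a' ∈ S := hS1 _ _ _ _ h1 ha
        have h2 := Z.place_inv h1 (by simp; omega) (a := a) (a' := a') (by simp)
        have e1 : a'⁻¹ = g' := Z.eqG (Z.mono h2 (by
          intro p hp
          simp only [List.mem_cons, List.not_mem_nil, or_false] at hp ⊢
          tauto) (by simp) : Z.F [(a⁻¹, a'⁻¹), (a⁻¹, g')] []) rfl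
        have e2 : a • v0 = a' • v0 := hNa a' (Z.monoA h1 (by simp))
        rw [← e1, inv_smul_eq_iff, ← mul_smul, hab _ ha _ (S.inv_mem ha'), mul_smul, e2,
          inv_smul_smul] }
  have hSBN : SB ≤ N := by
    rintro s ⟨hs, hsv⟩
    refine ⟨hs, fun g' h => ?_⟩
    have h1 : Z.F [(s, g')] [(v0, v0), (v0, v0)] := Z.monoB h (by simp)
    have h2 := (Z.smul_iff h1).1 hsv
    rw [h2]; exact hsv
  have hpl : ∀ g g', Z.F [(g, g')] [(v0, v0)] → Z.F [] [(g • v0, g' • v0)] := by
    intro g g' h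
    have h1 := Z.place_smul h (by simp; omega) (a := g) (a' := g') (v := v0) (v' := v0)
      (by simp) (by simp)
    exact Z.mono h1 (by simp) (by simp)
  have hall : ∀ i, i ≤ n → H i ≤ N := by
    intro i
    induction i with
    | zero => intro _; rw [hH0]; exact hSBN
    | succ i ih =>
      intro hi
      have ih' := ih (by omega)
      rw [(hH i (by omega)).2.2.2.2]
      refine sup_le ih' ?_
      rw [Subgroup.zpowers_le]
      have hσi := hσS i (by omega)
      refine ⟨hσi, fun g' h => ?_⟩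
      have hg' : g' ∈ S := hS1 _ _ _ _ h hσi
      have hc := hcol _ _ hσi hg' (hpl _ _ h)
      rcases Nat.eq_zero_or_pos i with h0 | h0
      · subst h0
        rw [K1] at hc
        exact (D1 _ (by rw [← hc])).symm
      · rw [K2 i h0 (by omega)] at hc
        obtain ⟨j, hj1, hjn, hj⟩ := D2 _ (by rw [← hc])
        rw [hj]
        -- show `j = i`
        obtain ⟨I, rfl⟩ : ∃ I, i = I + 1 := ⟨i - 1, by omega⟩
        have hσI := hσS I (by omega)
        have hσj := hσS j hjn
        obtain ⟨τ, h1⟩ := Z.moveG h (by simp; omega) (σ I)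
        have hτ : τ ∈ S := hS1 _ _ _ _ h1 hσI
        have eτ : σ I • v0 = τ • v0 :=
          (ih' (hσH I (I + 1) (by omega) (by omega))).2 τ (Z.monoA h1 (by simp))
        have h2 := Z.place_mul h1 (by simp; omega) (a := σ I) (a' := τ) (b := σ (I + 1))
          (b' := g') (by simp) (by simp)
        have h3 : Z.F [(σ I * σ (I + 1), τ * g')] [(v0, v0)] := Z.monoA h2 (by simp)
        have hc2 := hcol _ _ (S.mul_mem hσI hσi) (S.mul_mem hτ hg') (hpl _ _ h3)
        rw [K3 I (by omega)] at hc2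
        obtain ⟨l, hl, hl2⟩ := D3 _ (by rw [← hc2])
        have hσl := hσS l (by omega)
        have hσl1 := hσS (l + 1) hl
        have e1 : (τ * g') • v0 = (σ I * σ j) • v0 := by
          rw [hab _ hτ _ hg', mul_smul, ← eτ, ← mul_smul, hab _ hg' _ hσI, mul_smul, hj,
            ← mul_smul]
        rw [e1] at hl2
        have hm := hmod _ _ (S.mul_mem hσI hσj) (S.mul_mem hσl hσl1) hl2
        rcases lt_trichotomy j (I + 1) with hlt | heq | hgt
        · exfalso
          have e2 : Nm g' := by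
            have e3 := hmod g' (σ j) hg' hσj hj
            have e4 : g' = σ j * ((σ j)⁻¹ * g') := by group
            have e5 : g' ∈ H (I + 1) := by
              rw [e4]
              exact (H (I + 1)).mul_mem (hσH j (I + 1) hlt (by omega))
                (hSBH _ (by omega) e3)
            exact (ih' e5).2
          have h4 : Z.F [(g', σ (I + 1))] [(v0, v0)] := by
            have := Z.symm h
            simpa using this
          have e6 := e2 _ h4
          rw [hj] at e6
          exact hσne j (I + 1) hlt (by omega) e6.symm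
        · rw [heq]
        · exfalso
          rcases lt_trichotomy (l + 1) j with h5 | h5 | h5
          · apply hσn j hjn
            have e2 : σ j = (σ I)⁻¹ * ((σ l * σ (l + 1)) *
                ((σ l * σ (l + 1))⁻¹ * (σ I * σ j))) := by group
            rw [e2]
            exact (H j).mul_mem ((H j).inv_mem (hσH I j (by omega) hjn.le))
              ((H j).mul_mem ((H j).mul_mem (hσH l j (by omega) hjn.le)
                (hσH (l + 1) j h5 hjn.le)) (hSBH j hjn.le hm))
          · subst h5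
            rw [hab _ hσI _ hσj, hab _ hσl _ hσj, mul_smul, mul_smul] at hl2
            have e2 := smul_left_cancel _ hl2
            exact hσne I l (by omega) (by omega) e2.symm
          · apply hσn (l + 1) hl
            have e2 : σ (l + 1) = (σ l)⁻¹ * ((σ I * σ j) *
                ((σ l * σ (l + 1))⁻¹ * (σ I * σ j))⁻¹) := by group
            rw [e2]
            exact (H (l + 1)).mul_mem ((H (l + 1)).inv_mem (hσH l (l + 1) (by omega) hl.le))
              ((H (l + 1)).mul_mem ((H (l + 1)).mul_mem (hσH I (l + 1) (by omega) hl.le)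
                (hσH j (l + 1) h5 hl.le)) ((H (l + 1)).inv_mem (hSBH _ hl.le hm)))
  have hNm : ∀ a ∈ S, Nm a := by
    intro a ha
    rw [← hHn] at ha
    exact (hall n le_rfl ha).2
  rintro v w ⟨a, ha, rfl⟩ ⟨b, hb, rfl⟩ h
  obtain ⟨x0, h1⟩ := Z.forthV h (by simp; omega) v0
  obtain ⟨a', h2⟩ := Z.moveG h1 (by simp; omega) a
  have ha' : a' ∈ S := hS1 _ _ _ _ h2 ha
  have e1 : a' • x0 = b • v0 := Z.smul h2
  have e2 : x0 = (a'⁻¹ * b) • v0 := by
    rw [mul_smul, ← e1, inv_smul_smul]
  have e3 : κ0 ((1 : Q) • v0) = κ0 ((a'⁻¹ * b) • v0) := by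
    refine hcol 1 _ S.one_mem (S.mul_mem (S.inv_mem ha') hb) ?_
    rw [← e2, one_smul]
    exact Z.monoB h1 (by simp)
  rw [one_smul, K0, ← e2] at e3
  have e4 : x0 = v0 := D0 _ (by rw [← e3])
  rw [e4] at h2 e1
  rw [← e1]
  exact hNm a ha a' (Z.monoB h2 (by simp))

end Pool.Agent.H68.WLN
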