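import Pool.Agent.H68.N.Inv

set_option autoImplicit false

namespace Pool.Agent.H68.WLN

open Pool.Agent.H68.WL

section Basic

variable {G V : Type} [Group G] [MulAction G V] {K : ℕ} (Z : BF G V K)

theorem BF.monoB {A : List (G × G)} {B B' : List (V × V)} (h : Z.F A B) (hs : B' ⊆ B) :
    Z.F A B' := Z.mono h (List.Subset.refl _) hs

theorem BF.monoA {A A' : List (G × G)} {B : List (V × V)} (h : Z.F A B) (hs : A' ⊆ A) :
    Z.F A' B := Z.mono h hs (List.Subset.refl _)

theorem BF.place_mul {A : List (G × G)} {B : List (V × V)} (h : Z.F A B)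
    (hl : A.length + B.length < K) {a b a' b' : G}
    (ha : (a, a') ∈ A) (hb : (b, b') ∈ A) : Z.F ((a * b, a' * b') :: A) B := by
  obtain ⟨c, hc⟩ := Z.moveG h hl (a * b)
  have h1 : Z.F [(a, a'), (b, b'), (a * b, c)] [] := by
    refine Z.mono hc ?_ (by simp)
    intro p hp
    simp only [List.mem_cons, List.not_mem_nil, or_false] at hp
    rcases hp with rfl | rfl | rfl
    · exact List.mem_cons_of_mem _ ha
    · exact List.mem_cons_of_mem _ hb
    · exact List.mem_cons_self
  have h2 := Z.mul h1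
  rw [h2]
  exact hc

theorem BF.place_one {A : List (G × G)} {B : List (V × V)} (h : Z.F A B)
    (hl : A.length + B.length < K) : Z.F ((1, 1) :: A) B := by
  obtain ⟨c, hc⟩ := Z.moveG h hl 1
  have h1 : c = 1 := Z.toSys0.one_eq (Z.mono hc (by simp) (by simp) : Z.F [(1, c)] [])
  rw [h1] at hc
  exact hc

theorem BF.place_inv {A : List (G × G)} {B : List (V × V)} (h : Z.F A B)
    (hl : A.length + B.length + 1 < K) {a : G} {a' : G}
    (ha : (a, a') ∈ A) : Z.F ((a⁻¹, a'⁻¹) :: A) B := by
  obtain ⟨c, hc⟩ := Z.moveG h (by omega) a⁻¹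
  have h1 := Z.place_one hc (by simp; omega)
  have h2 : Z.F [(a, a'), (a⁻¹, c), (1, 1)] [] := by
    refine Z.mono h1 ?_ (by simp)
    intro p hp
    simp only [List.mem_cons, List.not_mem_nil, or_false] at hp
    rcases hp with rfl | rfl | rfl
    · simp [ha]
    · simp
    · simp
  have h3 := (Z.toSys0.mul h2).1 (by simp)
  have h4 : c = a'⁻¹ := (inv_eq_of_mul_eq_one_right h3).symm
  rw [← h4]
  exact hc

theorem BF.place_conj {A : List (G × G)} {B : List (V × V)} (h : Z.F A B)
    (hl : A.length + B.length + 3 < K) {a b a' b' : G} (ha : (a, a') ∈ A) (hb : (b, b') ∈ A) :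
    Z.F ((a * b * a⁻¹, a' * b' * a'⁻¹) :: A) B := by
  have h1 := Z.place_mul h (by omega) ha hb
  have h2 := Z.place_inv h1 (by simp; omega) (a := a) (a' := a') (by simp [ha])
  have h3 := Z.place_mul h2 (by simp; omega) (a := a * b) (a' := a' * b') (b := a⁻¹)
    (b' := a'⁻¹) (by simp) (by simp)
  refine Z.monoA h3 ?_
  intro p hp
  simp only [List.mem_cons] at hp ⊢
  rcases hp with rfl | hp
  · simp
  · simp [hp]

theorem BF.place_smul {A : List (G × G)} {B : List (V × V)} (h : Z.F A B)
    (hl : A.length + B.length < K) {a a' : G} {v v' : V}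
    (ha : (a, a') ∈ A) (hv : (v, v') ∈ B) : Z.F A ((a • v, a' • v') :: B) := by
  obtain ⟨w, hw⟩ := Z.forthV h hl (a • v)
  have h1 : Z.F [(a, a')] [(v, v'), (a • v, w)] := by
    refine Z.mono hw ?_ ?_
    · intro p hp
      simp only [List.mem_cons, List.not_mem_nil, or_false] at hp
      rw [hp]; exact ha
    · intro p hp
      simp only [List.mem_cons, List.not_mem_nil, or_false] at hp
      rcases hp with rfl | rfl
      · exact List.mem_cons_of_mem _ hv
      · exact List.mem_cons_self
  rw [Z.smul h1]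
  exact hw

theorem BF.eqV_iff {v v' w w' : V} (h : Z.F [] [(v, v'), (w, w')]) : v = w ↔ v' = w' := by
  refine ⟨Z.eqV h, ?_⟩
  have := Z.symm h
  simp only [List.map_cons, List.map_nil, Prod.swap_prod_mk] at this
  exact Z.eqV this

theorem BF.smul_iff {a a' : G} {v v' w w' : V} (h : Z.F [(a, a')] [(v, v'), (w, w')]) :
    a • v = w ↔ a' • v' = w' := by
  constructor
  · rintro rfl
    exact Z.smul h
  · intro hh
    have := Z.symm h
    simp only [List.map_cons, List.map_nil, Prod.swap_prod_mk] at this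
    rw [← hh] at this
    exact Z.smul this

theorem BF.symm1 {a a' : G} (h : Z.F [(a, a')] []) : Z.F [(a', a)] [] := by
  have := Z.symm h
  simpa using this

theorem BF.symmV {v v' : V} (h : Z.F [] [(v, v')]) : Z.F [] [(v', v)] := by
  have := Z.symm h
  simpa using this

variable {Z}

theorem BF.Pin.right {u g : G} (hu : Z.Pin u) (h : Z.F [(g, u)] []) : g = u :=
  hu g (Z.symm1 h)

theorem BF.Pin.place {u : G} (hu : Z.Pin u) {A : List (G × G)} {B : List (V × V)}
    (h : Z.F A B) (hl : A.length + B.length < K) : Z.F ((u, u) :: A) B := by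
  obtain ⟨c, hc⟩ := Z.moveG h hl u
  have h1 : c = u := hu c (Z.mono hc (by simp) (by simp))
  rw [h1] at hc
  exact hc

theorem BF.pin_one : Z.Pin (1 : G) := fun _ h => Z.toSys0.one_eq h

theorem BF.Pin.mul (hK : 4 ≤ K) {u v : G} (hu : Z.Pin u) (hv : Z.Pin v) : Z.Pin (u * v) := by
  intro g h
  have h1 := hu.place h (by simp; omega)
  have h2 := hv.place h1 (by simp; omega)
  exact (Z.mul (Z.monoA h2 (by simp) : Z.F [(u, u), (v, v), (u * v, g)] [])).symm

theorem BF.Pin.inv (hK : 4 ≤ K) {u : G} (hu : Z.Pin u) : Z.Pin u⁻¹ := by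
  intro g h
  have h1 := hu.place h (by simp; omega)
  have h2 := Z.place_one h1 (by simp; omega)
  have h3 := (Z.toSys0.mul (Z.monoA h2 (by simp) :
    Z.F [(u, u), (u⁻¹, g), (1, 1)] [])).1 (by simp)
  exact (inv_eq_of_mul_eq_one_right h3).symm

theorem BF.pin_closure (hK : 4 ≤ K) {ι : Type} {x : ι → G} (hx : ∀ i, Z.Pin (x i)) {u : G}
    (hu : u ∈ Subgroup.closure (Set.range x)) : Z.Pin u := by
  induction hu using Subgroup.closure_induction with
  | mem y hy =>
    obtain ⟨i, rfl⟩ := hy
    exact hx i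
  | one => exact BF.pin_one
  | mul a b _ _ ha hb => exact ha.mul hK hb
  | inv a _ ha => exact ha.inv hK

/-- Fix the point `v0`. -/
def BF.rel (Z : BF G V (K + 1)) (v0 : V) : BF G V K where
  F := fun A B => Z.F A ((v0, v0) :: B)
  mono := by
    intro A A' B B' h hA hB
    exact Z.mono h hA (List.cons_subset_cons _ hB)
  symm := by
    intro A B h
    have := Z.symm h
    simpa using this
  eqG := fun h => Z.eqG (Z.monoB h (by simp))
  eqV := fun h => Z.eqV (Z.monoB h (by simp))
  mul := fun h => Z.mul (Z.monoB h (by simp))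
  smul := by
    intro a a' v v' w' h
    exact Z.smul (Z.monoB h (by simp) : Z.F [(a, a')] [(v, v'), (a • v, w')])
  moveG := fun h hl g => Z.moveG h (by simp; omega) g
  moveV := by
    intro A B h hl
    obtain ⟨f, hf⟩ := Z.moveV h (by simp; omega)
    refine ⟨f, fun v => Z.monoB (hf v) ?_⟩
    intro p hp
    simp only [List.mem_cons] at hp ⊢
    tauto

theorem BF.rel_F (Z : BF G V (K + 1)) (v0 : V) (A : List (G × G)) (B : List (V × V)) :
    (Z.rel v0).F A B = Z.F A ((v0, v0) :: B) := rfl

theorem BF.Pin.rel {Z : BF G V (K + 1)} {u : G} (hu : Z.Pin u) (v0 : V) : (Z.rel v0).Pin u :=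
  fun g h => hu g (Z.monoB h (by simp))

end Basic

end Pool.Agent.H68.WLN
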