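import Pool.Agent.H68.N.Defs

set_option autoImplicit false

namespace Pool.Agent.H68.WLN

open Pool.Agent.H68.WL

section simple
variable {Q : Type} [Group Q]

theorem ch_normal_or (S : Subgroup Q) (hs : IsSimpleGroup S) (K : Subgroup Q) (hK : K ≤ S)
    (hn : ∀ x ∈ S, ∀ y ∈ K, x * y * x⁻¹ ∈ K) : K = ⊥ ∨ K = S := by
  have hN : (K.subgroupOf S).Normal := by
    constructor
    intro n hn' g
    rw [Subgroup.mem_subgroupOf] at hn' ⊢
    simpa using hn g.1 g.2 n.1 hn'
  rcases hs.eq_bot_or_eq_top_of_normal _ hN with h | h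
  · left
    rw [Subgroup.subgroupOf_eq_bot] at h
    have : K ⊓ S = ⊥ := disjoint_iff.mp h
    rwa [inf_eq_left.mpr hK] at this
  · right
    rw [Subgroup.subgroupOf_eq_top] at h
    exact le_antisymm hK h

theorem ch_three [Finite Q] (S : Subgroup Q) (hs : IsSimpleGroup S)
    (hnab : ∃ a ∈ S, ∃ b ∈ S, a * b ≠ b * a) (K : Subgroup Q) (hK : K ≤ S) (hne : K ≠ S) :
    3 * Nat.card K ≤ Nat.card S := by
  have hidx := Subgroup.card_mul_index (K.subgroupOf S)
  have hcard : Nat.card (K.subgroupOf S) = Nat.card K :=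
    Nat.card_congr (Subgroup.subgroupOfEquivOfLe hK).toEquiv
  rw [hcard] at hidx
  have hpos : 0 < Nat.card S := Nat.card_pos
  have h0 : (K.subgroupOf S).index ≠ 0 := by
    intro h; rw [h] at hidx; omega
  have h1 : (K.subgroupOf S).index ≠ 1 := by
    intro h
    rw [Subgroup.index_eq_one, Subgroup.subgroupOf_eq_top] at h
    exact hne (le_antisymm hK h)
  have h2 : (K.subgroupOf S).index ≠ 2 := by
    intro h
    have hN := Subgroup.normal_of_index_eq_two h
    rcases hs.eq_bot_or_eq_top_of_normal _ hN with h' | h'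
    · rw [h', Subgroup.index_bot] at h
      have : Fact (Nat.Prime 2) := ⟨Nat.prime_two⟩
      have : IsCyclic S := isCyclic_of_prime_card h
      obtain ⟨a, ha, b, hb, hab⟩ := hnab
      apply hab
      have := (IsCyclic.commGroup (α := S)).mul_comm ⟨a, ha⟩ ⟨b, hb⟩
      exact congrArg Subtype.val this
    · rw [h', Subgroup.index_top] at h
      omega
  have h3 : 3 ≤ (K.subgroupOf S).index := by omega
  calc 3 * Nat.card K = Nat.card K * 3 := mul_comm _ _
    _ ≤ Nat.card K * (K.subgroupOf S).index := Nat.mul_le_mul_left _ h3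
    _ = Nat.card S := hidx

end simple

section
variable {Q V ι : Type} [Group Q] [MulAction Q V]

/-- The group generated by the `R i`, `i ∈ J`. -/
def PJ (R : ι → Subgroup Q) (J : Set ι) : Subgroup Q := ⨆ i : {i // i ∈ J}, R i.1

theorem PJ_induction {R : ι → Subgroup Q} {J : Set ι} {C : Q → Prop}
    (mem : ∀ i ∈ J, ∀ x ∈ R i, C x) (one : C 1) (mul : ∀ x y, C x → C y → C (x * y)) :
    ∀ x ∈ PJ R J, C x := by
  intro x hx
  exact Subgroup.iSup_induction (C := C) (fun i : {i // i ∈ J} => R i.1) hx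
    (fun i x hx => mem i.1 i.2 x hx) one mul

theorem le_PJ {R : ι → Subgroup Q} {J : Set ι} {i : ι} (hi : i ∈ J) : R i ≤ PJ R J :=
  le_iSup (fun i : {i // i ∈ J} => R i.1) ⟨i, hi⟩

theorem PJ_mono {R : ι → Subgroup Q} {J J' : Set ι} (h : J ⊆ J') : PJ R J ≤ PJ R J' := by
  intro x hx
  refine PJ_induction (C := fun x => x ∈ PJ R J') ?_ (one_mem _) ?_ x hx
  · intro i hi x hx
    exact le_PJ (h hi) hx
  · intro x y hx hy
    exact mul_mem hx hy

/-- The standing assumptions. -/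
structure ChS (R : ι → Subgroup Q) (B : Finset V) : Prop where
  comm : ∀ i j, i ≠ j → ∀ x ∈ R i, ∀ y ∈ R j, x * y = y * x
  simple : ∀ i, IsSimpleGroup (R i)
  nab : ∀ i, ∃ a ∈ R i, ∃ b ∈ R i, a * b ≠ b * a
  inv : ∀ i, ∀ r ∈ R i, ∀ w ∈ B, r • w ∈ B
  trans : ∀ w ∈ B, ∀ w' ∈ B, ∃ a ∈ ⨆ i, R i, a • w = w'
  act : ∀ i, ∃ r ∈ R i, ∃ w ∈ B, r • w ≠ w

variable {R : ι → Subgroup Q} {B : Finset V}

theorem ChS.commP (h : ChS R B) {J : Set ι} {i : ι} (hi : i ∉ J) :
    ∀ x ∈ PJ R J, ∀ y ∈ R i, x * y = y * x := by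
  refine PJ_induction ?_ ?_ ?_
  · intro j hj x hx y hy
    exact h.comm j i (fun e => hi (e ▸ hj)) x hx y hy
  · intro y _; simp
  · intro a b ha hb y hy
    rw [mul_assoc, hb y hy, ← mul_assoc, ha y hy, mul_assoc]

theorem ChS.commPP (h : ChS R B) {I J : Set ι} (hd : ∀ i ∈ I, i ∉ J) :
    ∀ x ∈ PJ R I, ∀ y ∈ PJ R J, x * y = y * x := by
  refine PJ_induction ?_ ?_ ?_
  · intro i hi x hx y hy
    exact (h.commP (hd i hi) y hy x hx).symm
  · intro y _; simp
  · intro a b ha hb y hy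
    rw [mul_assoc, hb y hy, ← mul_assoc, ha y hy, mul_assoc]

theorem ChS.normP (h : ChS R B) {J : Set ι} {i : ι} :
    ∀ x ∈ PJ R J, ∀ y ∈ R i, x * y * x⁻¹ ∈ R i := by
  refine PJ_induction ?_ ?_ ?_
  · intro j _ x hx y hy
    by_cases hji : j = i
    · subst hji
      exact mul_mem (mul_mem hx hy) (inv_mem hx)
    · rw [h.comm j i hji x hx y hy, mul_inv_cancel_right]
      exact hy
  · intro y hy; simpa using hy
  · intro a b ha hb y hy
    have := ha _ (hb y hy)
    simpa [mul_assoc] using this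

theorem ChS.invP (h : ChS R B) {J : Set ι} : ∀ x ∈ PJ R J, ∀ w ∈ B, x • w ∈ B := by
  refine PJ_induction ?_ ?_ ?_
  · intro j _ x hx w hw
    exact h.inv j x hx w hw
  · intro w hw; simpa using hw
  · intro a b ha hb w hw
    rw [mul_smul]
    exact ha _ (hb w hw)

theorem ChS.split (h : ChS R B) {J : Set ι} {i : ι} (hi : i ∉ J) :
    ∀ x ∈ PJ R (insert i J), ∃ a ∈ PJ R J, ∃ r ∈ R i, x = a * r := by
  refine PJ_induction ?_ ?_ ?_
  · intro j hj x hx
    by_cases hji : j = i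
    · subst hji
      exact ⟨1, one_mem _, x, hx, by simp⟩
    · have : j ∈ J := by
        rcases hj with hj | hj
        · exact absurd hj hji
        · exact hj
      exact ⟨x, le_PJ this hx, 1, one_mem _, by simp⟩
  · exact ⟨1, one_mem _, 1, one_mem _, by simp⟩
  · rintro _ _ ⟨a, ha, r, hr, rfl⟩ ⟨b, hb, s, hs, rfl⟩
    refine ⟨a * b, mul_mem ha hb, r * s, mul_mem hr hs, ?_⟩
    have := h.commP hi b hb r hr
    calc a * r * (b * s) = a * (r * b) * s := by group
      _ = a * (b * r) * s := by rw [this]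
      _ = a * b * (r * s) := by group

theorem iSup_le_PJ : (⨆ i, R i) ≤ PJ R Set.univ :=
  iSup_le fun _ => le_PJ (Set.mem_univ _)

theorem ChS.splitTop (h : ChS R B) (i : ι) :
    ∀ x ∈ ⨆ i, R i, ∃ a ∈ PJ R {i}ᶜ, ∃ r ∈ R i, x = a * r := by
  intro x hx
  have hx' := iSup_le_PJ hx
  have hu : (Set.univ : Set ι) = insert i ({i}ᶜ : Set ι) := by
    ext j; simp [em]
  rw [hu] at hx'
  exact h.split (by simp) x hx'

theorem ChS.moves (h : ChS R B) (i : ι) {w : V} (hw : w ∈ B) : ∃ r ∈ R i, r • w ≠ w := by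
  by_contra hcon
  push Not at hcon
  obtain ⟨r, hr, w', hw', hne⟩ := h.act i
  apply hne
  obtain ⟨p, hp, hpw⟩ := h.trans w hw w' hw'
  obtain ⟨a, ha, s, hs, rfl⟩ := h.splitTop i p hp
  rw [mul_smul, hcon s hs] at hpw
  rw [← hpw, ← mul_smul, ← h.commP (by simp) a ha r hr, mul_smul, hcon r hr]

theorem ChS.faithful [Finite Q] (h : ChS R B) {i : ι} {r : Q} (hr : r ∈ R i)
    (hf : ∀ w ∈ B, r • w = w) : r = 1 := by
  let K : Subgroup Q :=
    { carrier := {r | r ∈ R i ∧ ∀ w ∈ B, r • w = w}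
      mul_mem' := by
        rintro a b ⟨ha, ha'⟩ ⟨hb, hb'⟩
        refine ⟨mul_mem ha hb, fun w hw => ?_⟩
        rw [mul_smul, hb' w hw, ha' w hw]
      one_mem' := ⟨one_mem _, fun w _ => one_smul _ w⟩
      inv_mem' := by
        rintro a ⟨ha, ha'⟩
        refine ⟨inv_mem ha, fun w hw => ?_⟩
        rw [inv_smul_eq_iff, ha' w hw] }
  have hmem : ∀ x, x ∈ K ↔ x ∈ R i ∧ ∀ w ∈ B, x • w = w := fun x => Iff.rfl
  rcases ch_normal_or (R i) (h.simple i) K (fun x hx => hx.1) (by
    intro x hx y hy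
    refine ⟨mul_mem (mul_mem hx hy.1) (inv_mem hx), fun w hw => ?_⟩
    rw [mul_smul, mul_smul, hy.2 _ (h.inv i _ (inv_mem hx) w hw), smul_inv_smul]) with hK | hK
  · have : r ∈ K := ⟨hr, hf⟩
    rw [hK] at this
    simpa using this
  · exfalso
    obtain ⟨s, hs, w, hw, hne⟩ := h.act i
    rw [← hK] at hs
    exact hne (hs.2 w hw)

/-- The elements of `S` which act at `w` like an element of `A`. -/
def Kof (S A : Subgroup Q) (hc : ∀ x ∈ S, ∀ y ∈ A, x * y = y * x) (w : V) : Subgroup Q where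
  carrier := {r | r ∈ S ∧ ∃ a ∈ A, r • w = a • w}
  mul_mem' := by
    rintro r s ⟨hr, a, ha, hra⟩ ⟨hs, b, hb, hsb⟩
    refine ⟨mul_mem hr hs, b * a, mul_mem hb ha, ?_⟩
    rw [mul_smul, hsb, ← mul_smul, hc r hr b hb, mul_smul, hra, mul_smul]
  one_mem' := ⟨one_mem _, 1, one_mem _, rfl⟩
  inv_mem' := by
    rintro r ⟨hr, a, ha, hra⟩
    refine ⟨inv_mem hr, a⁻¹, inv_mem ha, ?_⟩
    rw [inv_smul_eq_iff, ← mul_smul, hc r hr _ (inv_mem ha), mul_smul, hra, inv_smul_smul]

theorem mem_Kof {S A : Subgroup Q} {hc : ∀ x ∈ S, ∀ y ∈ A, x * y = y * x} {w : V} {r : Q} :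
    r ∈ Kof S A hc w ↔ r ∈ S ∧ ∃ a ∈ A, r • w = a • w := Iff.rfl

theorem ChS.caseB_trans (h : ChS R B) {i : ι} {w0 : V} (hw0 : w0 ∈ B)
    (hB : ∀ r ∈ R i, ∃ a ∈ PJ R {i}ᶜ, r • w0 = a • w0) :
    ∀ w ∈ B, ∀ w' ∈ B, ∃ a ∈ PJ R {i}ᶜ, a • w = w' := by
  have key : ∀ w ∈ B, ∃ a ∈ PJ R {i}ᶜ, a • w0 = w := by
    intro w hw
    obtain ⟨p, hp, hpw⟩ := h.trans w0 hw0 w hw
    obtain ⟨a, ha, s, hs, rfl⟩ := h.splitTop i p hp
    obtain ⟨b, hb, hsb⟩ := hB s hs
    refine ⟨a * b, mul_mem ha hb, ?_⟩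
    rw [mul_smul, ← hsb, ← mul_smul, hpw]
  intro w hw w' hw'
  obtain ⟨a, ha, rfl⟩ := key w hw
  obtain ⟨b, hb, rfl⟩ := key w' hw'
  refine ⟨b * a⁻¹, mul_mem hb (inv_mem ha), ?_⟩
  rw [mul_smul, inv_smul_smul]

theorem ChS.semireg [Finite Q] (h : ChS R B) {i : ι}
    (hB : ∀ w ∈ B, ∀ w' ∈ B, ∃ a ∈ PJ R {i}ᶜ, a • w = w') {r : Q} (hr : r ∈ R i) {w : V}
    (hw : w ∈ B) (hrw : r • w = w) : r = 1 := by
  apply h.faithful hr
  intro w' hw'
  obtain ⟨a, ha, rfl⟩ := hB w hw w' hw'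
  rw [← mul_smul, ← h.commP (by simp) a ha r hr, mul_smul, hrw]

theorem ChS.semireg' [Finite Q] (h : ChS R B) {i : ι}
    (hB : ∀ w ∈ B, ∀ w' ∈ B, ∃ a ∈ PJ R {i}ᶜ, a • w = w') {r s : Q} (hr : r ∈ R i)
    (hs : s ∈ R i) {w : V} (hw : w ∈ B) (hrw : r • w = s • w) : r = s := by
  have : s⁻¹ * r = 1 := h.semireg hB (mul_mem (inv_mem hs) hr) hw (by
    rw [mul_smul, hrw, inv_smul_smul])
  rw [inv_mul_eq_one] at this
  exact this.symm

theorem ChS.caseB_K [Finite Q] (h : ChS R B) {i j : ι} (hij : j ≠ i)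
    (hB : ∀ w ∈ B, ∀ w' ∈ B, ∃ a ∈ PJ R {i}ᶜ, a • w = w') {w : V} (hw : w ∈ B) {ρ : Q}
    (hρ : ρ ∈ R i) (hρ1 : ρ ≠ 1) (hex : ∃ r ∈ R j, r • w = ρ • w) :
    ∀ s ∈ R i, ∃ r ∈ R j, r • w = s • w := by
  have hc : ∀ x ∈ R i, ∀ y ∈ R j, x * y = y * x := h.comm i j (Ne.symm hij)
  rcases ch_normal_or (R i) (h.simple i) (Kof (R i) (R j) hc w) (fun x hx => hx.1) (by
    rintro x hx r ⟨hr, s, hs, hrs⟩
    refine ⟨mul_mem (mul_mem hx hr) (inv_mem hx), ?_⟩
    obtain ⟨a, ha, hxa⟩ := hB w hw (x⁻¹ • w) (h.inv i _ (inv_mem hx) w hw)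
    refine ⟨a * s * a⁻¹, h.normP a ha s hs, ?_⟩
    have har : r * a = a * r := (h.commP (by simp) a ha r hr).symm
    have hax : x * a = a * x := (h.commP (by simp) a ha x hx).symm
    have hxs : x * s = s * x := hc x hx s hs
    have e1 : (x * r * x⁻¹) • w = (x * (a * s)) • w := by
      rw [mul_smul, ← hxa, ← mul_smul, mul_assoc, har, mul_smul, mul_smul, hrs]
      simp only [mul_smul]
    have e2 : x * (a * s) = a * s * a⁻¹ * (x * a) := by
      rw [hax]
      calc x * (a * s) = x * a * s := by group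
        _ = a * x * s := by rw [hax]
        _ = a * (x * s) := by group
        _ = a * (s * x) := by rw [hxs]
        _ = a * s * a⁻¹ * (a * x) := by group
    rw [e1, e2, mul_smul _ (x * a), mul_smul x a, hxa, smul_inv_smul]) with hK | hK
  · exfalso
    obtain ⟨r, hr, hrw⟩ := hex
    have : ρ ∈ Kof (R i) (R j) hc w := ⟨hρ, r, hr, hrw.symm⟩
    rw [hK] at this
    exact hρ1 (by simpa using this)
  · intro s hs
    rw [← hK] at hs
    obtain ⟨_, a, ha, hsa⟩ := hs
    exact ⟨a, ha, hsa.symm⟩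

/-! ### Averaging and the good letters -/

open Classical in
theorem ch_avg {α β : Type} (T : Finset α) (B : Finset β) (P : α → β → Prop) (hT : T.Nonempty)
    (h : ∀ w ∈ B, 3 * (T.filter (fun r => P r w)).card ≤ T.card) :
    ∃ r ∈ T, 3 * (B.filter (fun w => P r w)).card ≤ B.card := by
  by_contra hcon
  push Not at hcon
  have h1 : ∑ r ∈ T, B.card < ∑ r ∈ T, 3 * (B.filter (fun w => P r w)).card :=
    Finset.sum_lt_sum_of_nonempty hT hcon
  have h2 : ∑ r ∈ T, (B.filter (fun w => P r w)).card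
      = ∑ w ∈ B, (T.filter (fun r => P r w)).card :=
    Finset.sum_card_bipartiteAbove_eq_sum_card_bipartiteBelow P
  have h3 : ∑ w ∈ B, 3 * (T.filter (fun r => P r w)).card ≤ ∑ w ∈ B, T.card :=
    Finset.sum_le_sum h
  rw [← Finset.mul_sum] at h1 h3
  rw [h2] at h1
  have := lt_of_lt_of_le h1 h3
  simp only [Finset.sum_const, smul_eq_mul] at this
  rw [mul_comm] at this
  exact lt_irrefl _ this

open Classical in
theorem ch_ncard {α : Type} (B : Finset α) (P : α → Prop) :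
    {w | w ∈ B ∧ P w}.ncard = (B.filter P).card := by
  rw [← Set.ncard_coe_finset]
  congr 1
  ext w
  simp

theorem ch_ne_one {S : Subgroup Q} (hnab : ∃ a ∈ S, ∃ b ∈ S, a * b ≠ b * a) :
    ∃ a ∈ S, a ≠ 1 := by
  obtain ⟨a, ha, b, hb, hab⟩ := hnab
  refine ⟨a, ha, ?_⟩
  rintro rfl
  exact hab (by simp)

theorem exists_good [Finite Q] [Finite ι] (R : ι → Subgroup Q) (B : Finset V)
    (hcomm : ∀ i j, i ≠ j → ∀ x ∈ R i, ∀ y ∈ R j, x * y = y * x)
    (hsimple : ∀ i, IsSimpleGroup (R i))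
    (hnab : ∀ i, ∃ a ∈ R i, ∃ b ∈ R i, a * b ≠ b * a)
    (hinv : ∀ i, ∀ r ∈ R i, ∀ w ∈ B, r • w ∈ B)
    (htrans : ∀ w ∈ B, ∀ w' ∈ B, ∃ a ∈ ⨆ i, R i, a • w = w')
    (hact : ∀ i, ∃ r ∈ R i, ∃ w ∈ B, r • w ≠ w) (i : ι) :
    ∃ ρ ∈ R i, 2 * B.card ≤ 3 * {w | w ∈ B ∧ Ok R i ρ w}.ncard := by
  classical
  have h : ChS R B := ⟨hcomm, hsimple, hnab, hinv, htrans, hact⟩
  by_cases hcase : ∃ w0 ∈ B, ∀ r ∈ R i, ∃ a ∈ PJ R {i}ᶜ, r • w0 = a • w0
  · obtain ⟨w0, hw0, hB0⟩ := hcase
    have hB := h.caseB_trans hw0 hB0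
    obtain ⟨ρ, hρ, hρ1⟩ := ch_ne_one (hnab i)
    refine ⟨ρ, hρ, ?_⟩
    rw [ch_ncard, Finset.filter_true_of_mem]
    · omega
    · intro w hw
      refine ⟨fun hw' => hρ1 (h.semireg hB hρ hw hw'), ?_⟩
      intro j hj hex
      exact h.caseB_K hj hB hw hρ hρ1 hex
  · push Not at hcase
    have hc : ∀ x ∈ R i, ∀ y ∈ PJ R {i}ᶜ, x * y = y * x := fun x hx y hy =>
      (h.commP (by simp) y hy x hx).symm
    have := Fintype.ofFinite Q
    let T : Finset Q := Finset.univ.filter (fun x => x ∈ R i)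
    have hTcard : T.card = Nat.card (R i) := by
      rw [Nat.card_eq_fintype_card, Fintype.card_subtype]
    obtain ⟨ρ, hρT, hρ⟩ := ch_avg T B (fun r w => r ∈ Kof (R i) (PJ R {i}ᶜ) hc w)
      ⟨1, by simp [T, one_mem]⟩ (by
        intro w hw
        have hne : Kof (R i) (PJ R {i}ᶜ) hc w ≠ R i := by
          intro he
          obtain ⟨r, hr, hr'⟩ := hcase w hw
          rw [← he] at hr
          obtain ⟨_, a, ha, hra⟩ := hr
          exact hr' a ha hra
        have h3 := ch_three (R i) (hsimple i) (hnab i) (Kof (R i) (PJ R {i}ᶜ) hc w)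
          (fun x hx => hx.1) hne
        have hK : (T.filter (fun r => r ∈ Kof (R i) (PJ R {i}ᶜ) hc w)).card
            = Nat.card (Kof (R i) (PJ R {i}ᶜ) hc w) := by
          rw [Nat.card_eq_fintype_card, Fintype.card_subtype]
          congr 1
          ext x
          simp only [T, Finset.mem_filter, Finset.mem_univ, true_and]
          exact ⟨fun hx => hx.2, fun hx => ⟨hx.1, hx⟩⟩
        rw [hK, hTcard]
        exact h3)
    refine ⟨ρ, by simpa [T] using hρT, ?_⟩
    rw [ch_ncard]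
    have hsub : (B.filter (fun w => ¬ ρ ∈ Kof (R i) (PJ R {i}ᶜ) hc w)) ⊆
        B.filter (Ok R i ρ) := by
      intro w hw
      rw [Finset.mem_filter] at hw ⊢
      have hρi : ρ ∈ R i := by simpa [T] using hρT
      refine ⟨hw.1, ?_, ?_⟩
      · intro he
        exact hw.2 ⟨hρi, 1, one_mem _, by rw [he, one_smul]⟩
      · rintro j hj ⟨r, hr, hrw⟩
        exact absurd ⟨hρi, r, le_PJ (by simpa using hj) hr, hrw.symm⟩ hw.2
    have h1 := Finset.card_le_card hsub
    have h2 := Finset.card_filter_add_card_filter_not (s := B)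
      (fun w => ρ ∈ Kof (R i) (PJ R {i}ᶜ) hc w)
    omega

/-! ### Links -/

/-- The factor `i` is linked to the factor `j`. -/
def Link (R : ι → Subgroup Q) (B : Finset V) (i j : ι) : Prop :=
  ∀ w ∈ B, ∀ s ∈ R i, ∃ r ∈ R j, r • w = s • w

theorem ChS.link_of (h : ChS R B) {i j : ι} {w : V} (hw : w ∈ B)
    (hl : ∀ s ∈ R i, ∃ r ∈ R j, r • w = s • w) : Link R B i j := by
  intro w' hw' s hs
  obtain ⟨p, hp, rfl⟩ := h.trans w hw w' hw'
  have hp' := iSup_le_PJ hp
  have h1 : p⁻¹ * s * p ∈ R i := by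
    have := h.normP p⁻¹ (inv_mem hp') s hs
    simpa using this
  obtain ⟨r, hr, hrw⟩ := hl _ h1
  refine ⟨p * r * p⁻¹, h.normP p hp' r hr, ?_⟩
  calc (p * r * p⁻¹) • (p • w) = p • (r • w) := by rw [mul_smul, mul_smul, inv_smul_smul]
    _ = p • ((p⁻¹ * s * p) • w) := by rw [hrw]
    _ = s • (p • w) := by
        rw [← mul_smul, ← mul_smul]
        congr 1
        group

theorem Link.caseB (h : ChS R B) {i j : ι} (hij : j ≠ i) (hl : Link R B i j) :
    ∀ w ∈ B, ∀ w' ∈ B, ∃ a ∈ PJ R {i}ᶜ, a • w = w' := by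
  intro w hw w' hw'
  refine h.caseB_trans hw ?_ w hw w' hw'
  intro r hr
  obtain ⟨s, hs, hsr⟩ := hl w hw r hr
  exact ⟨s, le_PJ (by simpa using hij) hs, hsr.symm⟩

theorem Link.unique [Finite Q] (h : ChS R B) (hne : B.Nonempty) {i j k : ι} (hij : j ≠ i)
    (hik : k ≠ i) (h1 : Link R B i j) (h2 : Link R B i k) : j = k := by
  by_contra hjk
  obtain ⟨w, hw⟩ := hne
  obtain ⟨r, hr, s, hs, hrs⟩ := h.nab i
  apply hrs
  apply h.semireg' (h1.caseB h hij) (mul_mem hr hs) (mul_mem hs hr) hw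
  obtain ⟨a, ha, har⟩ := h1 w hw r hr
  obtain ⟨b, hb, hbs⟩ := h2 w hw s hs
  rw [mul_smul, mul_smul, ← hbs, ← har, ← mul_smul, ← mul_smul,
    h.comm i k (Ne.symm hik) r hr b hb, ← h.comm j i hij a ha s hs, mul_smul, mul_smul, ← har,
    ← hbs, ← mul_smul, ← mul_smul, h.comm j k hjk a ha b hb]

/-! ### Usable points -/

open Classical in
/-- The usable points of the factor `i`. -/
noncomputable def Us (B : Finset V) (ρ : ι → Q) (i : ι) : Finset V :=
  B.filter (fun w => ρ i • w ≠ w ∧ ∀ j, j ≠ i → ρ j • w ≠ ρ i • w)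

theorem mem_Us {ρ : ι → Q} {i : ι} {w : V} :
    w ∈ Us B ρ i ↔ w ∈ B ∧ ρ i • w ≠ w ∧ ∀ j, j ≠ i → ρ j • w ≠ ρ i • w := by
  classical
  unfold Us
  rw [Finset.mem_filter]

theorem ChS.Us_card [Finite Q] (h : ChS R B) (hne : B.Nonempty) {ρ : ι → Q}
    (hρ : ∀ i, ρ i ∈ R i)
    (hgood : ∀ i, 2 * B.card ≤ 3 * {w | w ∈ B ∧ Ok R i (ρ i) w}.ncard) (i : ι) :
    2 * B.card ≤ 3 * (Us B ρ i).card := by
  classical
  simp only [ch_ncard] at hgood
  have hBpos : 0 < B.card := Finset.card_pos.mpr hne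
  by_cases hl : ∃ j, j ≠ i ∧ Link R B i j
  · obtain ⟨j0, hj0, hlink⟩ := hl
    have hB := hlink.caseB h hj0
    have hρ1 : ρ i ≠ 1 := by
      intro he
      have : B.filter (Ok R i (ρ i)) = ∅ := by
        rw [Finset.filter_eq_empty_iff]
        rintro w hw ⟨h1, _⟩
        exact h1 (by rw [he, one_smul])
      have h2 := hgood i
      rw [this, Finset.card_empty] at h2
      omega
    have hmove : ∀ w ∈ B, ρ i • w ≠ w := fun w hw he => hρ1 (h.semireg hB (hρ i) hw he)
    have hother : ∀ w ∈ B, ∀ j, j ≠ i → j ≠ j0 → ρ j • w ≠ ρ i • w := by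
      intro w hw j hji hjj0 he
      have := h.link_of hw (h.caseB_K hji hB hw (hρ i) hρ1 ⟨ρ j, hρ j, he⟩)
      exact hjj0 (Link.unique h hne hji hj0 this hlink)
    by_cases hback : Link R B j0 i
    · -- both semiregular
      have hB' := hback.caseB h (Ne.symm hj0)
      have hρ1' : ρ j0 ≠ 1 := by
        intro he
        have : B.filter (Ok R j0 (ρ j0)) = ∅ := by
          rw [Finset.filter_eq_empty_iff]
          rintro w hw ⟨h1, _⟩
          exact h1 (by rw [he, one_smul])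
        have h2 := hgood j0
        rw [this, Finset.card_empty] at h2
        omega
      have := Fintype.ofFinite Q
      let T : Finset Q := Finset.univ.filter (fun x => x ∈ R j0)
      have hTmem : ∀ x, x ∈ T ↔ x ∈ R j0 := by intro x; simp [T]
      have hTcard : T.card = Nat.card (R j0) := by
        rw [Nat.card_eq_fintype_card, Fintype.card_subtype]
      let C : Subgroup Q := Subgroup.centralizer {ρ j0} ⊓ R j0
      have hCmem : ∀ x, x ∈ C ↔ ρ j0 * x = x * ρ j0 ∧ x ∈ R j0 := by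
        intro x
        rw [Subgroup.mem_inf, Subgroup.mem_centralizer_iff]
        simp
      have hCne : C ≠ R j0 := by
        intro he
        have hcen : ∀ x ∈ R j0, ρ j0 * x = x * ρ j0 := by
          intro x hx
          rw [← he, hCmem] at hx
          exact hx.1
        -- the subgroup generated by ρ j0 is normal, hence everything
        rcases ch_normal_or (R j0) (h.simple j0) (Subgroup.zpowers (ρ j0))
          (by rw [Subgroup.zpowers_le]; exact hρ j0) (by
            intro x hx y hy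
            obtain ⟨n, rfl⟩ := Subgroup.mem_zpowers_iff.mp hy
            have hcm : Commute (ρ j0) x := hcen x hx
            have : x * ρ j0 ^ n * x⁻¹ = ρ j0 ^ n := by
              rw [← (hcm.zpow_left n).eq, mul_inv_cancel_right]
            rw [this]; exact hy) with hz | hz
        · rw [Subgroup.zpowers_eq_bot] at hz
          exact hρ1' hz
        · obtain ⟨a, ha, b, hb, hab⟩ := h.nab j0
          apply hab
          rw [← hz] at ha hb
          obtain ⟨m, rfl⟩ := Subgroup.mem_zpowers_iff.mp ha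
          obtain ⟨n, rfl⟩ := Subgroup.mem_zpowers_iff.mp hb
          rw [← zpow_add, ← zpow_add, add_comm]
      have hC3 := ch_three (R j0) (h.simple j0) (h.nab j0) C (fun x hx => ((hCmem x).mp hx).2)
        hCne
      obtain ⟨s, hsT, hs⟩ := ch_avg T B (fun s w => ρ j0 • (s • w) = ρ i • (s • w))
        ⟨1, by simp [T, one_mem]⟩ (by
          intro w hw
          rw [hTcard]
          refine le_trans (Nat.mul_le_mul_left 3 ?_) hC3
          rcases (T.filter (fun s => ρ j0 • (s • w) = ρ i • (s • w))).eq_empty_or_nonempty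
            with he | ⟨t, ht⟩
          · rw [he]; simp
          · rw [Finset.mem_filter, hTmem] at ht
            have hCcard : Nat.card C = (Finset.univ.filter (fun x => x ∈ C)).card := by
              rw [Nat.card_eq_fintype_card, Fintype.card_subtype]
            rw [hCcard]
            refine Finset.card_le_card_of_injOn (fun s => s * t⁻¹) ?_ ?_
            · intro s hs
              rw [Finset.mem_coe, Finset.mem_filter, hTmem] at hs
              rw [Finset.mem_coe, Finset.mem_filter]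
              refine ⟨Finset.mem_univ _, ?_⟩
              rw [hCmem]
              refine ⟨?_, mul_mem hs.1 (inv_mem ht.1)⟩
              have key : ∀ s : Q, s ∈ R j0 → ρ j0 • (s • w) = ρ i • (s • w) →
                  (s⁻¹ * ρ j0 * s) • w = ρ i • w := by
                intro s hs he
                calc (s⁻¹ * ρ j0 * s) • w = s⁻¹ • (ρ j0 • (s • w)) := by
                      rw [mul_smul, mul_smul]
                  _ = s⁻¹ • (ρ i • (s • w)) := by rw [he]
                  _ = (s⁻¹ * ρ i * s) • w := by rw [mul_smul, mul_smul]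
                  _ = ρ i • w := by
                      rw [h.comm j0 i hj0 s⁻¹ (inv_mem hs) (ρ i) (hρ i), mul_assoc,
                        inv_mul_cancel, mul_one]
              have e : s⁻¹ * ρ j0 * s = t⁻¹ * ρ j0 * t :=
                h.semireg' hB' (mul_mem (mul_mem (inv_mem hs.1) (hρ j0)) hs.1)
                  (mul_mem (mul_mem (inv_mem ht.1) (hρ j0)) ht.1) hw
                  ((key s hs.1 hs.2).trans (key t ht.1 ht.2).symm)
              calc ρ j0 * (s * t⁻¹) = s * (s⁻¹ * ρ j0 * s) * t⁻¹ := by group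
                _ = s * (t⁻¹ * ρ j0 * t) * t⁻¹ := by rw [e]
                _ = s * t⁻¹ * ρ j0 := by group
            · intro s _ s' _ he
              exact mul_right_cancel he)
      have hsR : s ∈ R j0 := (hTmem s).mp hsT
      have hcount : (B.filter (fun w => ρ j0 • w = ρ i • w)).card ≤
          (B.filter (fun w => ρ j0 • (s • w) = ρ i • (s • w))).card := by
        refine Finset.card_le_card_of_injOn (fun w => s⁻¹ • w) ?_ ?_
        · intro w hw
          rw [Finset.mem_coe, Finset.mem_filter] at hw ⊢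
          refine ⟨h.inv j0 _ (inv_mem hsR) w hw.1, ?_⟩
          simp only [smul_inv_smul]
          exact hw.2
        · intro w _ w' _ he
          exact smul_left_cancel s⁻¹ he
      have hsub : B.filter (fun w => ¬ ρ j0 • w = ρ i • w) ⊆ Us B ρ i := by
        intro w hw
        rw [Finset.mem_filter] at hw
        rw [mem_Us]
        refine ⟨hw.1, hmove w hw.1, ?_⟩
        intro j hj
        by_cases hjj : j = j0
        · rw [hjj]; exact hw.2
        · exact hother w hw.1 j hj hjj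
      have h1 := Finset.card_le_card hsub
      have h2 := Finset.card_filter_add_card_filter_not (s := B)
        (fun w => ρ j0 • w = ρ i • w)
      omega
    · have hsub : B.filter (Ok R j0 (ρ j0)) ⊆ Us B ρ i := by
        intro w hw
        rw [Finset.mem_filter] at hw
        rw [mem_Us]
        refine ⟨hw.1, hmove w hw.1, ?_⟩
        intro j hj
        by_cases hjj : j = j0
        · rw [hjj]
          intro he
          exact hback (h.link_of hw.1 (hw.2.2 i (Ne.symm hj0) ⟨ρ i, hρ i, he.symm⟩))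
        · exact hother w hw.1 j hj hjj
      have h1 := Finset.card_le_card hsub
      have h2 := hgood j0
      omega
  · push Not at hl
    have hsub : B.filter (Ok R i (ρ i)) ⊆ Us B ρ i := by
      intro w hw
      rw [Finset.mem_filter] at hw
      rw [mem_Us]
      refine ⟨hw.1, hw.2.1, ?_⟩
      intro j hj he
      exact hl j hj (h.link_of hw.1 (hw.2.2 j hj ⟨ρ j, hρ j, he⟩))
    have h1 := Finset.card_le_card hsub
    have h2 := hgood i
    omega

/-! ### The number of factors -/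

open Classical in
/-- The orbit of `w0` under `PJ R J`. -/
noncomputable def Orb (R : ι → Subgroup Q) (B : Finset V) (J : Set ι) (w0 : V) : Finset V :=
  B.filter (fun x => ∃ a ∈ PJ R J, a • w0 = x)

theorem mem_Orb {J : Set ι} {w0 x : V} :
    x ∈ Orb R B J w0 ↔ x ∈ B ∧ ∃ a ∈ PJ R J, a • w0 = x := by
  classical
  unfold Orb
  rw [Finset.mem_filter]

theorem ChS.grow (h : ChS R B) {w0 : V} (hw0 : w0 ∈ B) (J : Finset ι) :
    (∀ i ∈ J, ¬ ∀ r ∈ R i, ∃ a ∈ PJ R ((J : Set ι) \ {i}), a • w0 = r • w0) →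
    2 ^ J.card ≤ (Orb R B (J : Set ι) w0).card := by
  classical
  induction J using Finset.induction_on with
  | empty =>
    intro _
    rw [Finset.card_empty, pow_zero, Nat.one_le_iff_ne_zero, ← Nat.pos_iff_ne_zero,
      Finset.card_pos]
    exact ⟨w0, mem_Orb.mpr ⟨hw0, 1, one_mem _, one_smul _ _⟩⟩
  | insert i J hi ih =>
    intro hind
    have h1 := ih (by
      intro j hj hcon
      apply hind j (Finset.mem_insert_of_mem hj)
      intro r hr
      obtain ⟨a, ha, har⟩ := hcon r hr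
      refine ⟨a, PJ_mono ?_ ha, har⟩
      intro k hk
      exact ⟨by simp [hk.1], hk.2⟩)
    have h2 := hind i (Finset.mem_insert_self i J)
    have hset : ((insert i J : Finset ι) : Set ι) \ {i} = (J : Set ι) := by
      ext k
      simp only [Finset.coe_insert, Set.mem_sdiff, Set.mem_insert_iff, Finset.mem_coe,
        Set.mem_singleton_iff]
      constructor
      · rintro ⟨hk | hk, hk'⟩
        · exact absurd hk hk'
        · exact hk
      · intro hk
        exact ⟨Or.inr hk, fun e => hi (e ▸ hk)⟩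
    rw [hset] at h2
    push Not at h2
    obtain ⟨r, hr, hr'⟩ := h2
    have hi' : i ∉ (J : Set ι) := by simpa using hi
    have hrI : r ∈ PJ R ((insert i J : Finset ι) : Set ι) := le_PJ (by simp) hr
    have hsub : Orb R B (J : Set ι) w0 ∪ (Orb R B (J : Set ι) w0).image (fun x => r • x) ⊆
        Orb R B ((insert i J : Finset ι) : Set ι) w0 := by
      intro x hx
      rw [Finset.mem_union, Finset.mem_image] at hx
      rcases hx with hx | ⟨y, hy, rfl⟩
      · rw [mem_Orb] at hx ⊢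
        obtain ⟨hxB, a, ha, rfl⟩ := hx
        exact ⟨hxB, a, PJ_mono (by simp) ha, rfl⟩
      · rw [mem_Orb] at hy ⊢
        obtain ⟨hyB, a, ha, rfl⟩ := hy
        refine ⟨h.inv i r hr _ hyB, r * a, mul_mem hrI (PJ_mono (by simp) ha), mul_smul _ _ _⟩
    have hdisj : Disjoint (Orb R B (J : Set ι) w0)
        ((Orb R B (J : Set ι) w0).image (fun x => r • x)) := by
      rw [Finset.disjoint_left]
      intro x hx hx'
      rw [Finset.mem_image] at hx'
      obtain ⟨y, hy, rfl⟩ := hx'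
      rw [mem_Orb] at hx hy
      obtain ⟨_, b, hb, hbx⟩ := hx
      obtain ⟨_, a, ha, rfl⟩ := hy
      apply hr' (a⁻¹ * b) (mul_mem (inv_mem ha) hb)
      rw [mul_smul, hbx, inv_smul_eq_iff, ← mul_smul, ← mul_smul, h.commP hi' a ha r hr]
    have hcard := Finset.card_le_card hsub
    rw [Finset.card_union_of_disjoint hdisj,
      Finset.card_image_of_injective _ (MulAction.injective r)] at hcard
    rw [Finset.card_insert_of_notMem hi, pow_succ]
    omega

theorem ChS.card_bound [Finite Q] [Finite ι] (h : ChS R B) (hne : B.Nonempty) :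
    2 ^ Nat.card ι ≤ B.card ^ 2 := by
  classical
  have := Fintype.ofFinite ι
  obtain ⟨w0, hw0⟩ := hne
  -- a minimal transitive family
  obtain ⟨I, hI, hmin⟩ := (Finset.isWellFounded_ssubset (α := ι)).wf.has_min
    {I : Finset ι | ∀ x ∈ B, ∃ a ∈ PJ R (I : Set ι), a • w0 = x} ⟨Finset.univ, by
      intro x hx
      obtain ⟨a, ha, rfl⟩ := h.trans w0 hw0 x hx
      refine ⟨a, ?_, rfl⟩
      rw [Finset.coe_univ]
      exact iSup_le_PJ ha⟩
  have hI' : ∀ x ∈ B, ∃ a ∈ PJ R (I : Set ι), a • w0 = x := hI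
  have g1 := h.grow hw0 I (by
    intro i hi hcon
    apply hmin (I.erase i) ?_ (Finset.erase_ssubset hi)
    intro x hx
    obtain ⟨p, hp, rfl⟩ := hI' x hx
    have hs : (I : Set ι) = insert i ((I.erase i : Finset ι) : Set ι) := by
      rw [← Finset.coe_insert, Finset.insert_erase hi]
    rw [hs] at hp
    obtain ⟨a, ha, r, hr, rfl⟩ := h.split (by simp) p hp
    obtain ⟨b, hb, hbr⟩ := hcon r hr
    refine ⟨a * b, mul_mem ha ?_, ?_⟩
    · rw [Finset.coe_erase]
      exact hb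
    · rw [mul_smul, hbr, mul_smul])
  have g2 := h.grow hw0 Iᶜ (by
    intro i hi hcon
    have hiI : i ∉ (I : Set ι) := by simpa using hi
    obtain ⟨r, hr, s, hs, hrs⟩ := h.nab i
    apply hrs
    have hdis : ∀ k ∈ (I : Set ι), k ∉ (((Iᶜ : Finset ι) : Set ι)) := by
      intro k hk
      simpa using hk
    -- r acts on B like some p commuting with R i
    obtain ⟨p, hp, hpr⟩ := hcon r hr
    have hpJ : p ∈ PJ R ((Iᶜ : Finset ι) : Set ι) := PJ_mono Set.sdiff_subset hp
    have hrJ : r ∈ PJ R ((Iᶜ : Finset ι) : Set ι) := le_PJ (by simpa using hi) hr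
    have hact : ∀ w ∈ B, r • w = p • w := by
      intro w hw
      obtain ⟨a, ha, rfl⟩ := hI' w hw
      rw [← mul_smul, ← mul_smul, ← h.commPP hdis a ha r hrJ, ← h.commPP hdis a ha p hpJ,
        mul_smul, mul_smul, hpr]
    have hps : p * s = s * p := h.commP (by simp) p hp s hs
    have h1 : (s * r)⁻¹ * (r * s) = 1 := by
      refine h.faithful (i := i) (mul_mem (inv_mem (mul_mem hs hr)) (mul_mem hr hs)) ?_
      intro w hw
      rw [mul_smul, inv_smul_eq_iff, mul_smul, mul_smul, hact _ (h.inv i s hs w hw),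
        hact w hw, ← mul_smul, hps, mul_smul]
    rw [inv_mul_eq_one] at h1
    exact h1.symm)
  have o1 : (Orb R B (I : Set ι) w0).card ≤ B.card :=
    Finset.card_le_card (fun x hx => (mem_Orb.mp hx).1)
  have o2 : (Orb R B ((Iᶜ : Finset ι) : Set ι) w0).card ≤ B.card :=
    Finset.card_le_card (fun x hx => (mem_Orb.mp hx).1)
  have hcard : Nat.card ι = I.card + (Iᶜ).card := by
    rw [Nat.card_eq_fintype_card, Finset.card_compl]
    have := Finset.card_le_univ I
    omega
  rw [hcard, pow_add, sq]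
  exact Nat.mul_le_mul (g1.trans o1) (g2.trans o2)

theorem ch_num {s b : ℕ} (h : 2 ^ s ≤ b ^ 2) (hb : 65000 < b) : 12 * s ^ 2 + 18 < b := by
  rcases Nat.lt_or_ge s 32 with hs | hs
  · have : s ^ 2 ≤ 31 ^ 2 := Nat.pow_le_pow_left (by omega) 2
    omega
  · have key : ∀ t : ℕ, (12 * (32 + t) ^ 2 + 18) ^ 2 < 2 ^ (32 + t) := by
      intro t
      induction t with
      | zero => norm_num
      | succ t ih =>
        have e : 2 ^ (32 + (t + 1)) = 2 * 2 ^ (32 + t) := by ring
        rw [e]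
        refine lt_of_le_of_lt ?_ (Nat.mul_lt_mul_of_pos_left ih (by norm_num))
        nlinarith [Nat.zero_le t, Nat.zero_le (t ^ 2), Nat.zero_le (t ^ 3), Nat.zero_le (t ^ 4)]
    obtain ⟨t, rfl⟩ := Nat.exists_eq_add_of_le hs
    have := (key t).trans_le h
    exact lt_of_pow_lt_pow_left₀ 2 (Nat.zero_le _) this

/-! ### The chain -/

theorem exists_chain [Finite Q] [Finite ι] (R : ι → Subgroup Q) (B : Finset V)
    (hne : B.Nonempty)
    (hcomm : ∀ i j, i ≠ j → ∀ x ∈ R i, ∀ y ∈ R j, x * y = y * x)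
    (hsimple : ∀ i, IsSimpleGroup (R i))
    (hnab : ∀ i, ∃ a ∈ R i, ∃ b ∈ R i, a * b ≠ b * a)
    (hinv : ∀ i, ∀ r ∈ R i, ∀ w ∈ B, r • w ∈ B)
    (htrans : ∀ w ∈ B, ∀ w' ∈ B, ∃ a ∈ ⨆ i, R i, a • w = w')
    (hact : ∀ i, ∃ r ∈ R i, ∃ w ∈ B, r • w ≠ w)
    (hB : 65000 < B.card) (ρ : ι → Q) (hρ : ∀ i, ρ i ∈ R i)
    (hgood : ∀ i, 2 * B.card ≤ 3 * {w | w ∈ B ∧ Ok R i (ρ i) w}.ncard) :
    ∃ (s : ℕ) (e : ℕ → ι) (ω : V) (θ : ℕ → V),
      0 < s ∧ (∀ i, ∃ k < s, e k = i) ∧ (∀ h < s, ∀ k < s, e h = e k → h = k) ∧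
      ω ∈ B ∧ ρ (e 0) • ω ≠ ω ∧ (∀ j, j ≠ e 0 → ρ j • ω ≠ ρ (e 0) • ω) ∧
      (∀ k, k + 1 < s → θ k ∈ B ∧
        (∀ j, j ≠ e k → ρ j • θ k ≠ ρ (e k) • θ k) ∧
        (∀ j, j ≠ e (k + 1) → ρ j • θ k ≠ ρ (e (k + 1)) • θ k) ∧
        θ k ≠ ω ∧ θ k ≠ ρ (e 0) • ω ∧
        ρ (e k) • θ k ≠ ω ∧ ρ (e k) • θ k ≠ ρ (e 0) • ω ∧
        ρ (e (k + 1)) • θ k ≠ ω ∧ ρ (e (k + 1)) • θ k ≠ ρ (e 0) • ω) ∧
      (∀ h k, h + 1 < s → k + 1 < s → h ≠ k → ∀ j,
        ρ j • θ k ≠ ρ (e h) • θ h ∧ ρ j • θ k ≠ ρ (e (h + 1)) • θ h) := by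
  classical
  have hS : ChS R B := ⟨hcomm, hsimple, hnab, hinv, htrans, hact⟩
  have hU := fun i => hS.Us_card hne hρ hgood i
  have hnum := ch_num (hS.card_bound hne) hB
  have := Fintype.ofFinite ι
  -- ι is nonempty
  have hιne : Nonempty ι := by
    by_contra hcon
    rw [not_nonempty_iff] at hcon
    obtain ⟨w, hw, w', hw', hww⟩ := Finset.one_lt_card.mp (show 1 < B.card by omega)
    obtain ⟨a, ha, haw⟩ := htrans w hw w' hw'
    rw [iSup_of_empty, Subgroup.mem_bot] at ha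
    rw [ha, one_smul] at haw
    exact hww haw
  set s := Nat.card ι with hs
  have hs0 : 0 < s := Nat.card_pos
  let eq := Finite.equivFin ι
  let e : ℕ → ι := fun k => if hk : k < s then eq.symm ⟨k, hk⟩ else eq.symm ⟨0, hs0⟩
  have he : ∀ k (hk : k < s), e k = eq.symm ⟨k, hk⟩ := fun k hk => dif_pos hk
  have hsurj : ∀ i, ∃ k < s, e k = i := by
    intro i
    refine ⟨(eq i).1, (eq i).2, ?_⟩
    rw [he _ (eq i).2]
    simp
  have hinj : ∀ h < s, ∀ k < s, e h = e k → h = k := by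
    intro h hh k hk hek
    rw [he h hh, he k hk] at hek
    have := eq.symm.injective hek
    simpa using this
  obtain ⟨ω, hω⟩ : (Us B ρ (e 0)).Nonempty := by
    rw [← Finset.card_pos]
    have := hU (e 0)
    omega
  rw [mem_Us] at hω
  -- the bad points
  let n' := s
  have step : ∀ n, n + 1 ≤ s → ∃ θ : ℕ → V,
      (∀ k < n, θ k ∈ Us B ρ (e k) ∧ θ k ∈ Us B ρ (e (k + 1)) ∧
        θ k ≠ ω ∧ θ k ≠ ρ (e 0) • ω ∧
        ρ (e k) • θ k ≠ ω ∧ ρ (e k) • θ k ≠ ρ (e 0) • ω ∧
        ρ (e (k + 1)) • θ k ≠ ω ∧ ρ (e (k + 1)) • θ k ≠ ρ (e 0) • ω) ∧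
      (∀ h < n, ∀ k < n, h ≠ k → ∀ j,
        ρ j • θ k ≠ ρ (e h) • θ h ∧ ρ j • θ k ≠ ρ (e (h + 1)) • θ h) := by
    intro n
    induction n with
    | zero =>
      intro _
      exact ⟨fun _ => ω, fun k hk => absurd hk (by omega), fun h hh => absurd hh (by omega)⟩
    | succ n ih =>
      intro hn
      obtain ⟨θ, h1, h2⟩ := ih (by omega)
      let P : Finset (ι × ℕ) := Finset.univ ×ˢ Finset.range n
      let b1 : Finset V := P.image (fun p => (ρ p.1)⁻¹ • ρ (e p.2) • θ p.2)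
      let b2 : Finset V := P.image (fun p => (ρ p.1)⁻¹ • ρ (e (p.2 + 1)) • θ p.2)
      let b3 : Finset V := P.image (fun p => (ρ (e n))⁻¹ • ρ p.1 • θ p.2)
      let b4 : Finset V := P.image (fun p => (ρ (e (n + 1)))⁻¹ • ρ p.1 • θ p.2)
      let b5 : Finset V := {ω, ρ (e 0) • ω, (ρ (e n))⁻¹ • ω, (ρ (e n))⁻¹ • ρ (e 0) • ω,
        (ρ (e (n + 1)))⁻¹ • ω, (ρ (e (n + 1)))⁻¹ • ρ (e 0) • ω}
      have hP : P.card ≤ s * s := by
        rw [Finset.card_product, Finset.card_univ, Finset.card_range,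
          ← Nat.card_eq_fintype_card]
        exact Nat.mul_le_mul_left _ (by omega)
      have hb1 : b1.card ≤ s * s := Finset.card_image_le.trans hP
      have hb2 : b2.card ≤ s * s := Finset.card_image_le.trans hP
      have hb3 : b3.card ≤ s * s := Finset.card_image_le.trans hP
      have hb4 : b4.card ≤ s * s := Finset.card_image_le.trans hP
      have hb5 : b5.card ≤ 6 := Finset.card_le_six
      have hbad : (b1 ∪ b2 ∪ b3 ∪ b4 ∪ b5).card ≤ 4 * (s * s) + 6 := by
        have c1 := Finset.card_union_le (b1 ∪ b2 ∪ b3 ∪ b4) b5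
        have c2 := Finset.card_union_le (b1 ∪ b2 ∪ b3) b4
        have c3 := Finset.card_union_le (b1 ∪ b2) b3
        have c4 := Finset.card_union_le b1 b2
        omega
      have hUU : B.card ≤ 3 * (Us B ρ (e n) ∩ Us B ρ (e (n + 1))).card := by
        have c1 := Finset.card_union_add_card_inter (Us B ρ (e n)) (Us B ρ (e (n + 1)))
        have c2 : (Us B ρ (e n) ∪ Us B ρ (e (n + 1))).card ≤ B.card := by
          apply Finset.card_le_card
          intro x hx
          rw [Finset.mem_union, mem_Us, mem_Us] at hx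
          rcases hx with hx | hx
          · exact hx.1
          · exact hx.1
        have c3 := hU (e n)
        have c4 := hU (e (n + 1))
        omega
      obtain ⟨x, hx⟩ : ((Us B ρ (e n) ∩ Us B ρ (e (n + 1))) \
          (b1 ∪ b2 ∪ b3 ∪ b4 ∪ b5)).Nonempty := by
        rw [← Finset.card_pos]
        have c1 := Finset.le_card_sdiff (b1 ∪ b2 ∪ b3 ∪ b4 ∪ b5)
          (Us B ρ (e n) ∩ Us B ρ (e (n + 1)))
        have c2 : s ^ 2 = s * s := sq s
        omega
      rw [Finset.mem_sdiff, Finset.mem_inter] at hx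
      obtain ⟨⟨hx1, hx2⟩, hxb⟩ := hx
      simp only [Finset.mem_union, not_or] at hxb
      obtain ⟨⟨⟨⟨hx3, hx4⟩, hx5⟩, hx6⟩, hx7⟩ := hxb
      have hn1 : ∀ k < n, ∀ j, ρ j • x ≠ ρ (e k) • θ k := by
        intro k hk j hjx
        apply hx3
        rw [Finset.mem_image]
        refine ⟨(j, k), by simp [P, hk], ?_⟩
        rw [inv_smul_eq_iff]
        exact hjx.symm
      have hn2 : ∀ k < n, ∀ j, ρ j • x ≠ ρ (e (k + 1)) • θ k := by
        intro k hk j hjx
        apply hx4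
        rw [Finset.mem_image]
        refine ⟨(j, k), by simp [P, hk], ?_⟩
        rw [inv_smul_eq_iff]
        exact hjx.symm
      have hn3 : ∀ k < n, ∀ j, ρ j • θ k ≠ ρ (e n) • x := by
        intro k hk j hjx
        apply hx5
        rw [Finset.mem_image]
        refine ⟨(j, k), by simp [P, hk], ?_⟩
        rw [inv_smul_eq_iff]
        exact hjx
      have hn4 : ∀ k < n, ∀ j, ρ j • θ k ≠ ρ (e (n + 1)) • x := by
        intro k hk j hjx
        apply hx6
        rw [Finset.mem_image]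
        refine ⟨(j, k), by simp [P, hk], ?_⟩
        rw [inv_smul_eq_iff]
        exact hjx
      simp only [b5, Finset.mem_insert, Finset.mem_singleton, not_or] at hx7
      obtain ⟨y1, y2, y3, y4, y5, y6⟩ := hx7
      refine ⟨Function.update θ n x, ?_, ?_⟩
      · intro k hk
        rcases Nat.lt_succ_iff_lt_or_eq.mp hk with hk' | rfl
        · rw [Function.update_of_ne (by omega)]
          exact h1 k hk'
        · rw [Function.update_self]
          refine ⟨hx1, hx2, y1, y2, ?_, ?_, ?_, ?_⟩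
          · intro hh; exact y3 (by rw [eq_inv_smul_iff]; exact hh)
          · intro hh; exact y4 (by rw [eq_inv_smul_iff]; exact hh)
          · intro hh; exact y5 (by rw [eq_inv_smul_iff]; exact hh)
          · intro hh; exact y6 (by rw [eq_inv_smul_iff]; exact hh)
      · intro h hh k hk hhk j
        rcases Nat.lt_succ_iff_lt_or_eq.mp hk with hk' | rfl
        · rw [Function.update_of_ne (show k ≠ n by omega)]
          rcases Nat.lt_succ_iff_lt_or_eq.mp hh with hh' | rfl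
          · rw [Function.update_of_ne (show h ≠ n by omega)]
            exact h2 h hh' k hk' hhk j
          · rw [Function.update_self]
            exact ⟨hn3 k hk' j, hn4 k hk' j⟩
        · rw [Function.update_self]
          have hh' : h < k := by omega
          rw [Function.update_of_ne (show h ≠ k by omega)]
          exact ⟨hn1 h hh' j, hn2 h hh' j⟩
  obtain ⟨θ, h1, h2⟩ := step (s - 1) (by omega)
  refine ⟨s, e, ω, θ, hs0, hsurj, hinj, hω.1, hω.2.1, hω.2.2, ?_, ?_⟩
  · intro k hk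
    obtain ⟨a1, a2, a3⟩ := h1 k (by omega)
    rw [mem_Us] at a1 a2
    exact ⟨a1.1, a1.2.2, a2.2.2, a3⟩
  · intro h k hh hk hhk j
    exact h2 h (by omega) k (by omega) hhk j

end

end Pool.Agent.H68.WLN
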