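import Pool.Agent.H68.N.Defs

set_option autoImplicit false

/-!
# Elements covering all nonabelian socle factors of all quotients (module W1 of MP_7346c2_lc)
-/

namespace Pool.Agent.H68.WLN

open Pool.Agent.H68.WL

section Adjust

variable {G : Type} [Group G]

theorem cj_one (T : Subgroup G) : cj 1 T = T := by
  ext x; rw [mem_cj]; simp

theorem cj_mul (g h : G) (T : Subgroup G) : cj (g * h) T = cj g (cj h T) := by
  ext x; rw [mem_cj, mem_cj, mem_cj]; simp [mul_assoc]

theorem conj_pow_succ (y z : G) (a : ℕ) :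
    y ^ (a + 1) * z * (y ^ (a + 1))⁻¹ = y * (y ^ a * z * (y ^ a)⁻¹) * y⁻¹ := by
  rw [pow_succ']; group

/-- conjugation by `g` as an automorphism of a subgroup that it normalises -/
def cjAut (g : G) {T : Subgroup G} (h : cj g T = T) : MulAut T where
  toFun z := ⟨g * z * g⁻¹, by
    have := cj_mem (g := g) z.2
    rwa [h] at this⟩
  invFun z := ⟨g⁻¹ * z * g, by
    have h1 : (z : G) ∈ cj g T := by rw [h]; exact z.2
    exact mem_cj.1 h1⟩
  left_inv z := Subtype.ext (by simp [mul_assoc])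
  right_inv z := Subtype.ext (by simp [mul_assoc])
  map_mul' z w := Subtype.ext (by simp [mul_assoc])

theorem cjAut_apply (g : G) {T : Subgroup G} (h : cj g T = T) (z : T) :
    ((cjAut g h z : T) : G) = g * z * g⁻¹ := rfl

theorem act_exists [Finite G] {M : Subgroup G} (s : Subgroup G → G)
    (hs : ∀ R, IsMinNormalIn M R → s R ∈ R) :
    ∃ m ∈ M, ∀ R, IsMinNormalIn M R → ∀ z ∈ R, m * z * m⁻¹ = s R * z * (s R)⁻¹ := by
  classical
  have key : ∀ S : Finset (Subgroup G), (∀ R ∈ S, IsMinNormalIn M R) →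
      ∃ m ∈ M, (∀ R ∈ S, ∀ z ∈ R, m * z * m⁻¹ = s R * z * (s R)⁻¹) ∧
        ∀ R, IsMinNormalIn M R → R ∉ S → ∀ z ∈ R, m * z * m⁻¹ = z := by
    intro S
    induction S using Finset.induction_on with
    | empty =>
      intro _
      exact ⟨1, M.one_mem, fun R hR => absurd hR (Finset.notMem_empty R),
        fun R _ _ z _ => by simp⟩
    | insert R0 S hR0 ih =>
      intro hS
      obtain ⟨m, hmM, hm1, hm2⟩ := ih fun R hR => hS R (Finset.mem_insert_of_mem hR)
      have hR0f := hS R0 (Finset.mem_insert_self _ _)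
      have hs0 := hs R0 hR0f
      have hcomm : ∀ R, IsMinNormalIn M R → R ≠ R0 → ∀ z ∈ R, s R0 * z * (s R0)⁻¹ = z := by
        intro R hR hne z hz
        rw [hR0f.commute hR (Ne.symm hne) _ hs0 z hz]
        simp
      refine ⟨s R0 * m, M.mul_mem (hR0f.1 hs0) hmM, ?_, ?_⟩
      · intro R hR z hz
        have h1 : s R0 * m * z * (s R0 * m)⁻¹ = s R0 * (m * z * m⁻¹) * (s R0)⁻¹ := by group
        rw [h1]
        rcases Finset.mem_insert.1 hR with h2 | h2
        · subst h2
          rw [hm2 R hR0f hR0 z hz]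
        · have hRf := hS R hR
          have hne : R ≠ R0 := by rintro rfl; exact hR0 h2
          rw [hm1 R h2 z hz]
          exact hcomm R hRf hne _ (hRf.2.2.1 _ (hRf.1 (hs R hRf)) _ hz)
      · intro R hR hRS z hz
        rw [Finset.mem_insert, not_or] at hRS
        have h1 : s R0 * m * z * (s R0 * m)⁻¹ = s R0 * (m * z * m⁻¹) * (s R0)⁻¹ := by group
        rw [h1, hm2 R hR hRS.2 z hz]
        exact hcomm R hR hRS.1 z hz
  have hfin : {R : Subgroup G | IsMinNormalIn M R}.Finite := Set.toFinite _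
  obtain ⟨m, hmM, hm, _⟩ := key hfin.toFinset (fun R hR => by simpa using hR)
  exact ⟨m, hmM, fun R hR => hm R (by simpa using hR)⟩

theorem adjust [Finite G] {D : ℕ} {M : Subgroup G} (hM : IsMinNormal M)
    (hL : ∀ R : Subgroup G, IsMinNormalIn M R → LiftGen D R) (x : Fin D → G) :
    ∃ m : Fin D → G, (∀ i, m i ∈ M) ∧ ∀ R : Subgroup G, IsMinNormalIn M R → ∀ ρ ∈ R,
      ∃ h ∈ Subgroup.closure (Set.range fun i => m i * x i),
        ∀ z ∈ R, h * z * h⁻¹ = ρ * z * ρ⁻¹ := by
  classical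
  let X := Subgroup.closure (Set.range x)
  let st : Setoid {R : Subgroup G // IsMinNormalIn M R} :=
    { r := fun R R' => ∃ g ∈ X, cj g R.1 = R'.1
      iseqv :=
        { refl := fun R => ⟨1, X.one_mem, cj_one _⟩
          symm := by
            rintro R R' ⟨g, hg, h⟩
            exact ⟨g⁻¹, X.inv_mem hg, by rw [← h, cj_inv_cj]⟩
          trans := by
            rintro R R' R'' ⟨g, hg, h⟩ ⟨g', hg', h'⟩
            exact ⟨g' * g, X.mul_mem hg' hg, by rw [cj_mul, h, h']⟩ } }
  let rep : {R : Subgroup G // IsMinNormalIn M R} → {R : Subgroup G // IsMinNormalIn M R} :=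
    fun R => (Quotient.mk st R).out
  have hrep : ∀ R, ∃ g ∈ X, cj g (rep R).1 = R.1 := fun R => Quotient.mk_out (s := st) R
  have hrep_eq : ∀ R R' : {R : Subgroup G // IsMinNormalIn M R},
      (∃ g ∈ X, cj g R.1 = R'.1) → rep R = rep R' := by
    intro R R' h
    have : Quotient.mk st R = Quotient.mk st R' := Quotient.sound h
    simp only [rep, this]
  have hrep_rep : ∀ R, rep (rep R) = rep R := fun R => hrep_eq _ _ (hrep R)
  have hl : ∀ (R : {R : Subgroup G // IsMinNormalIn M R}) (i : Fin D),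
      ∃ l, 0 < l ∧ cj (x i ^ l) R.1 = R.1 := fun R i =>
    ⟨orderOf (x i), orderOf_pos (x i), by rw [pow_orderOf_eq_one, cj_one]⟩
  have hs : ∀ R : {R : Subgroup G // IsMinNormalIn M R}, ∃ s : Fin D → R.1, ∀ t : R.1,
      MulAut.conj t ∈ Subgroup.closure (Set.range fun i =>
        MulAut.conj (s i) * cjAut (x i ^ Nat.find (hl R i)) (Nat.find_spec (hl R i)).2) :=
    fun R => hL R.1 R.2 _
  choose s hs using hs
  let S : Fin D → Subgroup G → G := fun i R =>
    if h : IsMinNormalIn M R then (if rep ⟨R, h⟩ = ⟨R, h⟩ then (s ⟨R, h⟩ i : G) else 1) else 1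
  have hS : ∀ i R, IsMinNormalIn M R → S i R ∈ R := by
    intro i R hR
    simp only [S, dif_pos hR]
    split_ifs
    · exact (s ⟨R, hR⟩ i).2
    · exact R.one_mem
  have hm : ∀ i, ∃ m ∈ M, ∀ R, IsMinNormalIn M R → ∀ z ∈ R,
      m * z * m⁻¹ = S i R * z * (S i R)⁻¹ := fun i => act_exists (S i) (hS i)
  choose m hmM hm using hm
  refine ⟨m, hmM, ?_⟩
  have hm1 : ∀ i (R : {R : Subgroup G // IsMinNormalIn M R}), rep R = R → ∀ z ∈ R.1,
      m i * z * (m i)⁻¹ = s R i * z * (s R i : G)⁻¹ := by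
    intro i R hR z hz
    rw [hm i R.1 R.2 z hz]
    simp only [S, dif_pos R.2]
    rw [if_pos (by exact hR)]
  have hm2 : ∀ i (R : {R : Subgroup G // IsMinNormalIn M R}), rep R ≠ R → ∀ z ∈ R.1,
      m i * z * (m i)⁻¹ = z := by
    intro i R hR z hz
    rw [hm i R.1 R.2 z hz]
    simp only [S, dif_pos R.2]
    rw [if_neg (by exact hR)]
    simp
  -- powers
  have hpow : ∀ i (R : {R : Subgroup G // IsMinNormalIn M R}), rep R = R →
      ∀ a, a < Nat.find (hl R i) → ∀ z ∈ R.1,
        (m i * x i) ^ a * z * ((m i * x i) ^ a)⁻¹ = x i ^ a * z * (x i ^ a)⁻¹ := by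
    intro i R hR a
    induction a with
    | zero => intro _ z _; simp
    | succ a ih =>
      intro ha z hz
      have h1 : (m i * x i) ^ (a + 1) * z * ((m i * x i) ^ (a + 1))⁻¹ =
          m i * x i * ((m i * x i) ^ a * z * ((m i * x i) ^ a)⁻¹) * (m i * x i)⁻¹ :=
        conj_pow_succ _ _ _
      have h2 : m i * x i * (x i ^ a * z * (x i ^ a)⁻¹) * (m i * x i)⁻¹ =
          m i * (x i ^ (a + 1) * z * (x i ^ (a + 1))⁻¹) * (m i)⁻¹ := by
        rw [pow_succ']; group
      rw [h1, ih (by omega) z hz, h2]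
      have hR1 : IsMinNormalIn M (cj (x i ^ (a + 1)) R.1) := R.2.cj hM.2.1 _
      apply hm2 i ⟨_, hR1⟩ _ _ (cj_mem hz)
      intro hcon
      have h3 : rep R = rep ⟨_, hR1⟩ := hrep_eq _ _
        ⟨x i ^ (a + 1), X.pow_mem (Subgroup.subset_closure ⟨i, rfl⟩) _, rfl⟩
      rw [hR, hcon] at h3
      have h4 := congrArg Subtype.val h3
      exact Nat.find_min (hl R i) ha ⟨Nat.succ_pos _, h4.symm⟩
  have hlast : ∀ i (R : {R : Subgroup G // IsMinNormalIn M R}), rep R = R → ∀ z ∈ R.1,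
      (m i * x i) ^ Nat.find (hl R i) * z * ((m i * x i) ^ Nat.find (hl R i))⁻¹ =
        s R i * (x i ^ Nat.find (hl R i) * z * (x i ^ Nat.find (hl R i))⁻¹) *
          (s R i : G)⁻¹ := by
    intro i R hR z hz
    obtain ⟨hpos, hcj⟩ := Nat.find_spec (hl R i)
    obtain ⟨a, ha⟩ : ∃ a, Nat.find (hl R i) = a + 1 := ⟨Nat.find (hl R i) - 1, by omega⟩
    have hp := hpow i R hR a (by omega) z hz
    rw [ha] at hcj ⊢
    have h1 : (m i * x i) ^ (a + 1) * z * ((m i * x i) ^ (a + 1))⁻¹ =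
        m i * x i * ((m i * x i) ^ a * z * ((m i * x i) ^ a)⁻¹) * (m i * x i)⁻¹ :=
      conj_pow_succ _ _ _
    have h2 : m i * x i * (x i ^ a * z * (x i ^ a)⁻¹) * (m i * x i)⁻¹ =
        m i * (x i ^ (a + 1) * z * (x i ^ (a + 1))⁻¹) * (m i)⁻¹ := by
      rw [pow_succ']; group
    rw [h1, hp, h2]
    apply hm1 i R hR
    have h3 := cj_mem (g := x i ^ (a + 1)) hz
    rwa [hcj] at h3
  set Y := Subgroup.closure (Set.range fun i => m i * x i) with hY
  -- representatives
  have hreps : ∀ R : {R : Subgroup G // IsMinNormalIn M R}, rep R = R → ∀ ρ ∈ R.1,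
      ∃ h ∈ Y, ∀ z ∈ R.1, h * z * h⁻¹ = ρ * z * ρ⁻¹ := by
    intro R hR ρ hρ
    have key : ∀ g ∈ Subgroup.closure (Set.range fun i =>
        MulAut.conj (s R i) * cjAut (x i ^ Nat.find (hl R i)) (Nat.find_spec (hl R i)).2),
        ∃ h ∈ Y, ∀ z : R.1, ((g z : R.1) : G) = h * z * h⁻¹ := by
      intro g hg
      induction hg using Subgroup.closure_induction with
      | mem g hg =>
        obtain ⟨i, rfl⟩ := hg
        refine ⟨(m i * x i) ^ Nat.find (hl R i),
          Y.pow_mem (Subgroup.subset_closure ⟨i, rfl⟩) _, fun z => ?_⟩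
        rw [hlast i R hR z z.2]
        simp [cjAut_apply, mul_assoc]
      | one => exact ⟨1, Y.one_mem, fun z => by simp⟩
      | mul g g' _ _ h1 h2 =>
        obtain ⟨h, hh, hz⟩ := h1
        obtain ⟨h', hh', hz'⟩ := h2
        refine ⟨h * h', Y.mul_mem hh hh', fun z => ?_⟩
        rw [MulAut.mul_apply, hz, hz']
        group
      | inv g _ h1 =>
        obtain ⟨h, hh, hz⟩ := h1
        refine ⟨h⁻¹, Y.inv_mem hh, fun z => ?_⟩
        have h2 := hz (g⁻¹ z)
        have h3 : g (g⁻¹ z) = z := MulAut.apply_inv_self _ g z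
        rw [h3] at h2
        rw [h2]
        group
    obtain ⟨h, hh, hz⟩ := key _ (hs R ⟨ρ, hρ⟩)
    refine ⟨h, hh, fun z hzR => ?_⟩
    have := hz ⟨z, hzR⟩
    rw [← this]
    simp
  -- moving factors by elements of `Y`
  have hmove : ∀ g ∈ X, ∃ h ∈ Y, ∀ R : Subgroup G, IsMinNormalIn M R → cj h R = cj g R := by
    intro g hg
    have hnorm : ∀ i (R : Subgroup G), IsMinNormalIn M R → cj (m i) R = R := by
      intro i R hR
      apply le_antisymm
      · intro z hz
        rw [mem_cj] at hz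
        have h1 := hR.2.2.1 (m i) (hmM i) _ hz
        have h2 : m i * ((m i)⁻¹ * z * m i) * (m i)⁻¹ = z := by group
        rwa [h2] at h1
      · intro z hz
        rw [mem_cj]
        have h1 := hR.2.2.1 (m i)⁻¹ (M.inv_mem (hmM i)) z hz
        simpa using h1
    induction hg using Subgroup.closure_induction with
    | mem g hg =>
      obtain ⟨i, rfl⟩ := hg
      refine ⟨m i * x i, Subgroup.subset_closure ⟨i, rfl⟩, fun R hR => ?_⟩
      rw [cj_mul, hnorm i _ (hR.cj hM.2.1 _)]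
    | one => exact ⟨1, Y.one_mem, fun R _ => rfl⟩
    | mul g g' _ _ h1 h2 =>
      obtain ⟨h, hh, hz⟩ := h1
      obtain ⟨h', hh', hz'⟩ := h2
      refine ⟨h * h', Y.mul_mem hh hh', fun R hR => ?_⟩
      rw [cj_mul, cj_mul, hz' R hR, hz _ (hR.cj hM.2.1 _)]
    | inv g _ h1 =>
      obtain ⟨h, hh, hz⟩ := h1
      refine ⟨h⁻¹, Y.inv_mem hh, fun R hR => ?_⟩
      have h2 := hz _ (hR.cj hM.2.1 g⁻¹)
      rw [cj_cj_inv] at h2
      rw [← cj_inv_cj h (cj g⁻¹ R), h2]
  intro R hR ρ hρ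
  obtain ⟨g, hg, hgR⟩ := hrep ⟨R, hR⟩
  obtain ⟨h, hh, hhR⟩ := hmove g hg
  have h1 : cj h (rep ⟨R, hR⟩).1 = R := by
    rw [hhR _ (rep ⟨R, hR⟩).2, hgR]
  have h2 : ∀ z ∈ R, h⁻¹ * z * h ∈ (rep ⟨R, hR⟩).1 := by
    intro z hz
    rw [← h1, mem_cj] at hz
    exact hz
  obtain ⟨k, hk, hkz⟩ := hreps _ (hrep_rep ⟨R, hR⟩) _ (h2 ρ hρ)
  refine ⟨h * k * h⁻¹, Y.mul_mem (Y.mul_mem hh hk) (Y.inv_mem hh), fun z hz => ?_⟩
  have h3 := hkz _ (h2 z hz)
  have h4 : h * k * h⁻¹ * z * (h * k * h⁻¹)⁻¹ = h * (k * (h⁻¹ * z * h) * k⁻¹) * h⁻¹ := by group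
  rw [h4, h3]
  group

/-- if one factor of a minimal normal subgroup is nonabelian then so are all of them -/
theorem factor_nonab {M R R' : Subgroup G} (hM : IsMinNormal M) (hR : IsMinNormalIn M R)
    (hR' : IsMinNormalIn M R') (hn : ∃ a ∈ R, ∃ b ∈ R, a * b ≠ b * a) :
    ∃ a ∈ R', ∃ b ∈ R', a * b ≠ b * a := by
  have hcl : Subgroup.normalClosure (R : Set G) = M := by
    apply hM.2.2 _ inferInstance
    · exact @Subgroup.normalClosure_le_normal G _ (R : Set G) M hM.2.1 hR.1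
    · intro hb
      apply hR.2.1
      rw [eq_bot_iff, ← hb]
      exact Subgroup.le_normalClosure
  by_cases hc : ∃ g, cj g R = R'
  · obtain ⟨g, rfl⟩ := hc
    obtain ⟨a, ha, b, hb, hab⟩ := hn
    refine ⟨_, cj_mem (g := g) ha, _, cj_mem (g := g) hb, fun h => hab ?_⟩
    have h1 : g * (a * b) * g⁻¹ = g * (b * a) * g⁻¹ := by
      calc g * (a * b) * g⁻¹ = g * a * g⁻¹ * (g * b * g⁻¹) := by group
        _ = g * b * g⁻¹ * (g * a * g⁻¹) := h
        _ = g * (b * a) * g⁻¹ := by group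
    simpa using h1
  · exfalso
    push Not at hc
    have := hM.2.1
    have h1 : ∀ t ∈ R', M ≤ Subgroup.centralizer ({t} : Set G) := by
      intro t ht
      rw [← hcl, Subgroup.normalClosure, Subgroup.closure_le]
      intro y hy
      rw [Group.mem_conjugatesOfSet_iff] at hy
      obtain ⟨u, hu, hc'⟩ := hy
      rw [isConj_iff] at hc'
      obtain ⟨g, rfl⟩ := hc'
      have h2 := (hR.cj hM.2.1 g).commute hR' (hc g) _ (cj_mem hu) t ht
      show _ ∈ Subgroup.centralizer ({t} : Set G)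
      rw [Subgroup.mem_centralizer_singleton_iff]
      exact h2
    have h2 : M ⊓ Subgroup.centralizer (M : Set G) = M := by
      apply hM.2.2 _ inferInstance inf_le_left
      intro hb
      apply hR'.2.1
      rw [eq_bot_iff, ← hb]
      intro t ht
      refine ⟨hR'.1 ht, ?_⟩
      refine Subgroup.mem_centralizer_iff.2 fun y hy => ?_
      have := h1 t ht hy
      rw [Subgroup.mem_centralizer_singleton_iff] at this
      exact this
    obtain ⟨a, ha, b, hb, hab⟩ := hn
    have ha' : a ∈ M ⊓ Subgroup.centralizer (M : Set G) := by rw [h2]; exact hR.1 ha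
    exact hab ((Subgroup.mem_centralizer_iff.1 ha'.2 b (hR.1 hb)).symm)

end Adjust

section Maps

variable {G Q : Type} [Group G] [Group Q]

theorem inj_of_inf {M : Subgroup G} {φ : G →* Q} (hi : M ⊓ φ.ker = ⊥) {a b : G} (ha : a ∈ M)
    (hb : b ∈ M) (h : φ a = φ b) : a = b := by
  have h1 : a * b⁻¹ ∈ M ⊓ φ.ker := by
    refine Subgroup.mem_inf.2 ⟨M.mul_mem ha (M.inv_mem hb), ?_⟩
    rw [MonoidHom.mem_ker, map_mul, map_inv, h, mul_inv_cancel]
  rw [hi, Subgroup.mem_bot] at h1
  exact mul_inv_eq_one.1 h1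

theorem map_ne_bot {M S : Subgroup G} {φ : G →* Q} (hi : M ⊓ φ.ker = ⊥) (hS : S ≤ M)
    (hne : S ≠ ⊥) : S.map φ ≠ ⊥ := by
  intro hb
  apply hne
  rw [eq_bot_iff]
  intro s hs
  have h1 : φ s ∈ S.map φ := Subgroup.mem_map_of_mem φ hs
  rw [hb, Subgroup.mem_bot] at h1
  rw [Subgroup.mem_bot]
  exact inj_of_inf hi (hS hs) M.one_mem (by rw [h1, map_one])

/-- images of minimal normal subgroups -/
theorem map_minNormal {M : Subgroup G} (hM : IsMinNormal M) {φ : G →* Q}
    (hφ : Function.Surjective φ) (hi : M ⊓ φ.ker = ⊥) : IsMinNormal (M.map φ) := by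
  refine ⟨map_ne_bot hi le_rfl hM.1, hM.2.1.map φ hφ, ?_⟩
  intro K hK hKM hne
  apply le_antisymm hKM
  have h1 : M ⊓ K.comap φ = M := by
    have := hM.2.1
    apply hM.2.2 _ inferInstance inf_le_left
    intro hb
    apply hne
    rw [eq_bot_iff]
    intro k hk
    obtain ⟨m, hm, rfl⟩ := hKM hk
    have h2 : m ∈ M ⊓ K.comap φ := ⟨hm, hk⟩
    rw [hb, Subgroup.mem_bot] at h2
    rw [Subgroup.mem_bot, h2, map_one]
  rintro _ ⟨m, hm, rfl⟩
  have h2 : m ∈ M ⊓ K.comap φ := by rw [h1]; exact hm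
  exact h2.2

theorem map_minNormalIn {M R : Subgroup G} (hR : IsMinNormalIn M R) {φ : G →* Q}
    (hi : M ⊓ φ.ker = ⊥) : IsMinNormalIn (M.map φ) (R.map φ) := by
  refine ⟨Subgroup.map_mono hR.1, map_ne_bot hi hR.1 hR.2.1, ?_, ?_⟩
  · rintro _ ⟨g, hg, rfl⟩ _ ⟨t, ht, rfl⟩
    exact ⟨g * t * g⁻¹, hR.2.2.1 g hg t ht, by simp⟩
  · intro K hK hne hinv
    apply le_antisymm hK
    have h1 : R ⊓ K.comap φ = R := by
      apply hR.2.2.2 _ inf_le_left
      · intro hb
        apply hne
        rw [eq_bot_iff]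
        intro k hk
        obtain ⟨m, hm, rfl⟩ := hK hk
        have h2 : m ∈ R ⊓ K.comap φ := ⟨hm, hk⟩
        rw [hb, Subgroup.mem_bot] at h2
        rw [Subgroup.mem_bot, h2, map_one]
      · rintro g hg t ⟨ht, htK⟩
        refine ⟨hR.2.2.1 g hg t ht, ?_⟩
        have := hinv (φ g) (Subgroup.mem_map_of_mem φ hg) (φ t) htK
        simpa using this
    rintro _ ⟨m, hm, rfl⟩
    have h2 : m ∈ R ⊓ K.comap φ := by rw [h1]; exact hm
    exact h2.2

theorem comap_minNormalIn {M : Subgroup G} {φ : G →* Q} (hi : M ⊓ φ.ker = ⊥) {R : Subgroup Q}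
    (hR : IsMinNormalIn (M.map φ) R) : IsMinNormalIn M (M ⊓ R.comap φ) := by
  refine ⟨inf_le_left, ?_, ?_, ?_⟩
  · intro hb
    apply hR.2.1
    rw [eq_bot_iff]
    intro r hr
    obtain ⟨m, hm, rfl⟩ := hR.1 hr
    have h2 : m ∈ M ⊓ R.comap φ := ⟨hm, hr⟩
    rw [hb, Subgroup.mem_bot] at h2
    rw [Subgroup.mem_bot, h2, map_one]
  · rintro g hg t ⟨ht, htR⟩
    refine ⟨M.mul_mem (M.mul_mem hg ht) (M.inv_mem hg), ?_⟩
    have := hR.2.2.1 (φ g) (Subgroup.mem_map_of_mem φ hg) (φ t) htR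
    simpa using this
  · intro K hK hne hinv
    apply le_antisymm hK
    have hKM : K ≤ M := hK.trans inf_le_left
    have h1 : K.map φ = R := by
      apply hR.2.2.2
      · rintro _ ⟨k, hk, rfl⟩
        exact (hK hk).2
      · exact map_ne_bot hi hKM hne
      · rintro _ ⟨g, hg, rfl⟩ _ ⟨k, hk, rfl⟩
        exact ⟨g * k * g⁻¹, hinv g hg k hk, by simp⟩
    rintro t ⟨ht, htR⟩
    have h2 : φ t ∈ K.map φ := by rw [h1]; exact htR
    obtain ⟨k, hk, hkt⟩ := h2
    have := inj_of_inf hi (hKM hk) ht hkt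
    rwa [← this]

theorem map_nonab {M R : Subgroup G} (hR : R ≤ M) {φ : G →* Q} (hi : M ⊓ φ.ker = ⊥)
    (hn : ∃ a ∈ R, ∃ b ∈ R, a * b ≠ b * a) :
    ∃ a ∈ R.map φ, ∃ b ∈ R.map φ, a * b ≠ b * a := by
  obtain ⟨a, ha, b, hb, hab⟩ := hn
  refine ⟨φ a, Subgroup.mem_map_of_mem φ ha, φ b, Subgroup.mem_map_of_mem φ hb, fun h => hab ?_⟩
  apply inj_of_inf hi (hR (R.mul_mem ha hb)) (hR (R.mul_mem hb ha))
  rw [map_mul, map_mul, h]

end Maps

/-- `x` is good for the quotients of `G` by normal subgroups containing `K` -/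
def CovK {G : Type} [Group G] {D : ℕ} (K : Subgroup G) (x : Fin D → G) : Prop :=
  ∀ (Q : Type) [Group Q] [Finite Q] (φ : G →* Q), Function.Surjective φ → K ≤ φ.ker →
    ∀ R : Subgroup Q, IsSocleFactor R → (∃ a ∈ R, ∃ b ∈ R, a * b ≠ b * a) →
      ∀ ρ ∈ R, ∃ h ∈ Subgroup.closure (Set.range fun i => φ (x i)),
        ∀ z ∈ R, h * z * h⁻¹ = ρ * z * ρ⁻¹

theorem exists_covK {G : Type} [Group G] [Finite G] {D : ℕ}
    (hD : ∀ (N : Subgroup G) [N.Normal] (R : Subgroup (G ⧸ N)), IsSocleFactor R →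
      (∃ a ∈ R, ∃ b ∈ R, a * b ≠ b * a) → LiftGen D R) (K : Subgroup G) :
    K.Normal → ∃ x : Fin D → G, CovK K x := by
  classical
  induction K using WellFoundedGT.induction with
  | ind K ih =>
    intro hK
    by_cases htop : K = ⊤
    · refine ⟨fun _ => 1, ?_⟩
      intro Q _ _ φ hφ hker R hR _
      exfalso
      obtain ⟨M, _, hMR⟩ := hR
      apply hMR.2.1
      rw [eq_bot_iff]
      intro r _
      obtain ⟨g, rfl⟩ := hφ r
      have : g ∈ φ.ker := hker (by rw [htop]; exact Subgroup.mem_top g)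
      rw [Subgroup.mem_bot]
      exact this
    · -- a minimal normal subgroup of the quotient
      have hne : (⊤ : Subgroup (G ⧸ K)) ≠ ⊥ := by
        intro h
        apply htop
        rw [eq_top_iff]
        intro g _
        have h1 : ((g : G) : G ⧸ K) ∈ (⊤ : Subgroup (G ⧸ K)) := Subgroup.mem_top _
        rw [h, Subgroup.mem_bot] at h1
        exact (QuotientGroup.eq_one_iff g).1 h1
      obtain ⟨M, -, hM⟩ := exists_minNormal (C := (⊤ : Subgroup (G ⧸ K))) inferInstance hne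
      let π := QuotientGroup.mk' K
      have hπ : Function.Surjective π := QuotientGroup.mk'_surjective K
      let K1 := M.comap π
      have hK1 : K1.Normal := hM.2.1.comap π
      have hKK1 : K < K1 := by
        refine lt_of_le_of_ne ?_ ?_
        · intro g hg
          show π g ∈ M
          have : π g = 1 := (QuotientGroup.eq_one_iff g).2 hg
          rw [this]; exact M.one_mem
        · intro h
          apply hM.1
          rw [eq_bot_iff]
          intro m hm
          obtain ⟨g, rfl⟩ := hπ m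
          have h1 : g ∈ K := by rw [h]; exact hm
          rw [Subgroup.mem_bot]
          exact (QuotientGroup.eq_one_iff g).2 h1
      obtain ⟨x, hx⟩ := ih K1 hKK1 hK1
      -- the adjustment
      obtain ⟨m, hmK, hm⟩ : ∃ m : Fin D → G, (∀ i, m i ∈ K1) ∧
          ∀ R : Subgroup (G ⧸ K), IsMinNormalIn M R → (∃ a ∈ R, ∃ b ∈ R, a * b ≠ b * a) →
            ∀ ρ ∈ R, ∃ h ∈ Subgroup.closure (Set.range fun i => π (m i * x i)),
              ∀ z ∈ R, h * z * h⁻¹ = ρ * z * ρ⁻¹ := by
        by_cases hc : ∃ R : Subgroup (G ⧸ K), IsMinNormalIn M R ∧ ∃ a ∈ R, ∃ b ∈ R, a * b ≠ b * a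
        · obtain ⟨R0, hR0, hn0⟩ := hc
          obtain ⟨m', hm'M, hm'⟩ := adjust hM (fun R hR => hD K R ⟨M, hM, hR⟩
            (factor_nonab hM hR0 hR hn0)) (fun i => π (x i))
          choose m hm using fun i => hπ (m' i)
          refine ⟨m, fun i => ?_, fun R hR _ ρ hρ => ?_⟩
          · show π (m i) ∈ M
            rw [hm]; exact hm'M i
          · obtain ⟨h, hh, hz⟩ := hm' R hR ρ hρ
            refine ⟨h, ?_, hz⟩
            have : (fun i => π (m i * x i)) = fun i => m' i * π (x i) := by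
              funext i; rw [map_mul, hm]
            rw [this]; exact hh
        · exact ⟨fun _ => 1, fun _ => K1.one_mem, fun R hR hn => absurd ⟨R, hR, hn⟩ hc⟩
      refine ⟨fun i => m i * x i, ?_⟩
      intro Q _ _ φ hφ hker R hR hn ρ hρ
      by_cases hcase : K1 ≤ φ.ker
      · -- nothing changes
        obtain ⟨h, hh, hz⟩ := hx Q φ hφ hcase R hR hn ρ hρ
        refine ⟨h, ?_, hz⟩
        have : (fun i => φ (m i * x i)) = fun i => φ (x i) := by
          funext i
          have h1 : φ (m i) = 1 := hcase (hmK i)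
          rw [map_mul, h1, one_mul]
        rw [this]; exact hh
      · -- the induced map
        let ψ : G ⧸ K →* Q := QuotientGroup.lift K φ hker
        have hψπ : ∀ g, ψ (π g) = φ g := fun g => rfl
        have hψ : Function.Surjective ψ := fun q => by
          obtain ⟨g, rfl⟩ := hφ q
          exact ⟨π g, rfl⟩
        have hi : M ⊓ ψ.ker = ⊥ := by
          by_contra hne'
          have := hM.2.1
          have h1 := hM.2.2 (M ⊓ ψ.ker) inferInstance inf_le_left hne'
          apply hcase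
          intro g hg
          have h2 : π g ∈ M ⊓ ψ.ker := by rw [h1]; exact hg
          exact h2.2
        have hN := map_minNormal hM hψ hi
        obtain ⟨M2, hM2, hRM2⟩ := hR
        by_cases hMN : M2 = M.map ψ
        · subst hMN
          have hR' := comap_minNormalIn hi hRM2
          have hn' : ∃ a ∈ M ⊓ R.comap ψ, ∃ b ∈ M ⊓ R.comap ψ, a * b ≠ b * a := by
            obtain ⟨a, ha, b, hb, hab⟩ := hn
            obtain ⟨a', ha', rfl⟩ := hRM2.1 ha
            obtain ⟨b', hb', rfl⟩ := hRM2.1 hb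
            refine ⟨a', ⟨ha', ha⟩, b', ⟨hb', hb⟩, fun h => hab ?_⟩
            rw [← map_mul, h, map_mul]
          obtain ⟨ρ', hρ', rfl⟩ := hRM2.1 hρ
          obtain ⟨h, hh, hz⟩ := hm _ hR' hn' ρ' ⟨hρ', hρ⟩
          refine ⟨ψ h, ?_, ?_⟩
          · have h1 := Subgroup.mem_map_of_mem ψ hh
            rw [MonoidHom.map_closure, ← Set.range_comp] at h1
            exact h1
          · intro z hzR
            obtain ⟨z', hz', rfl⟩ := hRM2.1 hzR
            have h1 := congrArg ψ (hz z' ⟨hz', hzR⟩)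
            simpa using h1
        · -- another minimal normal subgroup
          have hdis : M2 ⊓ M.map ψ = ⊥ := by
            by_contra hne'
            have := hM2.2.1
            have := hN.2.1
            have h1 := hM2.2.2 (M2 ⊓ M.map ψ) inferInstance inf_le_left hne'
            have h2 := hN.2.2 (M2 ⊓ M.map ψ) inferInstance inf_le_right hne'
            exact hMN (h1.symm.trans h2)
          have := hN.2.1
          let σ := QuotientGroup.mk' (M.map ψ)
          have hσ : Function.Surjective σ := QuotientGroup.mk'_surjective _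
          have hσi : M2 ⊓ σ.ker = ⊥ := by
            rw [QuotientGroup.ker_mk']; exact hdis
          have hker1 : K1 ≤ (σ.comp φ).ker := by
            intro g hg
            rw [MonoidHom.mem_ker, MonoidHom.comp_apply]
            apply (QuotientGroup.eq_one_iff (φ g)).2
            exact ⟨π g, hg, rfl⟩
          obtain ⟨h, hh, hz⟩ := hx _ (σ.comp φ) (hσ.comp hφ) hker1 (R.map σ)
            ⟨M2.map σ, map_minNormal hM2 hσ hσi, map_minNormalIn hRM2 hσi⟩
            (map_nonab hRM2.1 hσi hn) (σ ρ) (Subgroup.mem_map_of_mem σ hρ)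
          have h1 : (fun i => (σ.comp φ) (x i)) = σ ∘ (fun i => φ (m i * x i)) := by
            funext i
            have h2 : (σ.comp φ) (m i) = 1 := hker1 (hmK i)
            have h3 : (σ.comp φ) (m i * x i) = (σ.comp φ) (x i) := by
              rw [map_mul, h2, one_mul]
            exact h3.symm
          rw [h1, Set.range_comp, ← MonoidHom.map_closure] at hh
          obtain ⟨k, hk, rfl⟩ := hh
          refine ⟨k, hk, fun z hzR => ?_⟩
          have h2 := hz (σ z) (Subgroup.mem_map_of_mem σ hzR)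
          have hzM : z ∈ M2 := hRM2.1 hzR
          have hρM : ρ ∈ M2 := hRM2.1 hρ
          apply inj_of_inf hσi (hM2.2.1.conj_mem z hzM k) (hM2.2.1.conj_mem z hzM ρ)
          simpa using h2

/-- (W1) -/
theorem exists_cov {G : Type} [Group G] [Finite G] {D : ℕ}
    (hD : ∀ (N : Subgroup G) [N.Normal] (R : Subgroup (G ⧸ N)), IsSocleFactor R →
      (∃ a ∈ R, ∃ b ∈ R, a * b ≠ b * a) → LiftGen D R) :
    ∃ x : Fin D → G, Cov x := by
  obtain ⟨x, hx⟩ := exists_covK hD ⊥ inferInstance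
  exact ⟨x, fun Q _ _ φ hφ R hR hn => hx Q φ hφ bot_le R hR hn⟩

end Pool.Agent.H68.WLN
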