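import Pool.Agent.H68.WLStruct

set_option autoImplicit false

namespace Pool.Agent.H68.WLN

open Pool.Agent.H68.WL

/-- A back-and-forth system on a group `G` acting on `V`: positions are a list of pairs of
elements of `G` and a list of pairs of points of `V`. -/
structure BF (G V : Type) [Group G] [MulAction G V] (K : ℕ) where
  F : List (G × G) → List (V × V) → Prop
  mono : ∀ {A A' B B'}, F A B → A' ⊆ A → B' ⊆ B → F A' B'
  symm : ∀ {A B}, F A B → F (A.map Prod.swap) (B.map Prod.swap)
  eqG : ∀ {a a' b b'}, F [(a, a'), (b, b')] [] → a = b → a' = b'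
  eqV : ∀ {v v' w w'}, F [] [(v, v'), (w, w')] → v = w → v' = w'
  mul : ∀ {a a' b b' c'}, F [(a, a'), (b, b'), (a * b, c')] [] → a' * b' = c'
  smul : ∀ {a a' v v' w'}, F [(a, a')] [(v, v'), (a • v, w')] → a' • v' = w'
  moveG : ∀ {A B}, F A B → A.length + B.length < K → ∀ g, ∃ g', F ((g, g') :: A) B
  moveV : ∀ {A B}, F A B → A.length + B.length < K →
    ∃ f : V ≃ V, ∀ v, F A ((v, f v) :: B)

/-- A back-and-forth system between two groups. -/
structure Sys0 (G H : Type) [Group G] [Group H] (K : ℕ) where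
  S : List (G × H) → Prop
  mono : ∀ {A B}, S A → B ⊆ A → S B
  eq : ∀ {a a' b b'}, S [(a, a'), (b, b')] → (a = b ↔ a' = b')
  mul : ∀ {a a' b b' c c'}, S [(a, a'), (b, b'), (c, c')] → (a * b = c ↔ a' * b' = c')
  forth : ∀ {A}, S A → A.length < K → ∀ g, ∃ h, S ((g, h) :: A)
  back : ∀ {A}, S A → A.length < K → ∀ h, ∃ g, S ((g, h) :: A)

/-- A bijective system between two groups. -/
structure Sys (G H : Type) [Group G] [Group H] (K : ℕ) where
  S : List (G × H) → Prop
  mono : ∀ {A B}, S A → B ⊆ A → S B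
  eq : ∀ {a a' b b'}, S [(a, a'), (b, b')] → (a = b ↔ a' = b')
  mul : ∀ {a a' b b' c c'}, S [(a, a'), (b, b'), (c, c')] → (a * b = c ↔ a' * b' = c')
  move : ∀ {A}, S A → A.length < K → ∃ f : G ≃ H, ∀ g, S ((g, f g) :: A)

/-- Forget the bijectivity. -/
def Sys.toSys0 {G H : Type} [Group G] [Group H] {K : ℕ} (Z : Sys G H K) : Sys0 G H K where
  S := Z.S
  mono := Z.mono
  eq := Z.eq
  mul := Z.mul
  forth := by
    intro A h hl g
    obtain ⟨f, hf⟩ := Z.move h hl
    exact ⟨f g, hf g⟩
  back := by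
    intro A h hl x
    obtain ⟨f, hf⟩ := Z.move h hl
    refine ⟨f.symm x, ?_⟩
    have := hf (f.symm x)
    rwa [f.apply_symm_apply] at this

section
variable {G V : Type} [Group G] [MulAction G V] {K : ℕ}

/-- `u` is only matched with itself. -/
def BF.Pin (Z : BF G V K) (u : G) : Prop := ∀ g, Z.F [(u, g)] [] → g = u

/-- The colouring `κ` is preserved. -/
def BF.Pres {C : Type} (Z : BF G V K) (κ : V → C) : Prop := ∀ v w, Z.F [] [(v, w)] → κ v = κ w

theorem BF.back (Z : BF G V K) {A : List (G × G)} {B : List (V × V)} (h : Z.F A B)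
    (hl : A.length + B.length < K) (g' : G) : ∃ g, Z.F ((g, g') :: A) B := by
  obtain ⟨g, hg⟩ := Z.moveG (Z.symm h) (by simpa using hl) g'
  refine ⟨g, ?_⟩
  have := Z.symm hg
  simpa [List.map_map, Function.comp_def] using this

theorem BF.forthV (Z : BF G V K) {A : List (G × G)} {B : List (V × V)} (h : Z.F A B)
    (hl : A.length + B.length < K) (v : V) : ∃ v', Z.F A ((v, v') :: B) := by
  obtain ⟨f, hf⟩ := Z.moveV h hl
  exact ⟨f v, hf v⟩

theorem BF.backV (Z : BF G V K) {A : List (G × G)} {B : List (V × V)} (h : Z.F A B)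
    (hl : A.length + B.length < K) (v' : V) : ∃ v, Z.F A ((v, v') :: B) := by
  obtain ⟨f, hf⟩ := Z.moveV h hl
  refine ⟨f.symm v', ?_⟩
  have := hf (f.symm v')
  rwa [f.apply_symm_apply] at this

/-- The group part of a system. -/
def BF.toSys0 (Z : BF G V K) : Sys0 G G K where
  S := fun A => Z.F A []
  mono := fun h hs => Z.mono h hs (List.Subset.refl _)
  eq := by
    intro a a' b b' h
    refine ⟨Z.eqG h, ?_⟩
    have := Z.symm h
    simp only [List.map_cons, List.map_nil, Prod.swap_prod_mk] at this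
    exact Z.eqG this
  mul := by
    intro a a' b b' c c' h
    constructor
    · rintro rfl
      exact Z.mul h
    · intro hh
      have := Z.symm h
      simp only [List.map_cons, List.map_nil, Prod.swap_prod_mk] at this
      rw [← hh] at this
      exact Z.mul this
  forth := by
    intro A h hl g
    exact Z.moveG h (by simpa using hl) g
  back := by
    intro A h hl g
    exact Z.back h (by simpa using hl) g

end

/-- Colours. -/
abbrev Col : Type := Fin 256 × Fin 256

/-- The label `c` is written in the block `B`. -/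
def Pat {V : Type} (B : Set V) (c : Col) (κ : V → Col) : Prop :=
  ∃ X0 ∈ B, ∃ X1 ∈ B, X0 ≠ X1 ∧ κ X0 = (c.1, 0) ∧ κ X1 = (c.2, 1) ∧
    (∀ u ∈ B, (κ u).2 = 0 → u = X0) ∧ (∀ u ∈ B, (κ u).2 = 1 → u = X1)

/-- `D` automorphisms of `R` can be changed by inner ones so as to generate all inner ones. -/
def LiftGen (D : ℕ) (R : Type) [Group R] : Prop :=
  ∀ α : Fin D → MulAut R, ∃ s : Fin D → R, ∀ r : R,
    MulAut.conj r ∈ Subgroup.closure (Set.range fun i => MulAut.conj (s i) * α i)

/-- Every nonabelian socle factor `R` of every quotient `Q` of `G` is covered by the group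
generated by `x`: it induces all the inner automorphisms of `R`. -/
def Cov {G : Type} [Group G] {D : ℕ} (x : Fin D → G) : Prop :=
  ∀ (Q : Type) [Group Q] [Finite Q] (φ : G →* Q), Function.Surjective φ →
    ∀ R : Subgroup Q, IsSocleFactor R → (∃ a ∈ R, ∃ b ∈ R, a * b ≠ b * a) →
      ∀ ρ ∈ R, ∃ h ∈ Subgroup.closure (Set.range fun i => φ (x i)),
        ∀ z ∈ R, h * z * h⁻¹ = ρ * z * ρ⁻¹

/-- The letter `ρ` of the factor `R i` is fine at `w`. -/
def Ok {Q V ι : Type} [Group Q] [MulAction Q V] (R : ι → Subgroup Q) (i : ι) (ρ : Q) (w : V) :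
    Prop :=
  ρ • w ≠ w ∧ ∀ j, j ≠ i → (∃ r ∈ R j, r • w = ρ • w) → ∀ s ∈ R i, ∃ r ∈ R j, r • w = s • w

section
variable {G : Type} [Group G]

/-- The normal closure of `x`. -/
def ncl (x : G) : Subgroup G := Subgroup.closure {z | ∃ g, g * x * g⁻¹ = z}

/-- `x` generates a minimal normal subgroup. -/
def MinEl (x : G) : Prop := x ≠ 1 ∧ ∀ y ∈ ncl x, y ≠ 1 → x ∈ ncl y

/-- The join of the abelian minimal normal subgroups. -/
def sab (G : Type) [Group G] : Subgroup G :=
  Subgroup.closure {x : G | MinEl x ∧ ∀ g : G, x * (g * x * g⁻¹) = (g * x * g⁻¹) * x}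

/-- The socle, as the join of the minimal normal subgroups. -/
def socle (G : Type) [Group G] : Subgroup G := Subgroup.closure {x : G | MinEl x}

/-- The normal closure of `x` in the socle. -/
def nclS (x : G) : Subgroup G := Subgroup.closure {z | ∃ g ∈ socle G, g * x * g⁻¹ = z}

/-- `x` is a nontrivial element of a socle factor. -/
def Fac (x : G) : Prop := x ∈ socle G ∧ x ≠ 1 ∧ ∀ y ∈ nclS x, y ≠ 1 → x ∈ nclS y

end

/-- The conjugation action on the set of socle factors. -/
instance factorAction {G : Type} [Group G] [Finite G] :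
    MulAction G {T : Subgroup G // IsSocleFactor T} where
  smul g T := ⟨cj g T.1, T.2.cj g⟩
  one_smul T := by
    apply Subtype.ext
    change cj 1 T.1 = T.1
    ext x; rw [mem_cj]; simp
  mul_smul g h T := by
    apply Subtype.ext
    change cj (g * h) T.1 = cj g (cj h T.1)
    ext x; rw [mem_cj, mem_cj, mem_cj]; simp [mul_assoc]

end Pool.Agent.H68.WLN
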