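import Pool.Agent.H68.N.Defs

set_option autoImplicit false

namespace Pool.Agent.H68.WLN

open Pool.Agent.H68.WL

section
variable {G : Type} [Group G]

theorem closure_normal_of_conj {S : Set G} (h : ∀ x ∈ S, ∀ g : G, g * x * g⁻¹ ∈ S) :
    (Subgroup.closure S).Normal := by
  constructor
  intro n hn g
  induction hn using Subgroup.closure_induction with
  | mem x hx => exact Subgroup.subset_closure (h x hx g)
  | one => simp
  | mul x y _ _ hx hy =>
    have : g * (x * y) * g⁻¹ = (g * x * g⁻¹) * (g * y * g⁻¹) := by group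
    rw [this]
    exact Subgroup.mul_mem _ hx hy
  | inv x _ hx =>
    have : g * x⁻¹ * g⁻¹ = (g * x * g⁻¹)⁻¹ := by group
    rw [this]
    exact Subgroup.inv_mem _ hx

theorem closure_comm {S : Set G} (h : ∀ x ∈ S, ∀ y ∈ S, x * y = y * x) :
    ∀ x ∈ Subgroup.closure S, ∀ y ∈ Subgroup.closure S, x * y = y * x := by
  have h1 : Subgroup.closure S ≤ Subgroup.centralizer S := by
    rw [Subgroup.closure_le]
    intro x hx
    exact Subgroup.mem_centralizer_iff.2 fun y hy => h y hy x hx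
  have h2 : Subgroup.closure S ≤ Subgroup.centralizer (Subgroup.closure S : Set G) := by
    rw [Subgroup.closure_le]
    intro x hx
    refine Subgroup.mem_centralizer_iff.2 fun y hy => ?_
    exact (Subgroup.mem_centralizer_iff.1 (h1 hy) x hx).symm
  intro x hx y hy
  exact Subgroup.mem_centralizer_iff.1 (h2 hy) x hx

theorem ncl_eq (x : G) : ncl x = Subgroup.normalClosure {x} := by
  unfold ncl Subgroup.normalClosure
  congr 1
  ext z
  rw [Group.mem_conjugatesOfSet_iff]
  simp [isConj_iff]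

theorem ncl_normal (x : G) : (ncl x).Normal := by
  rw [ncl_eq]; infer_instance

theorem self_mem_ncl (x : G) : x ∈ ncl x :=
  Subgroup.subset_closure ⟨1, by simp⟩

theorem ncl_le {x : G} {N : Subgroup G} (hN : N.Normal) (hx : x ∈ N) : ncl x ≤ N := by
  unfold ncl
  rw [Subgroup.closure_le]
  rintro z ⟨g, rfl⟩
  exact hN.conj_mem x hx g

theorem ncl_conj (x g : G) : ncl (g * x * g⁻¹) = ncl x := by
  apply le_antisymm
  · exact ncl_le (ncl_normal x) ((ncl_normal x).conj_mem x (self_mem_ncl x) g)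
  · apply ncl_le (ncl_normal _)
    have := (ncl_normal (g * x * g⁻¹)).conj_mem _ (self_mem_ncl _) g⁻¹
    have h2 : g⁻¹ * (g * x * g⁻¹) * g⁻¹⁻¹ = x := by group
    rwa [h2] at this

theorem minEl_iff (x : G) : MinEl x ↔ x ≠ 1 ∧ IsMinNormal (ncl x) := by
  constructor
  · rintro ⟨h1, h2⟩
    refine ⟨h1, ?_, ncl_normal x, ?_⟩
    · intro hb
      have := self_mem_ncl x
      rw [hb, Subgroup.mem_bot] at this
      exact h1 this
    · intro K hK hle hne
      obtain ⟨y, hy⟩ := Subgroup.ne_bot_iff_exists_ne_one.1 hne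
      refine le_antisymm hle ?_
      exact ncl_le hK (ncl_le hK y.2 (h2 y (hle y.2) (fun h => hy (Subtype.ext h))))
  · rintro ⟨h1, h2⟩
    refine ⟨h1, fun y hy hy1 => ?_⟩
    have := h2.2.2 (ncl y) (ncl_normal y) (ncl_le (ncl_normal x) hy) (by
      intro hb
      have := self_mem_ncl y
      rw [hb, Subgroup.mem_bot] at this
      exact hy1 this)
    rw [this]
    exact self_mem_ncl x

theorem MinEl.conj {x : G} (h : MinEl x) (g : G) : MinEl (g * x * g⁻¹) := by
  rw [minEl_iff] at h ⊢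
  refine ⟨?_, ?_⟩
  · intro hh
    apply h.1
    rwa [mul_inv_eq_one, mul_eq_left] at hh
  · rw [ncl_conj]; exact h.2

theorem sab_normal : (sab G).Normal := by
  apply closure_normal_of_conj
  rintro x ⟨hx, hc⟩ g
  refine ⟨hx.conj g, fun k => ?_⟩
  have h1 := hc (g⁻¹ * k * g)
  have e1 : g * x * g⁻¹ * (k * (g * x * g⁻¹) * k⁻¹) =
      g * (x * (g⁻¹ * k * g * x * (g⁻¹ * k * g)⁻¹)) * g⁻¹ := by group
  have e2 : k * (g * x * g⁻¹) * k⁻¹ * (g * x * g⁻¹) =
      g * (g⁻¹ * k * g * x * (g⁻¹ * k * g)⁻¹ * x) * g⁻¹ := by group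
  rw [e1, e2, h1]

theorem ncl_comm {x : G} (h : ∀ g : G, x * (g * x * g⁻¹) = (g * x * g⁻¹) * x) :
    ∀ a ∈ ncl x, ∀ b ∈ ncl x, a * b = b * a := by
  apply closure_comm
  rintro _ ⟨g, rfl⟩ _ ⟨k, rfl⟩
  have h1 := h (g⁻¹ * k)
  have e1 : g * x * g⁻¹ * (k * x * k⁻¹) =
      g * (x * (g⁻¹ * k * x * (g⁻¹ * k)⁻¹)) * g⁻¹ := by group
  have e2 : k * x * k⁻¹ * (g * x * g⁻¹) =
      g * (g⁻¹ * k * x * (g⁻¹ * k)⁻¹ * x) * g⁻¹ := by group
  rw [e1, e2, h1]

theorem sab_comm : ∀ x ∈ sab G, ∀ y ∈ sab G, x * y = y * x := by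
  apply closure_comm
  rintro x ⟨hx, hcx⟩ y ⟨hy, -⟩
  rw [minEl_iff] at hx hy
  by_cases heq : ncl x = ncl y
  · exact ncl_comm hcx x (self_mem_ncl x) y (heq ▸ self_mem_ncl y)
  · have hdis : Disjoint (ncl x) (ncl y) := by
      rw [disjoint_iff]
      by_contra hcon
      haveI := ncl_normal x
      haveI := ncl_normal y
      have h1 := hx.2.2.2 (ncl x ⊓ ncl y) inferInstance inf_le_left hcon
      have h2 := hy.2.2.2 (ncl x ⊓ ncl y) inferInstance inf_le_right hcon
      exact heq (h1.symm.trans h2)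
    exact Subgroup.commute_of_normal_of_disjoint (ncl x) (ncl y) (ncl_normal x) (ncl_normal y)
      hdis x y (self_mem_ncl x) (self_mem_ncl y)

theorem minEl_of_mem {M : Subgroup G} (hM : IsMinNormal M) {x : G} (hx : x ∈ M) (hx1 : x ≠ 1) :
    MinEl x := by
  refine ⟨hx1, fun y hy hy1 => ?_⟩
  have hyM : y ∈ M := ncl_le hM.2.1 hx hy
  have := hM.2.2 (ncl y) (ncl_normal y) (ncl_le hM.2.1 hyM) (by
    intro hb
    have := self_mem_ncl y
    rw [hb, Subgroup.mem_bot] at this
    exact hy1 this)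
  rw [this]
  exact hx

theorem minNormal_le_socle {M : Subgroup G} (hM : IsMinNormal M) : M ≤ socle G := by
  intro x hx
  by_cases h1 : x = 1
  · rw [h1]; exact Subgroup.one_mem _
  · exact Subgroup.subset_closure (minEl_of_mem hM hx h1)

theorem factor_le_socle {T : Subgroup G} (hT : IsSocleFactor T) : T ≤ socle G := by
  obtain ⟨M, hM, hT⟩ := hT
  exact hT.1.trans (minNormal_le_socle hM)

theorem factor_le_soc {T : Subgroup G} (hT : IsSocleFactor T) : T ≤ soc G :=
  le_iSup (fun T : {T : Subgroup G // IsSocleFactor T} => T.1) ⟨T, hT⟩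

theorem self_mem_nclS (x : G) : x ∈ nclS x :=
  Subgroup.subset_closure ⟨1, Subgroup.one_mem _, by simp⟩

theorem nclS_conj {x y g : G} (hg : g ∈ socle G) (hy : y ∈ nclS x) : g * y * g⁻¹ ∈ nclS x := by
  unfold nclS at hy ⊢
  induction hy using Subgroup.closure_induction with
  | mem y hy =>
    obtain ⟨k, hk, rfl⟩ := hy
    apply Subgroup.subset_closure
    exact ⟨g * k, Subgroup.mul_mem _ hg hk, by group⟩
  | one => simp
  | mul a b _ _ ha hb =>
    have : g * (a * b) * g⁻¹ = (g * a * g⁻¹) * (g * b * g⁻¹) := by group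
    rw [this]
    exact Subgroup.mul_mem _ ha hb
  | inv a _ ha =>
    have : g * a⁻¹ * g⁻¹ = (g * a * g⁻¹)⁻¹ := by group
    rw [this]
    exact Subgroup.inv_mem _ ha

variable [Finite G]

theorem hss_of_sab (h : sab G = ⊥) :
    ∀ N : Subgroup G, N.Normal → (∀ x ∈ N, ∀ y ∈ N, x * y = y * x) → N = ⊥ := by
  intro N hN hab
  by_contra hne
  obtain ⟨M, hMN, hM⟩ := exists_minNormal hN hne
  obtain ⟨x, hx⟩ := Subgroup.ne_bot_iff_exists_ne_one.1 hM.1
  have hx1 : (x : G) ≠ 1 := fun h => hx (Subtype.ext h)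
  have h1 : (x : G) ∈ sab G := by
    apply Subgroup.subset_closure
    refine ⟨minEl_of_mem hM x.2 hx1, fun g => ?_⟩
    exact hab _ (hMN x.2) _ (hN.conj_mem _ (hMN x.2) g)
  rw [h, Subgroup.mem_bot] at h1
  exact hx1 h1

theorem sab_of_hss
    (hss : ∀ N : Subgroup G, N.Normal → (∀ x ∈ N, ∀ y ∈ N, x * y = y * x) → N = ⊥) :
    sab G = ⊥ :=
  hss _ sab_normal sab_comm

theorem socle_eq' : socle G = soc G := by
  apply le_antisymm
  · unfold socle
    rw [Subgroup.closure_le]
    intro x hx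
    have hx' := (minEl_iff x).1 hx
    have hM := hx'.2
    obtain ⟨T, hT⟩ := exists_minNormalIn hM
    haveI := hM.2.1
    haveI := soc_normal (G := G)
    have h1 := hM.2.2 (soc G ⊓ ncl x) inferInstance inf_le_right (by
      intro hb
      apply hT.2.1
      rw [eq_bot_iff, ← hb]
      exact le_inf (factor_le_soc ⟨_, hM, hT⟩) hT.1)
    have h2 : ncl x ≤ soc G := by
      rw [← h1]; exact inf_le_left
    exact h2 (self_mem_ncl x)
  · refine iSup_le fun T => factor_le_socle T.2

theorem socle_eq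
    (hss : ∀ N : Subgroup G, N.Normal → (∀ x ∈ N, ∀ y ∈ N, x * y = y * x) → N = ⊥) :
    socle G = soc G := socle_eq'

theorem soc_norm_factor {T : Subgroup G} (hT : IsSocleFactor T) :
    ∀ g ∈ soc G, ∀ t ∈ T, g * t * g⁻¹ ∈ T := by
  intro g hg
  refine Subgroup.iSup_induction (C := fun g => ∀ t ∈ T, g * t * g⁻¹ ∈ T)
    (fun T : {T : Subgroup G // IsSocleFactor T} => T.1) hg ?_ ?_ ?_
  · rintro ⟨S, hS⟩ g hg t ht
    by_cases h : S = T
    · subst h
      exact S.mul_mem (S.mul_mem hg ht) (S.inv_mem hg)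
    · have h1 := socleFactor_commute hS hT h g hg t ht
      have h2 : g * t * g⁻¹ = t := by rw [h1]; group
      rw [h2]; exact ht
  · intro t ht
    simpa using ht
  · intro x y hx hy t ht
    have : x * y * t * (x * y)⁻¹ = x * (y * t * y⁻¹) * x⁻¹ := by group
    rw [this]
    exact hx _ (hy t ht)

theorem nclS_eq' {T : Subgroup G} (hT : IsSocleFactor T) {x : G} (hx : x ∈ T) (hx1 : x ≠ 1) :
    nclS x = T := by
  obtain ⟨M, hM, hTM⟩ := hT
  apply hTM.2.2.2
  · unfold nclS
    rw [Subgroup.closure_le]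
    rintro z ⟨g, hg, rfl⟩
    rw [socle_eq'] at hg
    exact soc_norm_factor ⟨M, hM, hTM⟩ g hg x hx
  · intro hb
    have := self_mem_nclS x
    rw [hb, Subgroup.mem_bot] at this
    exact hx1 this
  · intro g hg t ht
    exact nclS_conj (minNormal_le_socle hM hg) ht

theorem nclS_eq
    (hss : ∀ N : Subgroup G, N.Normal → (∀ x ∈ N, ∀ y ∈ N, x * y = y * x) → N = ⊥)
    {T : Subgroup G} (hT : IsSocleFactor T) {x : G} (hx : x ∈ T) (hx1 : x ≠ 1) :
    nclS x = T := nclS_eq' hT hx hx1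

theorem fac_iff
    (hss : ∀ N : Subgroup G, N.Normal → (∀ x ∈ N, ∀ y ∈ N, x * y = y * x) → N = ⊥) (x : G) :
    Fac x ↔ x ≠ 1 ∧ ∃ T : Subgroup G, IsSocleFactor T ∧ x ∈ T := by
  constructor
  · rintro ⟨hx, hx1, h⟩
    refine ⟨hx1, ?_⟩
    by_contra hcon
    push Not at hcon
    have hxs : x ∈ soc G := by rwa [← socle_eq']
    have hle : nclS x ≤ soc G := by
      unfold nclS
      rw [Subgroup.closure_le]
      rintro z ⟨g, -, rfl⟩
      exact soc_normal.conj_mem x hxs g
    apply hx1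
    apply soc_centralizer hss
    intro t ht
    refine Subgroup.iSup_induction (C := fun t => x * t = t * x)
      (fun T : {T : Subgroup G // IsSocleFactor T} => T.1) ht ?_ ?_ ?_
    · rintro ⟨T, hT⟩ t ht
      have h1 : x * t * x⁻¹ * t⁻¹ ∈ nclS x := by
        have h2 := nclS_conj (factor_le_socle hT ht) (Subgroup.inv_mem _ (self_mem_nclS x))
        have h3 := Subgroup.mul_mem _ (self_mem_nclS x) h2
        have h4 : x * (t * x⁻¹ * t⁻¹) = x * t * x⁻¹ * t⁻¹ := by group
        rwa [h4] at h3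
      have h2 : x * t * x⁻¹ * t⁻¹ ∈ T :=
        T.mul_mem (soc_norm_factor hT x hxs t ht) (T.inv_mem ht)
      by_contra hne
      have h3 : x * t * x⁻¹ * t⁻¹ ≠ 1 := by
        intro h4
        apply hne
        rwa [mul_inv_eq_one, mul_inv_eq_iff_eq_mul] at h4
      have h5 := h _ h1 h3
      rw [nclS_eq' hT h2 h3] at h5
      exact hcon T hT h5
    · simp
    · intro a b ha hb
      rw [← mul_assoc, ha, mul_assoc, hb, mul_assoc]
  · rintro ⟨hx1, T, hT, hx⟩
    refine ⟨factor_le_socle hT hx, hx1, fun y hy hy1 => ?_⟩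
    rw [nclS_eq' hT hx hx1] at hy
    rw [nclS_eq' hT hy hy1]
    exact hx

theorem center_socle
    (hss : ∀ N : Subgroup G, N.Normal → (∀ x ∈ N, ∀ y ∈ N, x * y = y * x) → N = ⊥)
    (ι : Type) (T : ι → {T : Subgroup G // IsSocleFactor T}) (a : G) (ha : a ∈ soc G)
    (hcomm : ∀ i, ∀ z ∈ (T i).1, a * z = z * a) :
    a ∈ ⨆ S : {S : {T : Subgroup G // IsSocleFactor T} // ∀ i, T i ≠ S}, S.1.1 := by
  set A' := ⨆ S : {S : {T : Subgroup G // IsSocleFactor T} // ∀ i, T i ≠ S}, S.1.1 with hA'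
  set A := ⨆ i, (T i).1 with hA
  -- `A'` commutes with every `T i`
  have h1 : ∀ c ∈ A', ∀ i, ∀ z ∈ (T i).1, c * z = z * c := by
    intro c hc i z hz
    refine Subgroup.iSup_induction (C := fun c => c * z = z * c)
      (fun S : {S : {T : Subgroup G // IsSocleFactor T} // ∀ i, T i ≠ S} => S.1.1) hc ?_ ?_ ?_
    · rintro ⟨S, hS⟩ c hc
      exact socleFactor_commute S.2 (T i).2 (fun h => hS i (Subtype.ext h.symm)) c hc z hz
    · simp
    · intro a b ha hb
      rw [mul_assoc, hb, ← mul_assoc, ha, mul_assoc]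
  -- `A` commutes with every other factor
  have h2 : ∀ b ∈ A, ∀ S : {T : Subgroup G // IsSocleFactor T}, (∀ i, T i ≠ S) →
      ∀ z ∈ S.1, b * z = z * b := by
    intro b hb S hS z hz
    refine Subgroup.iSup_induction (C := fun b => b * z = z * b)
      (fun i => (T i).1) hb ?_ ?_ ?_
    · intro i b hb
      exact socleFactor_commute (T i).2 S.2 (fun h => hS i (Subtype.ext h)) b hb z hz
    · simp
    · intro a b ha hb
      rw [mul_assoc, hb, ← mul_assoc, ha, mul_assoc]
  have h3 : ∀ b ∈ A, ∀ c ∈ A', b * c = c * b := by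
    intro b hb c hc
    refine Subgroup.iSup_induction (C := fun b => b * c = c * b)
      (fun i => (T i).1) hb ?_ ?_ ?_
    · intro i b hb
      exact (h1 c hc i b hb).symm
    · simp
    · intro a b ha hb
      rw [mul_assoc, hb, ← mul_assoc, ha, mul_assoc]
  have h4 : ∃ b ∈ A, ∃ c ∈ A', a = b * c := by
    refine Subgroup.iSup_induction (C := fun a => ∃ b ∈ A, ∃ c ∈ A', a = b * c)
      (fun T : {T : Subgroup G // IsSocleFactor T} => T.1) ha ?_ ?_ ?_
    · intro S x hx
      by_cases hS : ∀ i, T i ≠ S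
      · refine ⟨1, A.one_mem, x, ?_, by simp⟩
        exact (le_iSup (fun S : {S : {T : Subgroup G // IsSocleFactor T} // ∀ i, T i ≠ S} =>
          S.1.1) ⟨S, hS⟩) hx
      · push Not at hS
        obtain ⟨i, rfl⟩ := hS
        exact ⟨x, (le_iSup (fun i => (T i).1) i) hx, 1, A'.one_mem, by simp⟩
    · exact ⟨1, A.one_mem, 1, A'.one_mem, by simp⟩
    · rintro _ _ ⟨b, hb, c, hc, rfl⟩ ⟨b', hb', c', hc', rfl⟩
      refine ⟨b * b', A.mul_mem hb hb', c * c', A'.mul_mem hc hc', ?_⟩
      rw [mul_assoc, ← mul_assoc c, ← h3 b' hb' c hc]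
      group
  obtain ⟨b, hb, c, hc, rfl⟩ := h4
  have h5 : b = 1 := by
    apply soc_centralizer hss
    intro t ht
    refine Subgroup.iSup_induction (C := fun t => b * t = t * b)
      (fun T : {T : Subgroup G // IsSocleFactor T} => T.1) ht ?_ ?_ ?_
    · intro S z hz
      by_cases hS : ∀ i, T i ≠ S
      · exact h2 b hb S hS z hz
      · push Not at hS
        obtain ⟨i, rfl⟩ := hS
        have e1 := hcomm i z hz
        have e2 := h1 c hc i z hz
        rw [mul_assoc, e2, ← mul_assoc, ← mul_assoc] at e1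
        exact mul_right_cancel e1
    · simp
    · intro x y hx hy
      rw [← mul_assoc, hx, mul_assoc, hy, mul_assoc]
  rw [h5, one_mul]
  exact hc

theorem exists_prod
    (s : {T : Subgroup G // IsSocleFactor T} → G) (hs : ∀ T, s T ∈ T.1) :
    ∃ m ∈ soc G, ∀ T : {T : Subgroup G // IsSocleFactor T}, ∀ z ∈ T.1,
      m * z * m⁻¹ = s T * z * (s T)⁻¹ := by
  classical
  haveI : Fintype {T : Subgroup G // IsSocleFactor T} := Fintype.ofFinite _
  have key : ∀ F : Finset {T : Subgroup G // IsSocleFactor T}, ∃ m ∈ soc G,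
      (∀ T ∈ F, ∀ z ∈ T.1, m * z * m⁻¹ = s T * z * (s T)⁻¹) ∧
      (∀ T, T ∉ F → ∀ z ∈ T.1, m * z * m⁻¹ = z) := by
    intro F
    induction F using Finset.induction_on with
    | empty => exact ⟨1, Subgroup.one_mem _, by simp, by simp⟩
    | insert T0 F hT0 ih =>
      obtain ⟨m, hm, h1, h2⟩ := ih
      refine ⟨s T0 * m, Subgroup.mul_mem _ (factor_le_soc T0.2 (hs T0)) hm, ?_, ?_⟩
      · intro T hT z hz
        have e : s T0 * m * z * (s T0 * m)⁻¹ = s T0 * (m * z * m⁻¹) * (s T0)⁻¹ := by group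
        rw [e]
        by_cases hTT : T = T0
        · subst hTT
          rw [h2 T hT0 z hz]
        · have hTF : T ∈ F := by
            rcases Finset.mem_insert.1 hT with h | h
            · exact absurd h hTT
            · exact h
          rw [h1 T hTF z hz]
          have h3 : s T * z * (s T)⁻¹ ∈ T.1 :=
            T.1.mul_mem (T.1.mul_mem (hs T) hz) (T.1.inv_mem (hs T))
          have h4 := socleFactor_commute T0.2 T.2 (fun h => hTT (Subtype.ext h.symm))
            (s T0) (hs T0) _ h3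
          rw [h4]
          group
      · intro T hT z hz
        rw [Finset.mem_insert, not_or] at hT
        have e : s T0 * m * z * (s T0 * m)⁻¹ = s T0 * (m * z * m⁻¹) * (s T0)⁻¹ := by group
        rw [e, h2 T hT.2 z hz]
        have h4 := socleFactor_commute T0.2 T.2 (fun h => hT.1 (Subtype.ext h.symm))
          (s T0) (hs T0) z hz
        rw [h4]
        group
  obtain ⟨m, hm, h1, -⟩ := key Finset.univ
  exact ⟨m, hm, fun T z hz => h1 T (Finset.mem_univ T) z hz⟩

end

end Pool.Agent.H68.WLN
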