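import Pool.Agent.H68.N.Basic
import Pool.Agent.H68.N.Fac

set_option autoImplicit false

namespace Pool.Agent.H68.WLN

open Pool.Agent.H68.WL

section Fin1

variable {G : Type} [Group G] [Finite G] {K : ℕ}

/-- The points are the socle factors, represented by their nontrivial elements. -/
def IsSoc (Z : BF G {T : Subgroup G // IsSocleFactor T} K) : Prop :=
  ∀ A v w, Z.F A [(v, w)] ↔ ∃ t ∈ v.1, ∃ t' ∈ w.1, t ≠ 1 ∧ t' ≠ 1 ∧ Z.F ((t, t') :: A) []

theorem factor_conj {v w : {T : Subgroup G // IsSocleFactor T}} {M : Subgroup G}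
    (hss : ∀ N : Subgroup G, N.Normal → (∀ x ∈ N, ∀ y ∈ N, x * y = y * x) → N = ⊥)
    (hM : IsMinNormal M) (hv : v.1 ≤ M) (hw : w.1 ≤ M) : w ∈ MulAction.orbit G v := by
  by_contra hcon
  have hne : ∀ g : G, cj g v.1 ≠ w.1 := by
    intro g h
    exact hcon ⟨g, Subtype.ext h⟩
  obtain ⟨M', hM', hwM'⟩ := w.2
  obtain ⟨a, b, hab⟩ := not_comm_of_min hss hM' hwM'
  apply hab
  -- M is the normal closure of v
  have hvne : v.1 ≠ ⊥ := by
    obtain ⟨M1, hM1, h1⟩ := v.2
    exact h1.2.1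
  have h1 : Subgroup.normalClosure (v.1 : Set G) = M := by
    apply hM.2.2 _ inferInstance
    · exact @Subgroup.normalClosure_le_normal G _ (v.1 : Set G) M hM.2.1 hv
    · intro hb
      apply hvne
      rw [eq_bot_iff, ← hb]
      exact Subgroup.le_normalClosure
  have h2 : M ≤ Subgroup.centralizer (w.1 : Set G) := by
    rw [← h1, Subgroup.normalClosure, Subgroup.closure_le]
    intro x hx
    rw [Group.mem_conjugatesOfSet_iff] at hx
    obtain ⟨t, ht, hc⟩ := hx
    rw [isConj_iff] at hc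
    obtain ⟨g, rfl⟩ := hc
    change _ ∈ Subgroup.centralizer (w.1 : Set G)
    rw [Subgroup.mem_centralizer_iff]
    intro y hy
    exact (socleFactor_commute (v.2.cj g) w.2 (hne g) _ (cj_mem ht) y hy).symm
  have h3 := h2 (hw b.2)
  rw [Subgroup.mem_centralizer_iff] at h3
  exact Subtype.ext (h3 a a.2)

variable (hss : ∀ N : Subgroup G, N.Normal → (∀ x ∈ N, ∀ y ∈ N, x * y = y * x) → N = ⊥)
  (hK : 12 ≤ K) (Z : BF G {T : Subgroup G // IsSocleFactor T} K) (hZ : IsSoc Z)

include hss in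
theorem factor_cent {v : {T : Subgroup G // IsSocleFactor T}} {a b : G} (ha : a ∈ v.1)
    (hb : b ∈ v.1) (h : ∀ z ∈ v.1, a * z * a⁻¹ = b * z * b⁻¹) : a = b := by
  obtain ⟨M, hM, hT⟩ := v.2
  haveI := isSimple_of_min hM hT
  by_contra hne
  have h1 : (⟨b⁻¹ * a, v.1.mul_mem (v.1.inv_mem hb) ha⟩ : v.1) ≠ 1 := by
    intro h2
    apply hne
    have h3 : b⁻¹ * a = 1 := congrArg Subtype.val h2
    exact (inv_mul_eq_one.1 h3).symm
  obtain ⟨⟨c, hc⟩, hcc⟩ := exists_comm_ne (not_comm_of_min hss hM hT) h1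
  apply hcc
  apply Subtype.ext
  change b⁻¹ * a * c = c * (b⁻¹ * a)
  have h2 := h c hc
  calc b⁻¹ * a * c = b⁻¹ * (a * c * a⁻¹) * a := by group
    _ = b⁻¹ * (b * c * b⁻¹) * a := by rw [h2]
    _ = c * (b⁻¹ * a) := by group

include hss hK

/-- membership in matched factors -/
theorem mem_fac {v w : {T : Subgroup G // IsSocleFactor T}} {t t' s s' : G}
    (ht : t ∈ v.1) (ht' : t' ∈ w.1) (h1 : t ≠ 1) (h1' : t' ≠ 1)
    (h : Z.F [(t, t'), (s, s')] []) : s ∈ v.1 ↔ s' ∈ w.1 := by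
  rw [← nclS_eq hss v.2 ht h1, ← nclS_eq hss w.2 ht' h1']
  exact Z.toSys0.nclS_iff (by omega) h

include hZ

theorem act_of {y : G} (hy : Z.Pin y) {v w : {T : Subgroup G // IsSocleFactor T}}
    (h : Z.F [] [(v, w)]) (ha : ∃ s ∈ v.1, y * s ≠ s * y) : ∃ s ∈ w.1, y * s ≠ s * y := by
  obtain ⟨t, ht, t', ht', h1, h1', h2⟩ := (hZ _ _ _).1 h
  obtain ⟨s, hs, hys⟩ := ha
  obtain ⟨s', h3⟩ := Z.moveG h2 (by simp; omega) s
  have h4 := (mem_fac hss hK Z ht ht' h1 h1' (Z.monoA h3 (by simp) :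
    Z.F [(t, t'), (s, s')] [])).1 hs
  refine ⟨s', h4, fun h5 => hys ?_⟩
  have h6 := hy.place h3 (by simp; omega)
  have h7 := Z.place_mul h6 (by simp; omega) (a := y) (a' := y) (b := s) (b' := s')
    (by simp) (by simp)
  have h8 := Z.place_mul h7 (by simp; omega) (a := s) (a' := s') (b := y) (b' := y)
    (by simp) (by simp)
  have h9 := (Z.toSys0.eq (Z.monoA h8 (by simp) :
    Z.F [(y * s, y * s'), (s * y, s' * y)] [])).2 h5
  exact h9

theorem act_iff {y : G} (hy : Z.Pin y) {v w : {T : Subgroup G // IsSocleFactor T}}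
    (h : Z.F [] [(v, w)]) : (∃ s ∈ v.1, y * s ≠ s * y) ↔ (∃ s ∈ w.1, y * s ≠ s * y) :=
  ⟨act_of hss hK Z hZ hy h, act_of hss hK Z hZ hy (Z.symmV h)⟩

theorem lab_of {y h0 : G} (hy : Z.Pin y) (hh : Z.Pin h0)
    {v w : {T : Subgroup G // IsSocleFactor T}} (h : Z.F [] [(v, w)])
    (ha : ∀ z ∈ v.1, h0 * z * h0⁻¹ = y * z * y⁻¹) :
    ∀ z ∈ w.1, h0 * z * h0⁻¹ = y * z * y⁻¹ := by
  obtain ⟨t, ht, t', ht', h1, h1', h2⟩ := (hZ _ _ _).1 h
  intro z' hz'
  obtain ⟨z, h3⟩ := Z.back h2 (by simp; omega) z'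
  have h4 := (mem_fac hss hK Z ht ht' h1 h1' (Z.monoA h3 (by simp) :
    Z.F [(t, t'), (z, z')] [])).2 hz'
  have h5 := hy.place (hh.place h3 (by simp; omega)) (by simp; omega)
  have h6 := Z.place_conj h5 (by simp; omega) (a := h0) (a' := h0) (b := z) (b' := z')
    (by simp) (by simp)
  have h7 := Z.place_conj h6 (by simp; omega) (a := y) (a' := y) (b := z) (b' := z')
    (by simp) (by simp)
  exact Z.eqG (Z.monoA h7 (by simp) :
    Z.F [(h0 * z * h0⁻¹, h0 * z' * h0⁻¹), (y * z * y⁻¹, y * z' * y⁻¹)] []) (ha z h4)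

theorem lab_iff {y h0 : G} (hy : Z.Pin y) (hh : Z.Pin h0)
    {v w : {T : Subgroup G // IsSocleFactor T}} (h : Z.F [] [(v, w)]) :
    (∀ z ∈ v.1, h0 * z * h0⁻¹ = y * z * y⁻¹) ↔ (∀ z ∈ w.1, h0 * z * h0⁻¹ = y * z * y⁻¹) :=
  ⟨lab_of hss hK Z hZ hy hh h, lab_of hss hK Z hZ hy hh (Z.symmV h)⟩

variable {D : ℕ} (x : Fin D → G) (hx : ∀ i, Z.Pin (x i))
  (hcov : ∀ R : Subgroup G, IsSocleFactor R → (∃ a ∈ R, ∃ b ∈ R, a * b ≠ b * a) →
      ∀ ρ ∈ R, ∃ h ∈ Subgroup.closure (Set.range x), ∀ z ∈ R, h * z * h⁻¹ = ρ * z * ρ⁻¹)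

include hx hcov

/-- elements of a named factor are pinned -/
theorem pin_factor {v : {T : Subgroup G // IsSocleFactor T}}
    (hv : ∀ w, Z.F [] [(v, w)] → v = w) {z : G} (hz : z ∈ v.1) : Z.Pin z := by
  intro z' h
  by_cases hz1 : z = 1
  · rw [hz1] at h ⊢
    exact BF.pin_one z' h
  have hz1' : z' ≠ 1 := fun h3 => hz1 ((Z.toSys0.eq_one_iff (by omega) h).2 h3)
  have hfac : Fac z' := Z.toSys0.fac_inv (by omega) h ((fac_iff hss z).2 ⟨hz1, v.1, v.2, hz⟩)
  obtain ⟨-, T, hT, hz'T⟩ := (fac_iff hss z').1 hfac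
  have h2 : Z.F [] [(v, ⟨T, hT⟩)] := (hZ _ _ _).2 ⟨z, hz, z', hz'T, hz1, hz1', h⟩
  have h3 := hv _ h2
  have hz' : z' ∈ v.1 := by rw [h3]; exact hz'T
  obtain ⟨M, hM, hvM⟩ := v.2
  obtain ⟨a, b, hab⟩ := not_comm_of_min hss hM hvM
  obtain ⟨h0, hh, ha⟩ := hcov v.1 v.2 ⟨a, a.2, b, b.2, fun h => hab (Subtype.ext h)⟩ z hz
  have hpin := BF.pin_closure (Z := Z) (by omega) hx hh
  apply factor_cent hss hz' hz
  intro u' hu'
  obtain ⟨u, h4⟩ := Z.back h (by simp; omega) u'
  have h5 := (mem_fac hss hK Z hz hz' hz1 hz1' (Z.monoA h4 (by simp) :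
    Z.F [(z, z'), (u, u')] [])).2 hu'
  have h6 := hpin.place h4 (by simp; omega)
  have h7 := Z.place_conj h6 (by simp; omega) (a := h0) (a' := h0) (b := u) (b' := u')
    (by simp) (by simp)
  have h8 := Z.place_conj h7 (by simp; omega) (a := z) (a' := z') (b := u) (b' := u')
    (by simp) (by simp)
  have h9 := Z.eqG (Z.monoA h8 (by simp) :
    Z.F [(h0 * u * h0⁻¹, h0 * u' * h0⁻¹), (z * u * z⁻¹, z' * u' * z'⁻¹)] []) (ha u h5)
  rw [← h9]
  exact ha u' hu'

/-- all elements of a recognized minimal normal subgroup are pinned -/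
theorem pin_min
    (hnam : ∀ v w, w ∈ MulAction.orbit G v → Z.F [] [(v, w)] → v = w)
    {M : Subgroup G} (hM : IsMinNormal M)
    (hMinv : ∀ g g', Z.F [(g, g')] [] → g ∈ M → g' ∈ M) {m : G} (hm : m ∈ M) : Z.Pin m := by
  have hv : ∀ v : {T : Subgroup G // IsSocleFactor T}, v.1 ≤ M →
      ∀ w, Z.F [] [(v, w)] → v = w := by
    intro v hvM w h
    obtain ⟨t, ht, t', ht', h1, h1', h2⟩ := (hZ _ _ _).1 h
    refine hnam v w (factor_conj hss hM hvM ?_) h
    rw [← nclS_eq hss w.2 ht' h1']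
    have h3 : t' ∈ M := hMinv t t' h2 (hvM ht)
    rw [nclS, Subgroup.closure_le]
    rintro _ ⟨g, -, rfl⟩
    exact hM.2.1.conj_mem _ h3 g
  obtain ⟨T, hT⟩ := exists_minNormalIn hM
  have hex : ∃ t, t ∈ T ∧ t ≠ 1 := by
    by_contra hcon
    push Not at hcon
    exact hT.2.1 ((Subgroup.eq_bot_iff_forall _).2 hcon)
  obtain ⟨t, ht, ht1⟩ := hex
  have h1 : ncl t = M := by
    apply hM.2.2 _ (ncl_normal t) (ncl_le hM.2.1 (hT.1 ht))
    intro hb
    have := self_mem_ncl t
    rw [hb, Subgroup.mem_bot] at this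
    exact ht1 this
  rw [← h1] at hm
  -- induction over the closure
  unfold ncl at hm
  induction hm using Subgroup.closure_induction with
  | mem y hy =>
    obtain ⟨g, rfl⟩ := hy
    refine pin_factor hss hK Z hZ x hx hcov (v := g • ⟨T, M, hM, hT⟩) (hv _ ?_)
      (cj_mem (T := T) ht)
    rintro u hu
    have hu' : g⁻¹ * u * g ∈ T := mem_cj.1 hu
    have := hM.2.1.conj_mem _ (hT.1 hu') g
    simpa [mul_assoc] using this
  | one => exact BF.pin_one
  | mul a b _ _ ha hb => exact BF.Pin.mul (by omega) ha hb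
  | inv a _ ha => exact BF.Pin.inv (by omega) ha

/-- elements acting trivially on the minimal normal subgroups outside `J` are pinned, when the
members of `J` are recognized -/
theorem pin_J
    (hnam : ∀ v w, w ∈ MulAction.orbit G v → Z.F [] [(v, w)] → v = w)
    {J : Set (Subgroup G)} (hJ : ∀ M ∈ J, IsMinNormal M)
    (hJinv : ∀ M ∈ J, ∀ g g', Z.F [(g, g')] [] → g ∈ M → g' ∈ M) {g : G}
    (hg : ∀ M, IsMinNormal M → M ∉ J → ∀ z ∈ M, g * z = z * g) : Z.Pin g := by
  intro g' h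
  have hpin : ∀ M ∈ J, ∀ z ∈ M, Z.Pin z := fun M hMJ z hz =>
    pin_min hss hK Z hZ x hx hcov hnam (hJ M hMJ) (hJinv M hMJ) hz
  have key : g⁻¹ * g' = 1 := by
    apply soc_centralizer hss
    intro z hz
    have hle : soc G ≤ Subgroup.centralizer ({g⁻¹ * g'} : Set G) := by
      refine iSup_le ?_
      rintro ⟨T, M, hM, hT⟩ z hz
      rw [Subgroup.mem_centralizer_singleton_iff]
      by_cases hMJ : M ∈ J
      · have hp : Z.Pin z := hpin M hMJ z (hT.1 hz)
        have hp2 : Z.Pin (g * z * g⁻¹) := hpin M hMJ _ (hM.2.1.conj_mem _ (hT.1 hz) g)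
        have h3 := hp.place h (by simp; omega)
        have h4 := Z.place_conj h3 (by simp; omega) (a := g) (a' := g') (b := z) (b' := z)
          (by simp) (by simp)
        have h5 := hp2 _ (Z.monoA h4 (by simp) : Z.F [(g * z * g⁻¹, g' * z * g'⁻¹)] [])
        calc z * (g⁻¹ * g') = g⁻¹ * (g * z * g⁻¹) * g' := by group
          _ = g⁻¹ * (g' * z * g'⁻¹) * g' := by rw [h5]
          _ = g⁻¹ * g' * z := by group
      · -- g and g' both centralize M
        have h1 : g * z = z * g := hg M hM hMJ z (hT.1 hz)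
        have h2 : g' * z = z * g' := by
          by_cases hz1 : z = 1
          · rw [hz1, mul_one, one_mul]
          obtain ⟨z0, h3⟩ := Z.back h (by simp; omega) z
          have hz0 : MinEl z0 := by
            have h4 : MinEl z := minEl_of_mem hM (hT.1 hz) hz1
            exact (Z.toSys0.minEl_iff (by omega) (Z.monoA h3 (by simp) :
              Z.F [(z0, z)] [])).2 h4
          have hM0 := ((minEl_iff z0).1 hz0).2
          have hM0J : ncl z0 ∉ J := by
            intro h4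
            have h5 : z ∈ ncl z0 := hJinv _ h4 z0 z (Z.monoA h3 (by simp)) (self_mem_ncl z0)
            have h6 : ncl z = ncl z0 := by
              apply hM0.2.2 _ (ncl_normal z) (ncl_le (ncl_normal z0) h5)
              intro hb
              have := self_mem_ncl z
              rw [hb, Subgroup.mem_bot] at this
              exact hz1 this
            have h7 : ncl z = M := by
              apply hM.2.2 _ (ncl_normal z) (ncl_le hM.2.1 (hT.1 hz))
              intro hb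
              have := self_mem_ncl z
              rw [hb, Subgroup.mem_bot] at this
              exact hz1 this
            rw [← h6, h7] at h4
            exact hMJ h4
          have h4 := hg _ hM0 hM0J z0 (self_mem_ncl z0)
          have h5 := Z.place_mul h3 (by simp; omega) (a := g) (a' := g') (b := z0) (b' := z)
            (by simp) (by simp)
          have h6 := Z.place_mul h5 (by simp; omega) (a := z0) (a' := z) (b := g) (b' := g')
            (by simp) (by simp)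
          exact (Z.toSys0.eq (Z.monoA h6 (by simp) :
            Z.F [(g * z0, g' * z), (z0 * g, z * g')] [])).1 h4
        have h3 : g⁻¹ * z = z * g⁻¹ := by
          rw [inv_mul_eq_iff_eq_mul, ← mul_assoc, h1]; group
        calc z * (g⁻¹ * g') = (z * g⁻¹) * g' := by group
          _ = (g⁻¹ * z) * g' := by rw [h3]
          _ = g⁻¹ * (z * g') := by group
          _ = g⁻¹ * (g' * z) := by rw [h2]
          _ = g⁻¹ * g' * z := by group
    have := hle hz
    rw [Subgroup.mem_centralizer_singleton_iff] at this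
    exact this.symm
  exact (inv_mul_eq_one.1 key).symm

end Fin1

end Pool.Agent.H68.WLN
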