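import Mathlib

set_option autoImplicit false

namespace Pool.Agent.H68.WLN

open Finset

/-- The sum of the inverse class sizes over a set of classes. -/
theorem class_weight {X : Type} [Fintype X] (s : Setoid X) [DecidableEq (Quotient s)]
    (A : Finset (Quotient s)) :
    ∑ x ∈ univ.filter (fun x => Quotient.mk s x ∈ A), (1 / (Nat.card {x' // s.r x x'} : ℚ)) =
      (A.card : ℚ) := by
  classical
  have h1 : ∀ x ∈ univ.filter (fun x => Quotient.mk s x ∈ A), Quotient.mk s x ∈ A := by
    intro x hx
    exact (mem_filter.1 hx).2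
  rw [← Finset.sum_fiberwise_of_maps_to h1]
  have h2 : ∀ q ∈ A, ∑ x ∈ (univ.filter (fun x => Quotient.mk s x ∈ A)).filter
      (fun x => Quotient.mk s x = q), (1 / (Nat.card {x' // s.r x x'} : ℚ)) = 1 := by
    intro q hq
    obtain ⟨x0, rfl⟩ := Quotient.exists_rep q
    have h3 : (univ.filter (fun x => Quotient.mk s x ∈ A)).filter
      (fun x => Quotient.mk s x = Quotient.mk s x0) = univ.filter (fun x => s.r x0 x) := by
      ext x
      simp only [mem_filter, mem_univ, true_and]
      constructor
      · rintro ⟨_, h⟩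
        exact s.iseqv.symm (Quotient.exact h)
      · intro h
        have : Quotient.mk s x = Quotient.mk s x0 := Quotient.sound (s.iseqv.symm h)
        exact ⟨by rw [this]; exact hq, this⟩
    rw [h3]
    have h4 : ∀ x ∈ univ.filter (fun x => s.r x0 x), (1 / (Nat.card {x' // s.r x x'} : ℚ)) =
        1 / (Nat.card {x' // s.r x0 x'} : ℚ) := by
      intro x hx
      have hx' : s.r x0 x := (mem_filter.1 hx).2
      have : Nat.card {x' // s.r x x'} = Nat.card {x' // s.r x0 x'} := by
        apply Nat.card_congr
        apply Equiv.subtypeEquivRight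
        intro y
        exact ⟨fun h => s.iseqv.trans hx' h, fun h => s.iseqv.trans (s.iseqv.symm hx') h⟩
      rw [this]
    rw [Finset.sum_congr rfl h4, Finset.sum_const, nsmul_eq_mul]
    have h5 : Nat.card {x' // s.r x0 x'} = (univ.filter (fun x => s.r x0 x)).card := by
      rw [Nat.card_eq_fintype_card, Fintype.card_subtype]
    rw [h5]
    have h6 : (univ.filter (fun x => s.r x0 x)).card ≠ 0 := by
      rw [Finset.card_ne_zero]
      exact ⟨x0, mem_filter.2 ⟨mem_univ _, s.iseqv.refl x0⟩⟩
    have h7 : ((univ.filter (fun x => s.r x0 x)).card : ℚ) ≠ 0 := by exact_mod_cast h6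
    field_simp
  rw [Finset.sum_congr rfl h2]
  simp

theorem class_bij {X Y : Type} [Finite X] [Finite Y] (s : Setoid X) (t : Setoid Y) (f : X ≃ Y)
    (hf : ∀ x, Nat.card {x' // s.r x x'} = Nat.card {y // t.r (f x) y}) :
    ∃ g : Quotient s ≃ Quotient t, ∀ q, ∃ x, Quotient.mk s x = q ∧ Quotient.mk t (f x) = g q := by
  classical
  haveI := Fintype.ofFinite X
  haveI := Fintype.ofFinite Y
  haveI : Fintype (Quotient s) := Fintype.ofFinite _
  haveI : Fintype (Quotient t) := Fintype.ofFinite _
  let N : Quotient s → Finset (Quotient t) := fun q =>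
    (univ.filter (fun x => Quotient.mk s x = q)).image (fun x => Quotient.mk t (f x))
  have hN : ∀ q r, r ∈ N q → ∃ x, Quotient.mk s x = q ∧ Quotient.mk t (f x) = r := by
    intro q r h
    obtain ⟨x, hx, hr⟩ := mem_image.1 h
    exact ⟨x, (mem_filter.1 hx).2, hr⟩
  -- transfer of the weights
  have htr : ∀ A : Finset (Quotient s), (A.card : ℚ) =
      ∑ y ∈ univ.filter (fun y => Quotient.mk s (f.symm y) ∈ A),
        (1 / (Nat.card {y' // t.r y y'} : ℚ)) := by
    intro A
    rw [← class_weight s A]
    refine Finset.sum_bij (fun x _ => f x) ?_ ?_ ?_ ?_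
    · intro x hx
      rw [mem_filter] at hx ⊢
      refine ⟨mem_univ _, ?_⟩
      rw [f.symm_apply_apply]; exact hx.2
    · intro x _ y _ h
      exact f.injective h
    · intro y hy
      rw [mem_filter] at hy
      exact ⟨f.symm y, mem_filter.2 ⟨mem_univ _, hy.2⟩, f.apply_symm_apply y⟩
    · intro x _
      rw [hf x]
  have hhall : ∀ A : Finset (Quotient s), A.card ≤ (A.biUnion N).card := by
    intro A
    have h1 : (A.card : ℚ) ≤ ((A.biUnion N).card : ℚ) := by
      rw [htr A, ← class_weight t (A.biUnion N)]
      apply Finset.sum_le_sum_of_subset_of_nonneg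
      · intro y hy
        rw [mem_filter] at hy ⊢
        refine ⟨mem_univ _, mem_biUnion.2 ⟨_, hy.2, ?_⟩⟩
        refine mem_image.2 ⟨f.symm y, mem_filter.2 ⟨mem_univ _, rfl⟩, ?_⟩
        rw [f.apply_symm_apply]
      · intro y _ _
        positivity
    exact_mod_cast h1
  obtain ⟨g, hg1, hg2⟩ := (Finset.all_card_le_biUnion_card_iff_exists_injective N).1 hhall
  have hcard : Fintype.card (Quotient s) = Fintype.card (Quotient t) := by
    have h1 := htr univ
    have h2 := class_weight t univ
    have h3 : (Fintype.card (Quotient s) : ℚ) = (Fintype.card (Quotient t) : ℚ) := by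
      rw [← Finset.card_univ, ← Finset.card_univ, h1, ← h2]
      apply Finset.sum_congr _ (fun _ _ => rfl)
      ext y
      simp
    exact_mod_cast h3
  have hbij : Function.Bijective g := (Fintype.bijective_iff_injective_and_card g).2 ⟨hg1, hcard⟩
  exact ⟨Equiv.ofBijective g hbij, fun q => hN q _ (hg2 q)⟩

end Pool.Agent.H68.WLN
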