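import Pool.Agent.H68.N.Inv
import Pool.Agent.H68.N.Fac
import Pool.Agent.H68.N.Hall

set_option autoImplicit false

namespace Pool.Agent.H68.WLN

open Pool.Agent.H68.WL

section
variable {G : Type} [Group G]

theorem ncl_eq_iff {x y : G} (hx : MinEl x) (hy : MinEl y) : ncl x = ncl y ↔ y ∈ ncl x := by
  constructor
  · intro h
    rw [h]; exact self_mem_ncl y
  · intro h
    exact le_antisymm (ncl_le (ncl_normal y) (hx.2 y h hy.1)) (ncl_le (ncl_normal x) h)

theorem exists_minEl {M : Subgroup G} (hM : IsMinNormal M) : ∃ x, MinEl x ∧ ncl x = M := by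
  obtain ⟨x, hx⟩ := Subgroup.ne_bot_iff_exists_ne_one.1 hM.1
  have hx1 : (x : G) ≠ 1 := fun h => hx (Subtype.ext h)
  have h1 := minEl_of_mem hM x.2 hx1
  refine ⟨x, h1, ?_⟩
  exact hM.2.2 _ (ncl_normal _) (ncl_le hM.2.1 x.2) ((minEl_iff _).1 h1).2.1

theorem MinEl.min {x : G} (hx : MinEl x) : IsMinNormal (ncl x) := ((minEl_iff x).1 hx).2

/-- Nontrivial elements of `ncl x` generate the same subgroup. -/
theorem MinEl.of_mem {x y : G} (hx : MinEl x) (hy : y ∈ ncl x) (hy1 : y ≠ 1) : MinEl y :=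
  minEl_of_mem hx.min hy hy1

/-- An element commuting with all minimal elements is trivial. -/
theorem eq_one_of_comm [Finite G]
    (hss : ∀ N : Subgroup G, N.Normal → (∀ x ∈ N, ∀ y ∈ N, x * y = y * x) → N = ⊥)
    {g : G} (hg : ∀ x, MinEl x → g * x = x * g) : g = 1 := by
  apply soc_centralizer hss
  intro t ht
  rw [← socle_eq'] at ht
  unfold socle at ht
  induction ht using Subgroup.closure_induction with
  | mem x hx => exact hg x hx
  | one => simp
  | mul x y _ _ hx hy =>
    rw [← mul_assoc, hx, mul_assoc, hy, mul_assoc]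
  | inv x _ hx =>
    have : x⁻¹ * (g * x) * x⁻¹ = x⁻¹ * (x * g) * x⁻¹ := by rw [hx]
    have h1 : x⁻¹ * (g * x) * x⁻¹ = x⁻¹ * g := by group
    have h2 : x⁻¹ * (x * g) * x⁻¹ = g * x⁻¹ := by group
    rw [h1, h2] at this
    exact this.symm

end

section Reps

variable {G H : Type} [Group G] [Finite G] [Group H] [Finite H] {K : ℕ}

/-- Matching representatives of the minimal normal subgroups. -/
theorem exists_reps (hK : 12 ≤ K) (Z : Sys G H K) (h0 : Z.S []) :
    ∃ (I : Type) (t : I → G) (t' : I → H), (∀ i, MinEl (t i)) ∧ (∀ i, MinEl (t' i)) ∧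
      (∀ i, Z.S [(t i, t' i)]) ∧
      (∀ i j, ncl (t i) = ncl (t j) → i = j) ∧ (∀ i j, ncl (t' i) = ncl (t' j) → i = j) ∧
      (∀ x, MinEl x → ∃ i, ncl (t i) = ncl x) ∧ (∀ x, MinEl x → ∃ i, ncl (t' i) = ncl x) := by
  classical
  have hK8 : 8 ≤ K := by omega
  obtain ⟨f, hf⟩ := Z.move h0 (by simp; omega)
  have hiff : ∀ g, MinEl g ↔ MinEl (f g) := fun g => Z.toSys0.minEl_iff hK8 (hf g)
  let fX : {t : G // MinEl t} ≃ {t : H // MinEl t} := f.subtypeEquiv hiff
  let s : Setoid {t : G // MinEl t} := ⟨fun x y => ncl x.1 = ncl y.1,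
    ⟨fun _ => rfl, fun h => h.symm, fun h h' => h.trans h'⟩⟩
  let s' : Setoid {t : H // MinEl t} := ⟨fun x y => ncl x.1 = ncl y.1,
    ⟨fun _ => rfl, fun h => h.symm, fun h h' => h.trans h'⟩⟩
  have hcard : ∀ x, Nat.card {x' // s.r x x'} = Nat.card {y // s'.r (fX x) y} := by
    intro x
    obtain ⟨f2, hf2⟩ := Z.move (hf x.1) (by simp; omega)
    have hiff2 : ∀ g, MinEl g ↔ MinEl (f2 g) :=
      fun g => Z.toSys0.minEl_iff hK8 (Z.mono (hf2 g) (by simp) : Z.S [(g, f2 g)])
    let f2X : {t : G // MinEl t} ≃ {t : H // MinEl t} := f2.subtypeEquiv hiff2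
    refine Nat.card_congr (f2X.subtypeEquiv ?_)
    intro y
    change ncl x.1 = ncl y.1 ↔ ncl (fX x).1 = ncl (f2X y).1
    rw [ncl_eq_iff x.2 y.2, ncl_eq_iff (fX x).2 (f2X y).2]
    exact Z.toSys0.ncl_iff hK8 (Z.toSys0.swap (hf2 y.1))
  obtain ⟨g, hg⟩ := class_bij s s' fX hcard
  choose r hr1 hr2 using hg
  refine ⟨Quotient s, fun i => (r i).1, fun i => (fX (r i)).1, fun i => (r i).2,
    fun i => (fX (r i)).2, fun i => hf (r i).1, ?_, ?_, ?_, ?_⟩
  · intro i j h
    rw [← hr1 i, ← hr1 j]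
    exact Quotient.sound h
  · intro i j h
    apply g.injective
    rw [← hr2 i, ← hr2 j]
    exact Quotient.sound h
  · intro x hx
    refine ⟨Quotient.mk s ⟨x, hx⟩, ?_⟩
    have := hr1 (Quotient.mk s ⟨x, hx⟩)
    exact Quotient.exact this
  · intro x hx
    refine ⟨g.symm (Quotient.mk s' ⟨x, hx⟩), ?_⟩
    have := hr2 (g.symm (Quotient.mk s' ⟨x, hx⟩))
    rw [g.apply_symm_apply] at this
    exact Quotient.exact this

end Reps

theorem sys_iso {G H : Type} [Group G] [Finite G] [Group H] [Finite H]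
    (hss : ∀ N : Subgroup G, N.Normal → (∀ x ∈ N, ∀ y ∈ N, x * y = y * x) → N = ⊥)
    {K : ℕ} (hK : 12 ≤ K) (Z : Sys G H K) (h0 : Z.S [])
    (hpin : ∀ (t m m2 : G) (t' m' : H), MinEl t → m ∈ ncl t → Z.S [(m, m'), (t, t')] →
      Z.S [(m2, m'), (t, t')] → m2 = m)
    (P : Set G) (hP : ∀ g ∈ P, ∀ (g2 : G) (h : H), Z.S [(g, h)] → Z.S [(g2, h)] → g2 = g)
    (hgen : Subgroup.closure ({g | ∃ M : Subgroup G, IsMinNormal M ∧
      ∀ M' : Subgroup G, IsMinNormal M' → M' ≠ M → ∀ z ∈ M', g * z = z * g} ∪ P) = ⊤) :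
    Nonempty (G ≃* H) := by
  classical
  have hK8 : 8 ≤ K := by omega
  -- `H` is semisimple
  have hssH : ∀ N : Subgroup H, N.Normal → (∀ x ∈ N, ∀ y ∈ N, x * y = y * x) → N = ⊥ := by
    apply hss_of_sab
    rw [eq_bot_iff]
    intro y' hy'
    obtain ⟨y, hy⟩ := Z.toSys0.back h0 (by simp; omega) y'
    have h1 := (Z.toSys0.sab_iff hK8 hy).2 hy'
    rw [sab_of_hss hss, Subgroup.mem_bot] at h1
    rw [Subgroup.mem_bot]
    exact (Z.toSys0.eq_one_iff hK8 hy).1 h1
  obtain ⟨I, t, t', ht, ht', hS, hinj, hinj', hsur, hsur'⟩ := exists_reps hK Z h0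
  -- the relation between the elements of the minimal normal subgroups
  have hR : ∀ i m m', m ∈ ncl (t i) → Z.S [(m, m'), (t i, t' i)] → ∀ m'',
      Z.S [(m, m''), (t i, t' i)] → m'' = m' := by
    intro i m m1 hm h1 m2 h2
    obtain ⟨n, hn⟩ := Z.toSys0.back h1 (by simp; omega) m2
    have h3 : n = m := by
      refine hpin (t i) m n (t' i) m2 (ht i) hm h2 ?_
      refine Z.mono hn ?_
      intro p hp
      simp only [List.mem_cons, List.not_mem_nil, or_false] at hp ⊢
      tauto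
    have h4 : Z.S [(n, m2), (m, m1)] := by
      refine Z.mono hn ?_
      intro p hp
      simp only [List.mem_cons, List.not_mem_nil, or_false] at hp ⊢
      tauto
    exact (Z.eq h4).1 h3
  have hRex : ∀ i m, ∃ m', Z.S [(m, m'), (t i, t' i)] :=
    fun i m => Z.toSys0.forth (hS i) (by simp; omega) m
  have hRex' : ∀ i m', ∃ m, Z.S [(m, m'), (t i, t' i)] :=
    fun i m' => Z.toSys0.back (hS i) (by simp; omega) m'
  have hRmem : ∀ i m m', Z.S [(m, m'), (t i, t' i)] → (m ∈ ncl (t i) ↔ m' ∈ ncl (t' i)) :=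
    fun i m m' h => Z.toSys0.ncl_iff hK8 (Z.toSys0.swap h)
  have hRl : ∀ i m m', m ∈ ncl (t i) → Z.S [(m, m'), (t i, t' i)] → ∀ m2,
      Z.S [(m2, m'), (t i, t' i)] → m2 = m :=
    fun i m m' hm h m2 h2 => hpin (t i) m m2 (t' i) m' (ht i) hm h h2
  -- joint placement
  have hJ : ∀ (A : List (G × H)) i m m', Z.S A → A.length < K → (t i, t' i) ∈ A →
      m ∈ ncl (t i) → Z.S [(m, m'), (t i, t' i)] → Z.S ((m, m') :: A) := by
    intro A i m m' hA hl hmem hm h
    obtain ⟨m'', h2⟩ := Z.toSys0.forth hA hl m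
    have h3 : Z.S [(m, m''), (t i, t' i)] := by
      refine Z.mono h2 ?_
      intro p hp
      simp only [List.mem_cons, List.not_mem_nil, or_false] at hp
      rcases hp with rfl | rfl
      · exact List.mem_cons_self
      · exact List.mem_cons_of_mem _ hmem
    rw [hR i m m' hm h m'' h3] at h2
    exact h2
  -- compatibility
  let Φ : G → H → Prop := fun g h => ∀ i m m', m ∈ ncl (t i) → Z.S [(m, m'), (t i, t' i)] →
    Z.S [(g * m * g⁻¹, h * m' * h⁻¹), (t i, t' i)]
  have hΦone : Φ 1 1 := by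
    intro i m m' hm h
    simpa using h
  have hΦmul : ∀ g1 h1 g2 h2, Φ g1 h1 → Φ g2 h2 → Φ (g1 * g2) (h1 * h2) := by
    intro g1 h1 g2 h2 p1 p2 i m m' hm h
    have a1 := p2 i m m' hm h
    have a2 := p1 i _ _ ((ncl_normal (t i)).conj_mem m hm g2) a1
    have e1 : g1 * (g2 * m * g2⁻¹) * g1⁻¹ = g1 * g2 * m * (g1 * g2)⁻¹ := by group
    have e2 : h1 * (h2 * m' * h2⁻¹) * h1⁻¹ = h1 * h2 * m' * (h1 * h2)⁻¹ := by group
    rw [e1, e2] at a2
    exact a2
  have hΦinv : ∀ g h, Φ g h → Φ g⁻¹ h⁻¹ := by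
    intro g h p i m m' hm hmm
    obtain ⟨n', hn'⟩ := hRex i (g⁻¹ * m * g⁻¹⁻¹)
    have hn : g⁻¹ * m * g⁻¹⁻¹ ∈ ncl (t i) := (ncl_normal (t i)).conj_mem m hm g⁻¹
    have a1 := p i _ _ hn hn'
    have e1 : g * (g⁻¹ * m * g⁻¹⁻¹) * g⁻¹ = m := by group
    rw [e1] at a1
    have a2 := hR i m m' hm hmm _ a1
    have e2 : n' = h⁻¹ * m' * h⁻¹⁻¹ := by
      rw [← a2]; group
    rw [← e2]
    exact hn'
  have hΦr : ∀ g h h2, Φ g h → Φ g h2 → h2 = h := by
    intro g h h2 p p2
    have h1 : h⁻¹ * h2 = 1 := by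
      apply eq_one_of_comm hssH
      intro x hx
      obtain ⟨i, hi⟩ := hsur' x hx
      obtain ⟨m, hm⟩ := hRex' i x
      have hxm : x ∈ ncl (t' i) := by rw [hi]; exact self_mem_ncl x
      have hmm : m ∈ ncl (t i) := (hRmem i m x hm).2 hxm
      have a1 := p i m x hmm hm
      have a2 := p2 i m x hmm hm
      have a3 := hR i _ _ ((ncl_normal (t i)).conj_mem m hmm g) a1 _ a2
      calc h⁻¹ * h2 * x = h⁻¹ * (h2 * x * h2⁻¹) * h2 := by group
        _ = h⁻¹ * (h * x * h⁻¹) * h2 := by rw [a3]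
        _ = x * (h⁻¹ * h2) := by group
    exact (inv_mul_eq_one.1 h1).symm
  have hΦl : ∀ g g2 h, Φ g h → Φ g2 h → g2 = g := by
    intro g g2 h p p2
    have h1 : g⁻¹ * g2 = 1 := by
      apply eq_one_of_comm hss
      intro x hx
      obtain ⟨i, hi⟩ := hsur x hx
      have hxm : x ∈ ncl (t i) := by rw [hi]; exact self_mem_ncl x
      obtain ⟨x', hx'⟩ := hRex i x
      have a1 := p i x x' hxm hx'
      have a2 := p2 i x x' hxm hx'
      have a3 := hRl i _ _ ((ncl_normal (t i)).conj_mem x hxm g) a1 _ a2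
      calc g⁻¹ * g2 * x = g⁻¹ * (g2 * x * g2⁻¹) * g2 := by group
        _ = g⁻¹ * (g * x * g⁻¹) * g2 := by rw [a3]
        _ = x * (g⁻¹ * g2) := by group
    exact (inv_mul_eq_one.1 h1).symm
  -- conjugation at a joint position
  have hconj : ∀ g h i, Z.S [(g, h), (t i, t' i)] → ∀ m m', m ∈ ncl (t i) →
      Z.S [(m, m'), (t i, t' i)] → Z.S [(g * m * g⁻¹, h * m' * h⁻¹), (t i, t' i)] := by
    intro g h i hgh m m' hm hmm
    have a1 := hJ _ i m m' hgh (by simp; omega) (by simp) hm hmm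
    have a2 := Z.toSys0.place_conj a1 (by simp; omega) (a := g) (a' := h) (b := m) (b' := m')
      (by simp) (by simp)
    exact Z.mono a2 (by simp)
  -- existence
  have hex : ∀ g : G, ∃ h : H, Φ g h := by
    intro g
    have hg : g ∈ Subgroup.closure ({g | ∃ M : Subgroup G, IsMinNormal M ∧
      ∀ M' : Subgroup G, IsMinNormal M' → M' ≠ M → ∀ z ∈ M', g * z = z * g} ∪ P) := by
      rw [hgen]; exact Subgroup.mem_top g
    induction hg using Subgroup.closure_induction with
    | mem g hg =>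
      rcases hg with hg | hg
      · obtain ⟨M, hM, hg⟩ := hg
        obtain ⟨x, hx, rfl⟩ := exists_minEl hM
        obtain ⟨i₀, hi₀⟩ := hsur x hx
        rw [← hi₀] at hg
        obtain ⟨h, hh⟩ := hRex i₀ g
        refine ⟨h, fun i m m' hm hmm => ?_⟩
        by_cases hi : i = i₀
        · subst hi
          exact hconj g h i hh m m' hm hmm
        · have hne : ncl (t i) ≠ ncl (t i₀) := fun hc => hi (hinj i i₀ hc)
          have c1 := hg (ncl (t i)) (ht i).min hne m hm
          have e1 : g * m * g⁻¹ = m := by rw [c1]; group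
          have hm' : m' ∈ ncl (t' i) := (hRmem i m m' hmm).1 hm
          have c2 : h * m' = m' * h := by
            by_cases hm1 : m' = 1
            · rw [hm1]; simp
            · have hmin : MinEl m' := (ht' i).of_mem hm' hm1
              obtain ⟨z, hz⟩ := Z.toSys0.back hh (by simp; omega) m'
              have hz1 : Z.S [(z, m'), (t i₀, t' i₀)] := by
                refine Z.mono hz ?_
                intro p hp
                simp only [List.mem_cons, List.not_mem_nil, or_false] at hp ⊢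
                tauto
              have hz2 : Z.S [(z, m')] := Z.mono hz (by simp)
              have hzmin : MinEl z := (Z.toSys0.minEl_iff hK8 hz2).2 hmin
              have hzne : ncl z ≠ ncl (t i₀) := by
                intro hc
                have b1 : z ∈ ncl (t i₀) := by rw [← hc]; exact self_mem_ncl z
                have b2 := (hRmem i₀ z m' hz1).1 b1
                have b3 := (ncl_eq_iff (ht' i₀) hmin).2 b2
                have b4 := (ncl_eq_iff (ht' i) hmin).2 hm'
                exact hi (hinj' i i₀ (b4.trans b3.symm))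
              have b5 := hg (ncl z) hzmin.min hzne z (self_mem_ncl z)
              have b6 := Z.toSys0.place_mul hz (by simp; omega) (a := g) (a' := h) (b := z)
                (b' := m') (by simp) (by simp)
              have b7 := Z.toSys0.place_mul b6 (by simp; omega) (a := z) (a' := m') (b := g)
                (b' := h) (by simp) (by simp)
              have b8 : Z.S [(g * z, h * m'), (z * g, m' * h)] := by
                refine Z.mono b7 ?_
                intro p hp
                simp only [List.mem_cons, List.not_mem_nil, or_false] at hp ⊢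
                tauto
              exact (Z.eq b8).1 b5
          have e2 : h * m' * h⁻¹ = m' := by rw [c2]; group
          rw [e1, e2]
          exact hmm
      · obtain ⟨h, hh⟩ := Z.toSys0.forth h0 (by simp; omega) g
        refine ⟨h, fun i => ?_⟩
        obtain ⟨h2, hh2⟩ := hRex i g
        have e : h2 = h := by
          obtain ⟨g2, hg2⟩ := Z.toSys0.back hh (by simp; omega) h2
          have a1 : g2 = g := hP g hg g2 h2 (Z.mono hh2 (by simp)) (Z.mono hg2 (by simp))
          exact (Z.eq hg2).1 a1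
        rw [e] at hh2
        exact hconj g h i hh2
    | one => exact ⟨1, hΦone⟩
    | mul x y _ _ hx hy =>
      obtain ⟨x', hx'⟩ := hx
      obtain ⟨y', hy'⟩ := hy
      exact ⟨x' * y', hΦmul _ _ _ _ hx' hy'⟩
    | inv x _ hx =>
      obtain ⟨x', hx'⟩ := hx
      exact ⟨x'⁻¹, hΦinv _ _ hx'⟩
  choose φ hφ using hex
  have hφmul : ∀ x y, φ (x * y) = φ x * φ y := by
    intro x y
    exact hΦr (x * y) _ _ (hΦmul _ _ _ _ (hφ x) (hφ y)) (hφ (x * y))
  have hφinj : Function.Injective φ := by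
    intro x y hxy
    have h1 := hφ y
    rw [← hxy] at h1
    exact (hΦl x y (φ x) (hφ x) h1).symm
  obtain ⟨f, _⟩ := Z.move h0 (by simp; omega)
  have hcard : Nat.card G = Nat.card H := Nat.card_congr f
  have hbij : Function.Bijective φ :=
    (Nat.bijective_iff_injective_and_card φ).2 ⟨hφinj, hcard⟩
  exact ⟨MulEquiv.ofBijective (MonoidHom.mk' φ hφmul) hbij⟩

end Pool.Agent.H68.WLN
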