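import Pool.Agent.H68.N.Basic
import Pool.Agent.H68.N.Fac

set_option autoImplicit false

namespace Pool.Agent.H68.WLN

open Pool.Agent.H68.WL

section
variable {G : Type} [Group G] [Finite G]

/-- A nontrivial element of a socle factor does not centralise it. -/
theorem pb_center
    (hss : ∀ N : Subgroup G, N.Normal → (∀ x ∈ N, ∀ y ∈ N, x * y = y * x) → N = ⊥)
    {T : Subgroup G} (hT : IsSocleFactor T) {s : G} (hs : s ∈ T) (hs1 : s ≠ 1) :
    ∃ z ∈ T, s * z ≠ z * s := by
  obtain ⟨M, hM, hTM⟩ := hT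
  haveI := isSimple_of_min hM hTM
  obtain ⟨b, hb⟩ := exists_comm_ne (not_comm_of_min hss hM hTM) (a := (⟨s, hs⟩ : T))
    (fun h => hs1 (congrArg Subtype.val h))
  exact ⟨b, b.2, fun h => hb (Subtype.ext h)⟩

theorem pb_ne {T : Subgroup G} (hT : IsSocleFactor T) : ∃ e ∈ T, e ≠ 1 := by
  obtain ⟨M, hM, hTM⟩ := hT
  obtain ⟨x, hx⟩ := Subgroup.ne_bot_iff_exists_ne_one.1 hTM.2.1
  exact ⟨x, x.2, fun h => hx (Subtype.ext h)⟩

theorem pb_nab
    (hss : ∀ N : Subgroup G, N.Normal → (∀ x ∈ N, ∀ y ∈ N, x * y = y * x) → N = ⊥)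
    {T : Subgroup G} (hT : IsSocleFactor T) : ∃ a ∈ T, ∃ b ∈ T, a * b ≠ b * a := by
  obtain ⟨e, he, he1⟩ := pb_ne hT
  obtain ⟨z, hz, h⟩ := pb_center hss hT he he1
  exact ⟨e, he, z, hz, h⟩

theorem pb_act
    (hss : ∀ N : Subgroup G, N.Normal → (∀ x ∈ N, ∀ y ∈ N, x * y = y * x) → N = ⊥)
    {T : Subgroup G} (hT : IsSocleFactor T) {s m : G} (hs : s ∈ T)
    (hm : ∀ z ∈ T, m * z * m⁻¹ = s * z * s⁻¹) :
    (∃ z ∈ T, m * z ≠ z * m) ↔ s ≠ 1 := by
  constructor
  · rintro ⟨z, hz, hne⟩ rfl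
    apply hne
    have h := hm z hz
    simp only [one_mul, inv_one, mul_one] at h
    rwa [mul_inv_eq_iff_eq_mul] at h
  · intro hs1
    obtain ⟨z, hz, hne⟩ := pb_center hss hT hs hs1
    refine ⟨z, hz, fun h => hne ?_⟩
    have h1 := hm z hz
    rw [h] at h1
    rw [mul_inv_cancel_right] at h1
    rw [eq_mul_inv_iff_mul_eq] at h1
    exact h1.symm

theorem exists_bits
    (hss : ∀ N : Subgroup G, N.Normal → (∀ x ∈ N, ∀ y ∈ N, x * y = y * x) → N = ⊥)
    (κ : {T : Subgroup G // IsSocleFactor T} → Col) :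
    ∃ y : Fin 16 → G, ∀ v w : {T : Subgroup G // IsSocleFactor T},
      (∀ b, (∃ s ∈ v.1, y b * s ≠ s * y b) ↔ (∃ s ∈ w.1, y b * s ≠ s * y b)) → κ v = κ w := by
  classical
  choose e he he1 using fun v : {T : Subgroup G // IsSocleFactor T} => pb_ne v.2
  let bit : Col → Fin 16 → Bool := fun c b =>
    if b.1 < 8 then Nat.testBit c.1.1 b.1 else Nat.testBit c.2.1 (b.1 - 8)
  let s : Fin 16 → {T : Subgroup G // IsSocleFactor T} → G := fun b v =>
    if bit (κ v) b = true then e v else 1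
  have hs : ∀ b v, s b v ∈ v.1 := by
    intro b v
    simp only [s]
    split_ifs
    · exact he v
    · exact v.1.one_mem
  choose y hyS hy using fun b => exists_prod (s b) (hs b)
  refine ⟨y, ?_⟩
  have hs1 : ∀ b v, s b v ≠ 1 ↔ bit (κ v) b = true := by
    intro b v
    simp only [s]
    split_ifs with h
    · simp [h, he1 v]
    · simp [h]
  have key : ∀ b v, (∃ z ∈ v.1, y b * z ≠ z * y b) ↔ bit (κ v) b = true := by
    intro b v
    rw [← hs1 b v]
    exact pb_act hss v.2 (hs b v) (hy b v)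
  intro v w h
  have h1 : ∀ b, bit (κ v) b = bit (κ w) b := by
    intro b
    have := h b
    rw [key, key] at this
    exact Bool.eq_iff_iff.2 this
  have big : ∀ a c : Fin 256, (∀ i, i < 8 → Nat.testBit a.1 i = Nat.testBit c.1 i) → a = c := by
    intro a c hac
    apply Fin.ext
    apply Nat.eq_of_testBit_eq
    intro i
    by_cases hi : i < 8
    · exact hac i hi
    · have h256 : 256 ≤ 2 ^ i := by
        calc 256 = 2 ^ 8 := by norm_num
          _ ≤ 2 ^ i := Nat.pow_le_pow_right (by norm_num) (by omega)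
      rw [Nat.testBit_eq_false_of_lt (lt_of_lt_of_le a.2 h256),
        Nat.testBit_eq_false_of_lt (lt_of_lt_of_le c.2 h256)]
  apply Prod.ext
  · apply big
    intro i hi
    have := h1 ⟨i, by omega⟩
    simp only [bit] at this
    rwa [if_pos hi, if_pos hi] at this
  · apply big
    intro i hi
    have := h1 ⟨i + 8, by omega⟩
    simp only [bit] at this
    rw [if_neg (by omega), if_neg (by omega)] at this
    simpa using this

theorem exists_lab
    (hss : ∀ N : Subgroup G, N.Normal → (∀ x ∈ N, ∀ y ∈ N, x * y = y * x) → N = ⊥)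
    {D : ℕ} (x : Fin D → G)
    (hcov : ∀ R : Subgroup G, IsSocleFactor R → (∃ a ∈ R, ∃ b ∈ R, a * b ≠ b * a) →
      ∀ ρ ∈ R, ∃ h ∈ Subgroup.closure (Set.range x), ∀ z ∈ R, h * z * h⁻¹ = ρ * z * ρ⁻¹)
    (t L : ℕ) (J : Set (Subgroup G)) (hJ : ∀ M ∈ J, IsMinNormal M)
    (hJc : J.ncard ≤ t ^ L) (hJt : ∀ M ∈ J, ∀ T, IsMinNormalIn M T → t ≤ Nat.card T) :
    ∃ (b : J → {T : Subgroup G // IsSocleFactor T}) (y0 : G) (yl : Fin L → G),
      (∀ M : J, (b M).1 ≤ M.1) ∧
      (∀ v : {T : Subgroup G // IsSocleFactor T}, (∃ s ∈ v.1, y0 * s ≠ s * y0) ↔ ∃ M, v = b M) ∧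
      (∀ M M' : J, (∀ l, ∀ h ∈ Subgroup.closure (Set.range x),
        ((∀ z ∈ (b M).1, h * z * h⁻¹ = yl l * z * (yl l)⁻¹) ↔
          (∀ z ∈ (b M').1, h * z * h⁻¹ = yl l * z * (yl l)⁻¹))) → M = M') := by
  classical
  choose e he he1 using fun v : {T : Subgroup G // IsSocleFactor T} => pb_ne v.2
  choose T hT using fun M : J => exists_minNormalIn (hJ M.1 M.2)
  let b : J → {T : Subgroup G // IsSocleFactor T} := fun M => ⟨T M, M.1, hJ M.1 M.2, hT M⟩
  have hble : ∀ M : J, (b M).1 ≤ M.1 := fun M => (hT M).1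
  have hbinj : ∀ M M' : J, b M = b M' → M = M' := by
    intro M M' h
    have hTT : T M = T M' := congrArg Subtype.val h
    have h1 := hJ M.1 M.2
    have h2 := hJ M'.1 M'.2
    haveI := h1.2.1
    haveI := h2.2.1
    have hne : M.1 ⊓ M'.1 ≠ ⊥ := by
      intro hb
      apply (hT M).2.1
      rw [eq_bot_iff, ← hb]
      refine le_inf (hT M).1 ?_
      rw [hTT]
      exact (hT M').1
    have e1 := h1.2.2 (M.1 ⊓ M'.1) inferInstance inf_le_left hne
    have e2 := h2.2.2 (M.1 ⊓ M'.1) inferInstance inf_le_right hne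
    exact Subtype.ext (e1.symm.trans e2)
  -- the indicator
  let s0 : {T : Subgroup G // IsSocleFactor T} → G := fun v => if ∃ M, v = b M then e v else 1
  have hs0 : ∀ v, s0 v ∈ v.1 := by
    intro v
    simp only [s0]
    split_ifs
    · exact he v
    · exact v.1.one_mem
  obtain ⟨y0, -, hy0⟩ := exists_prod s0 hs0
  have hs01 : ∀ v, s0 v ≠ 1 ↔ ∃ M, v = b M := by
    intro v
    simp only [s0]
    split_ifs with h
    · simp only [ne_eq, he1 v, not_false_eq_true, true_iff]; exact h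
    · simp only [ne_eq, not_true_eq_false, false_iff]; exact h
  -- the labels
  let C : {T : Subgroup G // IsSocleFactor T} → G → Set G := fun v a =>
    {h | h ∈ Subgroup.closure (Set.range x) ∧ ∀ z ∈ v.1, h * z * h⁻¹ = a * z * a⁻¹}
  have hCinj : ∀ v : {T : Subgroup G // IsSocleFactor T}, ∀ a ∈ v.1, ∀ a' ∈ v.1,
      C v a = C v a' → a = a' := by
    intro v a ha a' ha' h
    obtain ⟨g, hg, hg1⟩ := hcov v.1 v.2 (pb_nab hss v.2) a ha
    have hm : g ∈ C v a := ⟨hg, hg1⟩
    rw [h] at hm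
    by_contra hne
    have h1 : a'⁻¹ * a ∈ v.1 := v.1.mul_mem (v.1.inv_mem ha') ha
    have h2 : a'⁻¹ * a ≠ 1 := by
      intro h3
      exact hne (inv_mul_eq_one.1 h3).symm
    obtain ⟨z, hz, hz1⟩ := pb_center hss v.2 h1 h2
    apply hz1
    have h3 := hm.2 z hz
    rw [hg1 z hz] at h3
    have h4 : a'⁻¹ * (a * z * a⁻¹) * a = a'⁻¹ * (a' * z * a'⁻¹) * a := by rw [h3]
    have e1 : a'⁻¹ * (a * z * a⁻¹) * a = a'⁻¹ * a * z := by group
    have e2 : a'⁻¹ * (a' * z * a'⁻¹) * a = z * (a'⁻¹ * a) := by group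
    rw [e1, e2] at h4
    exact h4
  haveI : Fintype (Fin L → Set G) := Fintype.ofFinite _
  haveI : ∀ M : J, Fintype (Fin L → (b M).1) := fun M => Fintype.ofFinite _
  let Fm : ∀ M : J, (Fin L → (b M).1) → (Fin L → Set G) := fun M a l => C (b M) (a l)
  have hFm : ∀ M : J, Function.Injective (Fm M) := by
    intro M a a' h
    funext l
    have := congrFun h l
    exact Subtype.ext (hCinj (b M) _ (a l).2 _ (a' l).2 this)
  let tt : J → Finset (Fin L → Set G) := fun M => Finset.univ.image (Fm M)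
  have htt : ∀ M : J, J.ncard ≤ (tt M).card := by
    intro M
    have h1 : (tt M).card = Nat.card (b M).1 ^ L := by
      simp only [tt]
      rw [Finset.card_image_of_injective _ (hFm M), Finset.card_univ, ← Nat.card_eq_fintype_card,
        Nat.card_fun, Nat.card_eq_fintype_card (α := Fin L), Fintype.card_fin]
    rw [h1]
    exact hJc.trans (Nat.pow_le_pow_left (hJt M.1 M.2 _ (hT M)) L)
  haveI : Fintype J := Fintype.ofFinite _
  obtain ⟨f, hfi, hf⟩ := (Finset.all_card_le_biUnion_card_iff_exists_injective tt).1 (by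
    intro s
    rcases s.eq_empty_or_nonempty with rfl | ⟨M, hM⟩
    · simp
    · calc s.card ≤ Fintype.card J := Finset.card_le_univ s
        _ = J.ncard := by rw [← Nat.card_eq_fintype_card]; rfl
        _ ≤ (tt M).card := htt M
        _ ≤ (s.biUnion tt).card := Finset.card_le_card (Finset.subset_biUnion_of_mem tt hM))
  have hf' : ∀ M : J, ∃ a : Fin L → (b M).1, Fm M a = f M := by
    intro M
    have := hf M
    simp only [tt, Finset.mem_image, Finset.mem_univ, true_and] at this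
    exact this
  choose a ha using hf'
  let s1 : Fin L → {T : Subgroup G // IsSocleFactor T} → G := fun l v =>
    if h : ∃ M, v = b M then (a h.choose l).1 else 1
  have hs1b : ∀ l M, s1 l (b M) = (a M l).1 := by
    intro l M
    have hex : ∃ M', b M = b M' := ⟨M, rfl⟩
    have h1 : s1 l (b M) = (a hex.choose l).1 := by
      simp only [s1]
      rw [dif_pos hex]
    have h2 : hex.choose = M := (hbinj _ _ hex.choose_spec).symm
    rw [h1, h2]
  have hs1 : ∀ l v, s1 l v ∈ v.1 := by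
    intro l v
    by_cases h : ∃ M, v = b M
    · obtain ⟨M, rfl⟩ := h
      rw [hs1b]
      exact (a M l).2
    · simp only [s1]
      rw [dif_neg h]
      exact v.1.one_mem
  choose yl hylS hyl using fun l => exists_prod (s1 l) (hs1 l)
  refine ⟨b, y0, yl, hble, ?_, ?_⟩
  · intro v
    rw [← hs01 v]
    exact pb_act hss v.2 (hs0 v) (hy0 v)
  · intro M M' h
    apply hfi
    rw [← ha M, ← ha M']
    funext l
    simp only [Fm]
    have hC : ∀ M : J, C (b M) (a M l) = {h | h ∈ Subgroup.closure (Set.range x) ∧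
        ∀ z ∈ (b M).1, h * z * h⁻¹ = yl l * z * (yl l)⁻¹} := by
      intro M
      ext g
      simp only [C, Set.mem_setOf_eq]
      refine and_congr_right fun _ => forall₂_congr fun z hz => ?_
      rw [hyl l (b M) z hz, hs1b]
    rw [hC M, hC M']
    ext g
    simp only [Set.mem_setOf_eq]
    exact and_congr_right fun hg => h l g hg

end

end Pool.Agent.H68.WLN
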