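import Pool.Agent.H68.N.Game
import Pool.Agent.H68.N.Fac
import Pool.Agent.H68.N.Hall

set_option autoImplicit false

namespace Pool.Agent.H68.WLN

open Pool.Agent.H68.WL

/-- Sublists on the right of a `Forall₂`. -/
theorem exists_forall₂_of_subset {X Y : Type} (P : X → Y → Prop) (C : List X) (B B' : List Y)
    (hCB : List.Forall₂ P C B) (h : B' ⊆ B) :
    ∃ C' : List X, List.Forall₂ P C' B' ∧ C' ⊆ C := by
  induction B' with
  | nil => exact ⟨[], List.Forall₂.nil, by simp⟩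
  | cons b B' ih =>
    rw [List.cons_subset] at h
    obtain ⟨C', h1, h2⟩ := ih h.2
    have h3 : ∃ c ∈ C, P c b := by
      have hb := h.1
      clear h ih h1 h2
      induction hCB with
      | nil => simp at hb
      | cons hP _ ih =>
        rw [List.mem_cons] at hb
        rcases hb with rfl | hb
        · exact ⟨_, List.mem_cons_self, hP⟩
        · obtain ⟨c, hc, hc'⟩ := ih hb
          exact ⟨c, List.mem_cons_of_mem _ hc, hc'⟩
    obtain ⟨c, hc, hc'⟩ := h3
    refine ⟨c :: C', List.Forall₂.cons hc' h1, ?_⟩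
    rw [List.cons_subset]
    exact ⟨hc, h2⟩

section

variable {G : Type} [Group G] [Finite G]

/-- The relation between marks and points. -/
def Mk (c : G × G) (b : {T : Subgroup G // IsSocleFactor T} × {T : Subgroup G // IsSocleFactor T}) :
    Prop :=
  c.1 ∈ b.1.1 ∧ c.1 ≠ 1 ∧ c.2 ∈ b.2.1 ∧ c.2 ≠ 1

theorem Sys.toBF
    (hss : ∀ N : Subgroup G, N.Normal → (∀ x ∈ N, ∀ y ∈ N, x * y = y * x) → N = ⊥)
    {K : ℕ} (hK : 10 ≤ K) (Z : Sys G G K) (hsymm : ∀ A, Z.S A → Z.S (A.map Prod.swap))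
    (hfac : ∀ x x', Z.S [(x, x')] → Fac x → Fac x')
    (hsame : ∀ x x' y y', Z.S [(x, x'), (y, y')] → Fac x → y ∈ nclS x → y' ∈ nclS x') :
    ∃ Z' : BF G {T : Subgroup G // IsSocleFactor T} K,
      (∀ A, Z'.F A [] ↔ Z.S A) ∧
      (∀ A v w, Z'.F A [(v, w)] ↔ ∃ t ∈ v.1, ∃ t' ∈ w.1, t ≠ 1 ∧ t' ≠ 1 ∧
        Z.S ((t, t') :: A)) := by
  classical
  -- facts on factors
  have huniq : ∀ (v w : {T : Subgroup G // IsSocleFactor T}) (x : G), x ∈ v.1 → x ∈ w.1 →
      x ≠ 1 → v = w := by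
    intro v w x hv hw hx
    apply Subtype.ext
    rw [← nclS_eq hss v.2 hv hx, nclS_eq hss w.2 hw hx]
  have hFac : ∀ (v : {T : Subgroup G // IsSocleFactor T}) (x : G), x ∈ v.1 → x ≠ 1 → Fac x :=
    fun v x hv hx => (fac_iff hss x).2 ⟨hx, v.1, v.2, hv⟩
  -- the same-factor relation is preserved
  have hsf : ∀ (v w w' : {T : Subgroup G // IsSocleFactor T}) (x x' y y' : G),
      Z.S [(x, x'), (y, y')] → x ∈ v.1 → x ≠ 1 → y ∈ v.1 → x' ∈ w.1 → x' ≠ 1 → y' ∈ w'.1 →
      y' ≠ 1 → w = w' := by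
    intro v w w' x x' y y' hZ hx hx1 hy hx' hx1' hy' hy1'
    have h1 : y ∈ nclS x := by rw [nclS_eq hss v.2 hx hx1]; exact hy
    have h2 := hsame x x' y y' hZ (hFac v x hx hx1) h1
    rw [nclS_eq hss w.2 hx' hx1'] at h2
    exact huniq w w' y' h2 hy' hy1'
  refine ⟨{
    F := fun A B => ∃ C : List (G × G), List.Forall₂ Mk C B ∧ Z.S (C ++ A)
    mono := ?_
    symm := ?_
    eqG := ?_
    eqV := ?_
    mul := ?_
    smul := ?_
    moveG := ?_
    moveV := ?_ }, ?_, ?_⟩
  · rintro A A' B B' ⟨C, hC, hS⟩ hA hB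
    obtain ⟨C', h1, h2⟩ := exists_forall₂_of_subset _ C B B' hC hB
    refine ⟨C', h1, Z.mono hS ?_⟩
    intro z hz
    rw [List.mem_append] at hz ⊢
    rcases hz with hz | hz
    · exact Or.inl (h2 hz)
    · exact Or.inr (hA hz)
  · rintro A B ⟨C, hC, hS⟩
    refine ⟨C.map Prod.swap, ?_, ?_⟩
    · rw [List.forall₂_map_left_iff, List.forall₂_map_right_iff]
      refine hC.imp ?_
      rintro c b ⟨h1, h2, h3, h4⟩
      exact ⟨h3, h4, h1, h2⟩
    · have := hsymm _ hS
      rwa [List.map_append] at this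
  · rintro a a' b b' ⟨C, hC, hS⟩ hab
    rw [List.forall₂_nil_right_iff] at hC
    subst hC
    exact (Z.eq hS).1 hab
  · rintro v v' w w' ⟨C, hC, hS⟩ hvw
    obtain ⟨⟨t, t'⟩, C1, h1, hC1, rfl⟩ := List.forall₂_cons_right_iff.1 hC
    obtain ⟨⟨s, s'⟩, C2, h2, hC2, rfl⟩ := List.forall₂_cons_right_iff.1 hC1
    rw [List.forall₂_nil_right_iff] at hC2
    subst hC2
    obtain ⟨a1, a2, a3, a4⟩ := h1
    obtain ⟨b1, b2, b3, b4⟩ := h2
    simp only at a1 a2 a3 a4 b1 b2 b3 b4
    subst hvw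
    exact hsf v v' w' t t' s s' (by simpa using hS) a1 a2 b1 a3 a4 b3 b4
  · rintro a a' b b' c' ⟨C, hC, hS⟩
    rw [List.forall₂_nil_right_iff] at hC
    subst hC
    exact (Z.mul hS).1 rfl
  · rintro a a' v v' w' ⟨C, hC, hS⟩
    obtain ⟨⟨t, t'⟩, C1, h1, hC1, rfl⟩ := List.forall₂_cons_right_iff.1 hC
    obtain ⟨⟨s, s'⟩, C2, h2, hC2, rfl⟩ := List.forall₂_cons_right_iff.1 hC1
    rw [List.forall₂_nil_right_iff] at hC2
    subst hC2
    obtain ⟨a1, a2, a3, a4⟩ := h1
    obtain ⟨b1, b2, b3, b4⟩ := h2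
    simp only at a1 a2 a3 a4 b1 b2 b3 b4
    simp only [List.cons_append, List.nil_append] at hS
    -- place `a * t`
    obtain ⟨f1, hf1⟩ := Z.move hS (by simp; omega)
    have g1 := hf1 (a * t)
    have e1 : a' * t' = f1 (a * t) := by
      refine (Z.mul (a := a) (b := t) (c := a * t) (Z.mono g1 ?_)).1 rfl
      intro z hz
      simp only [List.mem_cons, List.not_mem_nil, or_false] at hz ⊢
      tauto
    -- place `a * t * a⁻¹`
    obtain ⟨f2, hf2⟩ := Z.move g1 (by simp; omega)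
    have g2 := hf2 (a * t * a⁻¹)
    have e2 : f2 (a * t * a⁻¹) * a' = f1 (a * t) := by
      refine (Z.mul (a := a * t * a⁻¹) (b := a) (c := a * t) (Z.mono g2 ?_)).1 (by group)
      intro z hz
      simp only [List.mem_cons, List.not_mem_nil, or_false] at hz ⊢
      tauto
    have e3 : f2 (a * t * a⁻¹) = a' * t' * a'⁻¹ := by
      rw [e1, ← e2]; group
    rw [e3] at g2
    have g3 : Z.S [(a * t * a⁻¹, a' * t' * a'⁻¹), (s, s')] := by
      refine Z.mono g2 ?_
      intro z hz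
      simp only [List.mem_cons, List.not_mem_nil, or_false] at hz ⊢
      tauto
    refine hsf (a • v) (a' • v') w' _ _ _ _ g3 ?_ ?_ b1 ?_ ?_ b3 b4
    · exact cj_mem a1
    · intro hh
      apply a2
      have : a * t * a⁻¹ = 1 → t = 1 := by
        intro h
        have h' : t = a⁻¹ * (a * t * a⁻¹) * a := by group
        rw [h', h]; group
      exact this hh
    · exact cj_mem a3
    · intro hh
      apply a4
      have h' : t' = a'⁻¹ * (a' * t' * a'⁻¹) * a' := by group
      rw [h', hh]; group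
  · rintro A B ⟨C, hC, hS⟩ hl g
    obtain ⟨f, hf⟩ := Z.move hS (by
      rw [List.length_append, hC.length_eq]; omega)
    refine ⟨f g, C, hC, Z.mono (hf g) ?_⟩
    intro z hz
    simp only [List.mem_cons, List.mem_append] at hz ⊢
    tauto
  · rintro A B ⟨C, hC, hS⟩ hl
    obtain ⟨f, hf⟩ := Z.move hS (by
      rw [List.length_append, hC.length_eq]; omega)
    have hf1 : ∀ g, Z.S [(g, f g)] := fun g => Z.mono (hf g) (by simp)
    have hf1' : ∀ g, Z.S [(f g, g)] := fun g => by simpa using hsymm _ (hf1 g)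
    -- restrict to the elements of the factors
    have hiff : ∀ g, Fac g ↔ Fac (f g) :=
      fun g => ⟨hfac _ _ (hf1 g), hfac _ _ (hf1' g)⟩
    let fX : {t : G // Fac t} ≃ {t : G // Fac t} := f.subtypeEquiv hiff
    have hfX : ∀ x, (fX x).1 = f x.1 := fun x => rfl
    let s : Setoid {t : G // Fac t} := ⟨fun x y => nclS x.1 = nclS y.1,
      ⟨fun _ => rfl, fun h => h.symm, fun h h' => h.trans h'⟩⟩
    -- the factor of an element
    have hfacT : ∀ x : {t : G // Fac t}, ∃ T : {T : Subgroup G // IsSocleFactor T},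
        x.1 ∈ T.1 ∧ x.1 ≠ 1 ∧ nclS x.1 = T.1 := by
      rintro ⟨x, hx⟩
      obtain ⟨h1, T, h2, h3⟩ := (fac_iff hss x).1 hx
      exact ⟨⟨T, h2⟩, h3, h1, nclS_eq hss h2 h3 h1⟩
    choose τ hτ1 hτ2 hτ3 using hfacT
    have hclass : ∀ x y : {t : G // Fac t}, nclS x.1 = nclS y.1 ↔ y.1 ∈ nclS x.1 := by
      intro x y
      constructor
      · intro h
        rw [h, hτ3 y]
        exact hτ1 y
      · intro h
        rw [hτ3 x] at h
        rw [hτ3 x, nclS_eq hss (τ x).2 h (hτ2 y)]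
    have hcard : ∀ x, Nat.card {x' // s.r x x'} = Nat.card {y // s.r (fX x) y} := by
      intro x
      obtain ⟨f2, hf2⟩ := Z.move (hf1 x.1) (by simp; omega)
      have k1 : ∀ g, Z.S [(g, f2 g)] := fun g => Z.mono (hf2 g) (by simp)
      have k1' : ∀ g, Z.S [(f2 g, g)] := fun g => by simpa using hsymm _ (k1 g)
      have k2 : ∀ g, Z.S [(x.1, f x.1), (g, f2 g)] := fun g => Z.mono (hf2 g) (by
        intro z hz
        simp only [List.mem_cons, List.not_mem_nil, or_false] at hz ⊢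
        tauto)
      have k2' : ∀ g, Z.S [(f x.1, x.1), (f2 g, g)] := fun g => by simpa using hsymm _ (k2 g)
      have hiff2 : ∀ g, Fac g ↔ Fac (f2 g) :=
        fun g => ⟨hfac _ _ (k1 g), hfac _ _ (k1' g)⟩
      let f2X : {t : G // Fac t} ≃ {t : G // Fac t} := f2.subtypeEquiv hiff2
      refine Nat.card_congr (f2X.subtypeEquiv ?_)
      intro y
      change nclS x.1 = nclS y.1 ↔ nclS (fX x).1 = nclS (f2X y).1
      rw [hclass, hclass]
      constructor
      · intro h
        exact hsame _ _ _ _ (k2 y.1) x.2 h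
      · intro h
        exact hsame _ _ _ _ (k2' y.1) (fX x).2 h
    obtain ⟨g, hg⟩ := class_bij s s fX hcard
    -- the quotient is the set of factors
    have hmk : ∀ x y : {t : G // Fac t}, Quotient.mk s x = Quotient.mk s y ↔ τ x = τ y := by
      intro x y
      rw [Quotient.eq]
      change nclS x.1 = nclS y.1 ↔ _
      rw [hτ3 x, hτ3 y]
      exact Subtype.ext_iff.symm
    let e : Quotient s ≃ {T : Subgroup G // IsSocleFactor T} := Equiv.ofBijective
      (Quotient.lift τ (fun x y h => (hmk x y).1 (Quotient.sound h))) (by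
        constructor
        · intro q q' h
          obtain ⟨x, rfl⟩ := Quotient.exists_rep q
          obtain ⟨y, rfl⟩ := Quotient.exists_rep q'
          exact (hmk x y).2 h
        · intro T
          have hne : T.1 ≠ ⊥ := by
            obtain ⟨M, hM, hT⟩ := T.2
            exact hT.2.1
          obtain ⟨⟨x, hx⟩, hy⟩ := Subgroup.ne_bot_iff_exists_ne_one.1 hne
          have hx1 : x ≠ 1 := fun h => hy (Subtype.ext h)
          refine ⟨Quotient.mk s ⟨x, hFac T x hx hx1⟩, ?_⟩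
          exact huniq _ _ x (hτ1 ⟨x, hFac T x hx hx1⟩) hx hx1)
    have he : ∀ x, e (Quotient.mk s x) = τ x := fun x => rfl
    refine ⟨(e.symm.trans g).trans e, fun v => ?_⟩
    obtain ⟨x, hx1, hx2⟩ := hg (e.symm v)
    have hv : τ x = v := by rw [← he, hx1, e.apply_symm_apply]
    have hw : τ (fX x) = ((e.symm.trans g).trans e) v := by
      rw [← he, hx2]; rfl
    refine ⟨(x.1, f x.1) :: C, List.Forall₂.cons ⟨?_, hτ2 x, ?_, hτ2 (fX x)⟩ hC, ?_⟩
    · change x.1 ∈ v.1
      rw [← hv]; exact hτ1 x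
    · change (fX x).1 ∈ (((e.symm.trans g).trans e) v).1
      rw [← hw]; exact hτ1 (fX x)
    · exact hf x.1
  · intro A
    constructor
    · rintro ⟨C, hC, hS⟩
      rw [List.forall₂_nil_right_iff] at hC
      subst hC
      exact hS
    · intro h
      exact ⟨[], List.Forall₂.nil, h⟩
  · intro A v w
    constructor
    · rintro ⟨C, hC, hS⟩
      obtain ⟨⟨t, t'⟩, C1, h1, hC1, rfl⟩ := List.forall₂_cons_right_iff.1 hC
      rw [List.forall₂_nil_right_iff] at hC1
      subst hC1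
      exact ⟨t, h1.1, t', h1.2.2.1, h1.2.1, h1.2.2.2, hS⟩
    · rintro ⟨t, ht, t', ht', h1, h1', hS⟩
      exact ⟨[(t, t')], List.Forall₂.cons ⟨ht, h1, ht', h1'⟩ List.Forall₂.nil, hS⟩

end

end Pool.Agent.H68.WLN
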