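import Pool.Agent.H68.N.Name
import Pool.Agent.H68.N.Fin1
import Pool.Agent.H68.N.Peb
import Pool.Agent.H68.N.Cover
import Pool.Agent.H68.N.ToBF
import Pool.Agent.H68.N.Iso

set_option autoImplicit false

namespace Pool.Agent.H68.WLN

open Pool.Agent.H68.WL

theorem exists_Z {G : Type} [Group G] [Finite G]
    (hss : ∀ N : Subgroup G, N.Normal → (∀ x ∈ N, ∀ y ∈ N, x * y = y * x) → N = ⊥)
    {K : ℕ} (hK : 12 ≤ K) (E : Sys G G K) (hs : ∀ A, E.S A → E.S (A.map Prod.swap)) :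
    ∃ Z : BF G {T : Subgroup G // IsSocleFactor T} K, (∀ A, Z.F A [] ↔ E.S A) ∧ IsSoc Z := by
  obtain ⟨Z, h1, h2⟩ := E.toBF hss (by omega) hs
    (fun x x' h hx => E.toSys0.fac_inv (by omega) h hx)
    (fun x x' y y' h _ hy => E.toSys0.nclS_inv (by omega) h hy)
  refine ⟨Z, h1, ?_⟩
  intro A v w
  rw [h2]
  constructor
  · rintro ⟨t, ht, t', ht', a, b, h⟩
    exact ⟨t, ht, t', ht', a, b, (h1 _).2 h⟩
  · rintro ⟨t, ht, t', ht', a, b, h⟩
    exact ⟨t, ht, t', ht', a, b, (h1 _).1 h⟩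

theorem ncl_eq_of_mem {G : Type} [Group G] {M : Subgroup G} (hM : IsMinNormal M) {t : G}
    (ht : t ∈ M) (h1 : t ≠ 1) : ncl t = M := by
  apply hM.2.2 _ (ncl_normal t) (ncl_le hM.2.1 ht)
  intro hb
  have := self_mem_ncl t
  rw [hb, Subgroup.mem_bot] at this
  exact h1 this

theorem main (D t L d : ℕ) {G : Type} [Group G] [Finite G]
    (hss : ∀ N : Subgroup G, N.Normal → (∀ x ∈ N, ∀ y ∈ N, x * y = y * x) → N = ⊥)
    (hD : ∀ (N : Subgroup G) [N.Normal] (R : Subgroup (G ⧸ N)), IsSocleFactor R →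
      (∃ a ∈ R, ∃ b ∈ R, a * b ≠ b * a) → LiftGen D R)
    (J : Set (Subgroup G)) (hJ : ∀ M ∈ J, IsMinNormal M) (hJc : J.ncard ≤ t ^ L)
    (hJt : ∀ M ∈ J, ∀ T, IsMinNormalIn M T → t ≤ Nat.card T) (gen : Fin d → G)
    (hgen : Subgroup.closure ({g | ∃ M : Subgroup G, IsMinNormal M ∧
      ∀ M' : Subgroup G, IsMinNormal M' → M' ≠ M → ∀ z ∈ M', g * z = z * g} ∪
      {g | ∀ M : Subgroup G, IsMinNormal M → M ∉ J → ∀ z ∈ M, g * z = z * g} ∪
      Set.range gen) = ⊤)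
    {k : ℕ} (hk : D + L + d + 30 ≤ k) {H : Type} [Group H] [Finite H]
    (hW : DuplicatorWins k G H) : Nonempty (G ≃* H) := by
  classical
  obtain ⟨x, hx⟩ := exists_cov hD
  obtain ⟨κ, hκ⟩ := naming _ {T : Subgroup G // IsSocleFactor T} G x rfl hx
  obtain ⟨y, hy⟩ := exists_bits hss κ
  obtain ⟨b, y0, yl, hb, hy0, hyl⟩ := exists_lab hss x hx.self t L J hJ hJc hJt
  -- the parameters
  let I : Type := Fin D ⊕ (Fin 16 ⊕ (Unit ⊕ (Fin L ⊕ Fin d)))
  let par : I → G := Sum.elim x (Sum.elim y (Sum.elim (fun _ => y0) (Sum.elim yl gen)))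
  have hcard : Fintype.card I = D + (16 + (1 + (L + d))) := by
    simp [I, Fintype.card_sum]
  let e : I ≃ Fin (Fintype.card I) := Fintype.equivFin I
  obtain ⟨q, Z0, h0, hq⟩ := exists_sys (c := Fintype.card I) (K := 13) (by omega) hW
    (fun i => par (e.symm i))
  obtain ⟨E, hEs, hE⟩ := Z0.toAut
  have hE1 : ∀ a a', E.S [(a, a')] → ∃ h, Z0.S [(a, h)] ∧ Z0.S [(a', h)] := by
    intro a a' h
    obtain ⟨C, h1, h2, h3⟩ := (hE _).1 h
    rcases C with _ | ⟨c, C⟩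
    · simp at h1
    · rcases C with _ | ⟨c', C⟩
      · simp only [List.map_cons, List.map_nil, List.cons.injEq, Prod.mk.injEq, and_true] at h1
        obtain ⟨rfl, rfl⟩ := h1
        exact ⟨c.2.2, h2, h3⟩
      · simp at h1
  have hE2 : ∀ m m2 t m' t', Z0.S [(m, m'), (t, t')] → Z0.S [(m2, m'), (t, t')] →
      E.S [(t, t), (m, m2)] := by
    intro m m2 t m' t' h1 h2
    refine (hE _).2 ⟨[(t, t, t'), (m, m2, m')], rfl, ?_, ?_⟩
    · exact Z0.mono h1 (by simp)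
    · exact Z0.mono h2 (by simp)
  have hE3 : ∀ m m2 m', Z0.S [(m, m')] → Z0.S [(m2, m')] → E.S [(m, m2)] := by
    intro m m2 m' h1 h2
    exact (hE _).2 ⟨[(m, m2, m')], rfl, h1, h2⟩
  have hpar : ∀ i g', E.S [(par i, g')] → g' = par i := by
    intro i g' h
    obtain ⟨a, h1, h2⟩ := hE1 _ _ h
    have h3 := hq (e i) (par i) a h1
    rw [e.symm_apply_apply] at h3
    have h4 := hq (e i) g' a h2
    rw [e.symm_apply_apply] at h4
    exact h4.2 (h3.1 rfl)
  -- part A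
  have hpin : ∀ (t m m2 : G) (t' m' : H), MinEl t → m ∈ ncl t → Z0.S [(m, m'), (t, t')] →
      Z0.S [(m2, m'), (t, t')] → m2 = m := by
    intro t m m2 t' m' ht hm h1 h2
    have h3 := hE2 m m2 t m' t' h1 h2
    obtain ⟨E1, hE1'⟩ := E.rel t t
    have hs1 : ∀ A, E1.S A → E1.S (A.map Prod.swap) := by
      intro A hA
      rw [hE1'] at hA ⊢
      have := hEs _ hA
      simpa using this
    obtain ⟨Z1, z1, z2⟩ := exists_Z hss (le_refl 12) E1 hs1
    have zpin : ∀ i, Z1.Pin (par i) := by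
      intro i g' hg
      rw [z1, hE1'] at hg
      exact hpar i g' (E.mono hg (by simp))
    have zx : ∀ i, Z1.Pin (x i) := fun i => zpin (Sum.inl i)
    have zy : ∀ i, Z1.Pin (y i) := fun i => zpin (Sum.inr (Sum.inl i))
    have zpres : Z1.Pres κ := fun v w h =>
      hy v w (fun b => act_iff hss (le_refl 12) Z1 z2 (zy b) h)
    have hM := ((minEl_iff t).1 ht).2
    have hfin := pin_min hss (le_refl 12) Z1 z2 x zx hx.self
      (fun v w => hκ (le_refl 12) Z1 zx zpres v w) hM (by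
        intro g g' hg hgt
        rw [z1, hE1'] at hg
        exact E.toSys0.ncl_inv (by omega) hg hgt) hm
    apply hfin
    rw [z1, hE1']
    exact h3
  -- part B
  obtain ⟨Z, z1, z2⟩ := exists_Z hss (by omega) E hEs
  have zpin : ∀ i, Z.Pin (par i) := by
    intro i g' hg
    rw [z1] at hg
    exact hpar i g' hg
  have zx : ∀ i, Z.Pin (x i) := fun i => zpin (Sum.inl i)
  have zy : ∀ i, Z.Pin (y i) := fun i => zpin (Sum.inr (Sum.inl i))
  have zy0 : Z.Pin y0 := zpin (Sum.inr (Sum.inr (Sum.inl ())))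
  have zyl : ∀ l, Z.Pin (yl l) := fun l => zpin (Sum.inr (Sum.inr (Sum.inr (Sum.inl l))))
  have zgen : ∀ l, Z.Pin (gen l) := fun l => zpin (Sum.inr (Sum.inr (Sum.inr (Sum.inr l))))
  have zpres : Z.Pres κ := fun v w h =>
    hy v w (fun b => act_iff hss (by omega) Z z2 (zy b) h)
  have hbase : ∀ (M : J) w, Z.F [] [(b M, w)] → b M = w := by
    intro M w h
    obtain ⟨M', rfl⟩ := (hy0 w).1 ((act_iff hss (by omega) Z z2 zy0 h).1 ((hy0 _).2 ⟨M, rfl⟩))
    rw [hyl M M' (fun l h' hh => lab_iff hss (by omega) Z z2 (zyl l)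
      (BF.pin_closure (by omega) zx hh) h)]
  have hJinv : ∀ M ∈ J, ∀ g g', Z.F [(g, g')] [] → g ∈ M → g' ∈ M := by
    intro M hMJ g g' h hg
    have hex : ∃ t, t ∈ (b ⟨M, hMJ⟩).1 ∧ t ≠ 1 := by
      obtain ⟨M1, -, h1⟩ := (b ⟨M, hMJ⟩).2
      by_contra hcon
      push Not at hcon
      exact h1.2.1 ((Subgroup.eq_bot_iff_forall _).2 hcon)
    obtain ⟨t, ht, ht1⟩ := hex
    have hpt : Z.Pin t := pin_factor hss (by omega) Z z2 x zx hx.self (hbase ⟨M, hMJ⟩) ht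
    have htM : ncl t = M := ncl_eq_of_mem (hJ M hMJ) (hb ⟨M, hMJ⟩ ht) ht1
    have h2 := hpt.place h (by simp)
    rw [← htM] at hg ⊢
    exact Z.toSys0.ncl_inv (by omega) h2 hg
  refine sys_iso hss (K := 13) (by omega) Z0 h0 hpin
    ({g | ∀ M : Subgroup G, IsMinNormal M → M ∉ J → ∀ z ∈ M, g * z = z * g} ∪
      Set.range gen) ?_ ?_
  · rintro g (hg | ⟨l, rfl⟩) g2 h h1 h2
    · have hp : Z.Pin g := pin_J hss (by omega) Z z2 x zx hx.self
        (fun v w => hκ (by omega) Z zx zpres v w) hJ hJinv hg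
      apply hp
      rw [z1]
      exact hE3 g g2 h h1 h2
    · apply zgen l
      rw [z1]
      exact hE3 _ g2 h h1 h2
  · rw [← Set.union_assoc]
    exact hgen

end Pool.Agent.H68.WLN
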