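import Pool.Agent.H68.N.Defs

set_option autoImplicit false

namespace Pool.Agent.H68.WLN

open Pool.Agent.H68.WL

/-- Place the parameters, with `K` free pebbles. -/
theorem placeK {c K : ℕ} {G H : Type} [Group G] [Group H]
    (s : Strat (Fin c ⊕ Fin K) G H) (p : Fin c → G) :
    ∃ q : Fin c → H, s.R (Sum.elim p (fun _ => 1)) (Sum.elim q (fun _ => 1)) := by
  classical
  have key : ∀ S : Finset (Fin c), ∃ q : Fin c → H,
      s.R (Sum.elim (fun i => if i ∈ S then p i else 1) (fun _ => 1))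
        (Sum.elim q (fun _ => 1)) := by
    intro S
    induction S using Finset.induction_on with
    | empty =>
      refine ⟨fun _ => 1, ?_⟩
      convert s.one using 1
      · funext x; cases x <;> simp
      · funext x; cases x <;> simp
    | insert a S ha ih =>
      obtain ⟨q, hq⟩ := ih
      obtain ⟨f, hf⟩ := s.move _ _ hq (Sum.inl a)
      refine ⟨Function.update q a (f (p a)), ?_⟩
      convert hf (p a) using 1
      · funext x
        rcases x with i | i
        · by_cases hi : i = a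
          · subst hi; simp
          · simp [Function.update, hi]
        · simp [Function.update]
      · funext x
        rcases x with i | i
        · by_cases hi : i = a
          · subst hi; simp
          · simp [Function.update, hi]
        · simp [Function.update]
  simpa using key Finset.univ

/-- A list with fewer than `K` entries, each on some pebble, leaves a pebble free. -/
theorem exists_free {K : ℕ} {X : Type} (A : List X) (hA : A.length < K) (P : X → Fin K → Prop)
    (h : ∀ z ∈ A, ∃ i, P z i) : ∃ i₀ : Fin K, ∀ z ∈ A, ∃ i, i ≠ i₀ ∧ P z i := by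
  classical
  cases A with
  | nil => exact ⟨⟨0, by simpa using hA⟩, by simp⟩
  | cons a A =>
    have h' : ∀ z : X, ∃ i : Fin K, z ∈ a :: A → P z i := by
      intro z
      by_cases hz : z ∈ a :: A
      · obtain ⟨i, hi⟩ := h z hz
        exact ⟨i, fun _ => hi⟩
      · exact ⟨⟨0, by omega⟩, fun hz' => absurd hz' hz⟩
    choose idx hidx using h'
    have hcard : ((a :: A).toFinset.image idx).card < (Finset.univ : Finset (Fin K)).card := by
      refine lt_of_le_of_lt Finset.card_image_le ?_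
      refine lt_of_le_of_lt (List.toFinset_card_le _) ?_
      simpa using hA
    obtain ⟨i₀, _, hi₀⟩ := Finset.exists_mem_notMem_of_card_lt_card hcard
    refine ⟨i₀, fun z hz => ⟨idx z, ?_, hidx z hz⟩⟩
    rintro rfl
    exact hi₀ (Finset.mem_image_of_mem _ (List.mem_toFinset.2 hz))

theorem exists_sys {c K k : ℕ} (hk : c + K ≤ k) {G H : Type} [Group G] [Group H]
    (h : DuplicatorWins k G H) (p : Fin c → G) :
    ∃ (q : Fin c → H) (Z : Sys G H K), Z.S [] ∧
      ∀ i g x, Z.S [(g, x)] → (g = p i ↔ x = q i) := by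
  classical
  obtain ⟨s0⟩ := strat_fin h
  have e : Fin c ⊕ Fin K ↪ Fin k :=
    (finSumFinEquiv (m := c) (n := K)).toEmbedding.trans (Fin.castLEEmb hk)
  obtain ⟨s⟩ := s0.comap e
  obtain ⟨q, hq⟩ := placeK s p
  refine ⟨q, {
    S := fun A => ∃ α : Fin K → G, ∃ β : Fin K → H, s.R (Sum.elim p α) (Sum.elim q β) ∧
      ∀ z ∈ A, ∃ i, α i = z.1 ∧ β i = z.2
    mono := ?_
    eq := ?_
    mul := ?_
    move := ?_ }, ?_, ?_⟩
  · rintro A B ⟨α, β, h1, h2⟩ hB
    exact ⟨α, β, h1, fun z hz => h2 z (hB hz)⟩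
  · rintro a a' b b' ⟨α, β, h1, h2⟩
    obtain ⟨i, hi, hi'⟩ := h2 (a, a') (by simp)
    obtain ⟨j, hj, hj'⟩ := h2 (b, b') (by simp)
    have := s.eq _ _ h1 (Sum.inr i) (Sum.inr j)
    simp only [Sum.elim_inr] at this
    rw [hi, hi', hj, hj'] at this
    exact this
  · rintro a a' b b' c c' ⟨α, β, h1, h2⟩
    obtain ⟨i, hi, hi'⟩ := h2 (a, a') (by simp)
    obtain ⟨j, hj, hj'⟩ := h2 (b, b') (by simp)
    obtain ⟨l, hl, hl'⟩ := h2 (c, c') (by simp)
    have := s.mul _ _ h1 (Sum.inr i) (Sum.inr j) (Sum.inr l)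
    simp only [Sum.elim_inr] at this
    rw [hi, hi', hj, hj', hl, hl'] at this
    exact this
  · rintro A ⟨α, β, h1, h2⟩ hA
    obtain ⟨i₀, hi₀⟩ := exists_free A hA (fun z i => α i = z.1 ∧ β i = z.2) h2
    obtain ⟨f, hf⟩ := s.move _ _ h1 (Sum.inr i₀)
    refine ⟨f, fun g => ⟨Function.update α i₀ g, Function.update β i₀ (f g), ?_, ?_⟩⟩
    · have := hf g
      rw [Sum.update_elim_inr, Sum.update_elim_inr] at this
      exact this
    · intro z hz
      rw [List.mem_cons] at hz
      rcases hz with rfl | hz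
      · exact ⟨i₀, by simp⟩
      · obtain ⟨i, hi, hi1, hi2⟩ := hi₀ z hz
        exact ⟨i, by rw [Function.update_of_ne hi, hi1], by rw [Function.update_of_ne hi, hi2]⟩
  · exact ⟨_, _, hq, by simp⟩
  · rintro i g x ⟨α, β, h1, h2⟩
    obtain ⟨j, hj, hj'⟩ := h2 (g, x) (by simp)
    have := s.eq _ _ h1 (Sum.inr j) (Sum.inl i)
    simp only [Sum.elim_inr, Sum.elim_inl] at this
    rw [hj, hj'] at this
    exact this

/-- A sublist of an image is an image of a sublist. -/
theorem exists_map_of_subset {X Y : Type} (f : X → Y) (C : List X) (B : List Y)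
    (h : B ⊆ C.map f) : ∃ C' : List X, B = C'.map f ∧ C' ⊆ C := by
  induction B with
  | nil => exact ⟨[], rfl, by simp⟩
  | cons b B ih =>
    rw [List.cons_subset] at h
    obtain ⟨C', h1, h2⟩ := ih h.2
    obtain ⟨c, hc, rfl⟩ := List.mem_map.1 h.1
    refine ⟨c :: C', by simp [h1], ?_⟩
    rw [List.cons_subset]
    exact ⟨hc, h2⟩

theorem Sys.toAut {G H : Type} [Group G] [Group H] {K : ℕ} (Z : Sys G H K) :
    ∃ Z' : Sys G G K, (∀ A, Z'.S A → Z'.S (A.map Prod.swap)) ∧
      ∀ A, Z'.S A ↔ ∃ C : List (G × G × H), A = C.map (fun c => (c.1, c.2.1)) ∧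
        Z.S (C.map fun c => (c.1, c.2.2)) ∧ Z.S (C.map fun c => (c.2.1, c.2.2)) := by
  refine ⟨{
    S := fun A => ∃ C : List (G × G × H), A = C.map (fun c => (c.1, c.2.1)) ∧
        Z.S (C.map fun c => (c.1, c.2.2)) ∧ Z.S (C.map fun c => (c.2.1, c.2.2))
    mono := ?_
    eq := ?_
    mul := ?_
    move := ?_ }, ?_, fun A => Iff.rfl⟩
  · rintro A B ⟨C, rfl, h1, h2⟩ hB
    obtain ⟨C', rfl, hC'⟩ := exists_map_of_subset _ C B hB
    exact ⟨C', rfl, Z.mono h1 (List.map_subset _ hC'), Z.mono h2 (List.map_subset _ hC')⟩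
  · rintro a a' b b' ⟨C, h0, h1, h2⟩
    match C, h0 with
    | [(a1, a2, a3), (b1, b2, b3)], h0 =>
      simp only [List.map_cons, List.map_nil, List.cons.injEq, Prod.mk.injEq, and_true] at h0
      obtain ⟨⟨rfl, rfl⟩, rfl, rfl⟩ := h0
      simp only [List.map_cons, List.map_nil] at h1 h2
      exact (Z.eq h1).trans (Z.eq h2).symm
  · rintro a a' b b' c c' ⟨C, h0, h1, h2⟩
    match C, h0 with
    | [(a1, a2, a3), (b1, b2, b3), (c1, c2, c3)], h0 =>
      simp only [List.map_cons, List.map_nil, List.cons.injEq, Prod.mk.injEq, and_true] at h0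
      obtain ⟨⟨rfl, rfl⟩, ⟨rfl, rfl⟩, rfl, rfl⟩ := h0
      simp only [List.map_cons, List.map_nil] at h1 h2
      exact (Z.mul h1).trans (Z.mul h2).symm
  · rintro A ⟨C, rfl, h1, h2⟩ hA
    rw [List.length_map] at hA
    obtain ⟨f1, hf1⟩ := Z.move h1 (by simpa using hA)
    obtain ⟨f2, hf2⟩ := Z.move h2 (by simpa using hA)
    refine ⟨f1.trans f2.symm, fun g => ⟨(g, f2.symm (f1 g), f1 g) :: C, rfl, ?_, ?_⟩⟩
    · exact hf1 g
    · have := hf2 (f2.symm (f1 g))
      rw [f2.apply_symm_apply] at this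
      exact this
  · rintro A ⟨C, rfl, h1, h2⟩
    refine ⟨C.map (fun c => (c.2.1, c.1, c.2.2)), ?_, ?_, ?_⟩
    · simp [List.map_map, Function.comp_def]
    · simpa [List.map_map, Function.comp_def] using h2
    · simpa [List.map_map, Function.comp_def] using h1

/-- pin a pair -/
theorem Sys.rel {G H : Type} [Group G] [Group H] {K : ℕ} (Z : Sys G H (K + 1)) (a : G) (b : H) :
    ∃ Z' : Sys G H K, ∀ A, Z'.S A ↔ Z.S ((a, b) :: A) := by
  refine ⟨{
    S := fun A => Z.S ((a, b) :: A)
    mono := ?_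
    eq := ?_
    mul := ?_
    move := ?_ }, fun A => Iff.rfl⟩
  · intro A B h hB
    exact Z.mono h (List.cons_subset_cons _ hB)
  · intro x x' y y' h
    exact Z.eq (Z.mono h (List.subset_cons_self _ _))
  · intro x x' y y' z z' h
    exact Z.mul (Z.mono h (List.subset_cons_self _ _))
  · intro A h hA
    obtain ⟨f, hf⟩ := Z.move h (by simpa using hA)
    refine ⟨f, fun g => Z.mono (hf g) ?_⟩
    intro z hz
    simp only [List.mem_cons] at hz ⊢
    tauto

end Pool.Agent.H68.WLN
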