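import Pool.Agent.H68.N.Defs

set_option autoImplicit false

namespace Pool.Agent.H68.WLN

open Pool.Agent.H68.WL

section Inv

variable {G H : Type} [Group G] [Group H] {K : ℕ}

/-- The system read backwards. -/
def Sys0.flip (Z : Sys0 G H K) : Sys0 H G K where
  S := fun A => Z.S (A.map Prod.swap)
  mono := fun h hs => Z.mono h (List.map_subset _ hs)
  eq := fun h => (Z.eq h).symm
  mul := fun h => (Z.mul h).symm
  forth := by
    intro A h hl g
    obtain ⟨x, hx⟩ := Z.back h (by simpa using hl) g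
    exact ⟨x, hx⟩
  back := by
    intro A h hl g
    obtain ⟨x, hx⟩ := Z.forth h (by simpa using hl) g
    exact ⟨x, hx⟩

variable (Z : Sys0 G H K)

theorem Sys0.flip2 {x y : G} {x' y' : H} (h : Z.S [(x, x'), (y, y')]) :
    Z.flip.S [(x', x), (y', y)] := h

theorem Sys0.flip1 {x : G} {x' : H} (h : Z.S [(x, x')]) : Z.flip.S [(x', x)] := h

theorem Sys0.swap {x y : G} {x' y' : H} (h : Z.S [(x, x'), (y, y')]) :
    Z.S [(y, y'), (x, x')] := Z.mono h (by simp)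

theorem Sys0.place_mul {A : List (G × H)} (h : Z.S A) (hl : A.length < K) {a b : G} {a' b' : H}
    (ha : (a, a') ∈ A) (hb : (b, b') ∈ A) : Z.S ((a * b, a' * b') :: A) := by
  obtain ⟨c, hc⟩ := Z.forth h hl (a * b)
  have h1 : Z.S [(a, a'), (b, b'), (a * b, c)] := by
    refine Z.mono hc ?_
    intro p hp
    simp only [List.mem_cons, List.not_mem_nil, or_false] at hp
    rcases hp with rfl | rfl | rfl
    · exact List.mem_cons_of_mem _ ha
    · exact List.mem_cons_of_mem _ hb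
    · exact List.mem_cons_self
  have h2 := (Z.mul h1).1 rfl
  rw [h2]
  exact hc

theorem Sys0.one_eq {c : H} (h : Z.S [(1, c)]) : c = 1 := by
  have h1 : Z.S [((1 : G), c), (1, c), (1, c)] := Z.mono h (by simp)
  have h2 := (Z.mul h1).1 (mul_one 1)
  simpa using h2

theorem Sys0.place_one {A : List (G × H)} (h : Z.S A) (hl : A.length < K) :
    Z.S ((1, 1) :: A) := by
  obtain ⟨c, hc⟩ := Z.forth h hl 1
  have h1 : c = 1 := Z.one_eq (Z.mono hc (by simp))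
  rw [← h1]
  exact hc

theorem Sys0.place_inv {A : List (G × H)} (h : Z.S A) (hl : A.length + 1 < K) {a : G} {a' : H}
    (ha : (a, a') ∈ A) : Z.S ((a⁻¹, a'⁻¹) :: A) := by
  obtain ⟨c, hc⟩ := Z.forth h (by omega) a⁻¹
  have h1 := Z.place_one hc (by simpa using hl)
  have h2 : Z.S [(a, a'), (a⁻¹, c), (1, 1)] := by
    refine Z.mono h1 ?_
    intro p hp
    simp only [List.mem_cons, List.not_mem_nil, or_false] at hp
    rcases hp with rfl | rfl | rfl
    · simp [ha]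
    · simp
    · simp
  have h3 := (Z.mul h2).1 (by simp)
  have h4 : c = a'⁻¹ := (inv_eq_of_mul_eq_one_right h3).symm
  rw [← h4]
  exact hc

theorem Sys0.place_conj {A : List (G × H)} (h : Z.S A) (hl : A.length + 3 < K) {a b : G}
    {a' b' : H} (ha : (a, a') ∈ A) (hb : (b, b') ∈ A) :
    Z.S ((a * b * a⁻¹, a' * b' * a'⁻¹) :: A) := by
  have h1 := Z.place_mul h (by omega) ha hb
  have h2 := Z.place_inv h1 (by simp; omega) (a := a) (a' := a') (by simp [ha])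
  have h3 := Z.place_mul h2 (by simp; omega) (a := a * b) (a' := a' * b') (b := a⁻¹)
    (b' := a'⁻¹) (by simp) (by simp)
  refine Z.mono h3 ?_
  intro p hp
  simp only [List.mem_cons] at hp ⊢
  rcases hp with rfl | hp
  · simp
  · simp [hp]

theorem Sys0.closure_inv (hK : 8 ≤ K) {P : G → G → Prop} {P' : H → H → Prop}
    (hP : ∀ x x' z z', Z.S [(x, x'), (z, z')] → P x z → P' x' z') {x y : G} {x' y' : H}
    (h : Z.S [(x, x'), (y, y')]) (hy : y ∈ Subgroup.closure {z | P x z}) :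
    y' ∈ Subgroup.closure {z | P' x' z} := by
  induction hy using Subgroup.closure_induction generalizing y' with
  | mem z hz => exact Subgroup.subset_closure (hP _ _ _ _ h hz)
  | one =>
    have : y' = 1 := Z.one_eq (Z.mono h (by simp))
    rw [this]; exact Subgroup.one_mem _
  | mul a b _ _ iha ihb =>
    obtain ⟨a', ha⟩ := Z.forth h (by simp; omega) a
    obtain ⟨b', hb⟩ := Z.forth ha (by simp; omega) b
    have h1 : Z.S [(a, a'), (b, b'), (a * b, y')] := Z.mono hb (by simp)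
    have h2 := (Z.mul h1).1 rfl
    rw [← h2]
    exact Subgroup.mul_mem _ (iha (Z.mono hb (by simp))) (ihb (Z.mono hb (by simp)))
  | inv a _ iha =>
    obtain ⟨a', ha⟩ := Z.forth h (by simp; omega) a
    have h0 := Z.place_one ha (by simp; omega)
    have h1 : Z.S [(a, a'), (a⁻¹, y'), (1, 1)] := Z.mono h0 (by simp)
    have h2 := (Z.mul h1).1 (by simp)
    have h3 : y' = a'⁻¹ := (inv_eq_of_mul_eq_one_right h2).symm
    rw [h3]
    exact Subgroup.inv_mem _ (iha (Z.mono ha (by simp)))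

theorem Sys0.conj_inv (hK : 8 ≤ K) {x z : G} {x' z' : H} (h : Z.S [(x, x'), (z, z')])
    (hc : ∃ g, g * x * g⁻¹ = z) : ∃ g', g' * x' * g'⁻¹ = z' := by
  obtain ⟨g, rfl⟩ := hc
  obtain ⟨g', hg⟩ := Z.forth h (by simp; omega) g
  have h1 := Z.place_conj hg (by simp; omega) (a := g) (a' := g') (b := x) (b' := x')
    (by simp) (by simp)
  exact ⟨g', (Z.eq (Z.mono h1 (by simp) :
    Z.S [(g * x * g⁻¹, g' * x' * g'⁻¹), (g * x * g⁻¹, z')])).1 rfl⟩

theorem Sys0.ncl_inv (hK : 8 ≤ K) {x y : G} {x' y' : H} (h : Z.S [(x, x'), (y, y')])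
    (hy : y ∈ ncl x) : y' ∈ ncl x' :=
  Z.closure_inv hK (P := fun x z => ∃ g, g * x * g⁻¹ = z)
    (P' := fun x z => ∃ g, g * x * g⁻¹ = z) (fun _ _ _ _ h hc => Z.conj_inv hK h hc) h hy

theorem Sys0.ncl_iff (hK : 8 ≤ K) {x y : G} {x' y' : H} (h : Z.S [(x, x'), (y, y')]) :
    y ∈ ncl x ↔ y' ∈ ncl x' :=
  ⟨Z.ncl_inv hK h, Z.flip.ncl_inv hK (Z.flip2 h)⟩

theorem Sys0.eq_one_iff (hK : 8 ≤ K) {x : G} {x' : H} (h : Z.S [(x, x')]) :
    x = 1 ↔ x' = 1 := by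
  have h1 := Z.place_one h (by simp; omega)
  have h2 := Z.eq h1
  constructor
  · intro hx; exact (h2.1 hx.symm).symm
  · intro hx; exact (h2.2 hx.symm).symm

theorem Sys0.minEl_inv (hK : 8 ≤ K) {x : G} {x' : H} (h : Z.S [(x, x')])
    (hx : MinEl x) : MinEl x' := by
  refine ⟨fun h1 => hx.1 ((Z.eq_one_iff hK h).2 h1), ?_⟩
  intro y' hy' hy1
  obtain ⟨y, hy⟩ := Z.back h (by simp; omega) y'
  have h1 := Z.swap hy
  have h2 := (Z.ncl_iff hK h1).2 hy'
  have h3 : y ≠ 1 := fun h4 => hy1 ((Z.eq_one_iff hK (Z.mono hy (by simp))).1 h4)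
  exact (Z.ncl_iff hK hy).1 (hx.2 y h2 h3)

theorem Sys0.minEl_iff (hK : 8 ≤ K) {x : G} {x' : H} (h : Z.S [(x, x')]) :
    MinEl x ↔ MinEl x' :=
  ⟨Z.minEl_inv hK h, Z.flip.minEl_inv hK (Z.flip1 h)⟩

theorem Sys0.closure_inv1 (hK : 8 ≤ K) {P : G → Prop} {P' : H → Prop}
    (hP : ∀ z z', Z.S [(z, z')] → P z → P' z') {y : G} {y' : H}
    (h : Z.S [(y, y')]) (hy : y ∈ Subgroup.closure {z | P z}) :
    y' ∈ Subgroup.closure {z | P' z} := by
  have h1 := Z.place_one h (by simp; omega)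
  exact Z.closure_inv hK (P := fun _ z => P z) (P' := fun _ z => P' z)
    (fun _ _ _ _ h hc => hP _ _ (Z.mono h (by simp)) hc) h1 hy

theorem Sys0.sab_inv (hK : 8 ≤ K) {y : G} {y' : H} (h : Z.S [(y, y')])
    (hy : y ∈ sab G) : y' ∈ sab H := by
  refine Z.closure_inv1 hK ?_ h hy
  rintro z z' hz ⟨hz1, hz2⟩
  refine ⟨Z.minEl_inv hK hz hz1, ?_⟩
  intro g'
  obtain ⟨g, hg⟩ := Z.back hz (by simp; omega) g'
  have h1 := Z.place_conj hg (by simp; omega) (a := g) (a' := g') (b := z) (b' := z')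
    (by simp) (by simp)
  have h2 := Z.place_mul h1 (by simp; omega) (a := z) (a' := z') (b := g * z * g⁻¹)
    (b' := g' * z' * g'⁻¹) (by simp) (by simp)
  rw [hz2 g] at h2
  have h3 := (Z.mul (Z.mono h2 (by simp) :
    Z.S [(g * z * g⁻¹, g' * z' * g'⁻¹), (z, z'), (g * z * g⁻¹ * z, z' * (g' * z' * g'⁻¹))])).1 rfl
  exact h3.symm

theorem Sys0.sab_iff (hK : 8 ≤ K) {x : G} {x' : H} (h : Z.S [(x, x')]) :
    x ∈ sab G ↔ x' ∈ sab H :=
  ⟨Z.sab_inv hK h, Z.flip.sab_inv hK (Z.flip1 h)⟩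

theorem Sys0.socle_inv (hK : 8 ≤ K) {y : G} {y' : H} (h : Z.S [(y, y')])
    (hy : y ∈ socle G) : y' ∈ socle H :=
  Z.closure_inv1 hK (fun _ _ hz h1 => Z.minEl_inv hK hz h1) h hy

theorem Sys0.socle_iff (hK : 8 ≤ K) {x : G} {x' : H} (h : Z.S [(x, x')]) :
    x ∈ socle G ↔ x' ∈ socle H :=
  ⟨Z.socle_inv hK h, Z.flip.socle_inv hK (Z.flip1 h)⟩

theorem Sys0.nclS_inv (hK : 8 ≤ K) {x y : G} {x' y' : H} (h : Z.S [(x, x'), (y, y')])
    (hy : y ∈ nclS x) : y' ∈ nclS x' := by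
  refine Z.closure_inv hK (P := fun x z => ∃ g ∈ socle G, g * x * g⁻¹ = z)
    (P' := fun x z => ∃ g ∈ socle H, g * x * g⁻¹ = z) ?_ h hy
  rintro x x' z z' h ⟨g, hg, rfl⟩
  obtain ⟨g', hg'⟩ := Z.forth h (by simp; omega) g
  have h1 := Z.place_conj hg' (by simp; omega) (a := g) (a' := g') (b := x) (b' := x')
    (by simp) (by simp)
  exact ⟨g', Z.socle_inv hK (Z.mono hg' (by simp)) hg, (Z.eq (Z.mono h1 (by simp) :
    Z.S [(g * x * g⁻¹, g' * x' * g'⁻¹), (g * x * g⁻¹, z')])).1 rfl⟩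

theorem Sys0.nclS_iff (hK : 8 ≤ K) {x y : G} {x' y' : H} (h : Z.S [(x, x'), (y, y')]) :
    y ∈ nclS x ↔ y' ∈ nclS x' :=
  ⟨Z.nclS_inv hK h, Z.flip.nclS_inv hK (Z.flip2 h)⟩

theorem Sys0.fac_inv (hK : 8 ≤ K) {x : G} {x' : H} (h : Z.S [(x, x')])
    (hx : Fac x) : Fac x' := by
  refine ⟨Z.socle_inv hK h hx.1, fun h1 => hx.2.1 ((Z.eq_one_iff hK h).2 h1), ?_⟩
  intro y' hy' hy1
  obtain ⟨y, hy⟩ := Z.back h (by simp; omega) y'
  have h2 := (Z.nclS_iff hK (Z.swap hy)).2 hy'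
  have h3 : y ≠ 1 := fun h4 => hy1 ((Z.eq_one_iff hK (Z.mono hy (by simp))).1 h4)
  exact (Z.nclS_iff hK hy).1 (hx.2.2 y h2 h3)

theorem Sys0.fac_iff (hK : 8 ≤ K) {x : G} {x' : H} (h : Z.S [(x, x')]) :
    Fac x ↔ Fac x' :=
  ⟨Z.fac_inv hK h, Z.flip.fac_inv hK (Z.flip1 h)⟩

end Inv

end Pool.Agent.H68.WLN
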