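import Pool.Agent.H68.N.Defs
import Pool.Agent.H68.N.Hall

set_option autoImplicit false

namespace Pool.Agent.H68.WLN

theorem exists_sub_map {α β : Type} (f : α → β) (L : List α) :
    ∀ M : List β, M ⊆ L.map f → ∃ L' : List α, L' ⊆ L ∧ L'.map f = M := by
  intro M
  induction M with
  | nil => intro _; exact ⟨[], by simp, rfl⟩
  | cons b M ih =>
    intro h
    obtain ⟨L', h1, h2⟩ := ih (fun x hx => h (List.mem_cons_of_mem _ hx))
    obtain ⟨a, ha, rfl⟩ := List.mem_map.1 (h List.mem_cons_self)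
    refine ⟨a :: L', ?_, by simp [h2]⟩
    intro x hx
    rcases List.mem_cons.1 hx with rfl | hx
    · exact ha
    · exact h1 hx

theorem map_map_swap {α β : Type} (f : α → β) (L : List (α × α)) :
    (L.map Prod.swap).map (Prod.map f f) = (L.map (Prod.map f f)).map Prod.swap := by
  rw [List.map_map, List.map_map]
  rfl

section
variable {G V : Type} [Group G] [MulAction G V] {K : ℕ}

theorem BF.lift_eq (Z : BF G V K) (hK : 8 ≤ K) {Q : Type} [Group Q] [MulAction Q V] (φ : G →* Q)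
    (hact : ∀ (g : G) (v : V), φ g • v = g • v)
    (hfaith : ∀ q : Q, (∀ v : V, q • v = v) → q = 1) {g g' h h' : G}
    (hF : Z.F [(g, g'), (h, h')] []) (he : φ g = φ h) : φ g' = φ h' := by
  by_contra hne
  have h1 : ¬ ∀ v : V, ((φ h')⁻¹ * φ g') • v = v := by
    intro hc
    apply hne
    have := hfaith _ hc
    rw [inv_mul_eq_one] at this
    exact this.symm
  push Not at h1
  obtain ⟨v', hv'⟩ := h1
  have h2 : g' • v' ≠ h' • v' := by
    intro hc
    apply hv'
    rw [mul_smul, hact, hc, ← hact h', inv_smul_smul]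
  obtain ⟨v, hv⟩ := Z.backV hF (by simp; omega) v'
  obtain ⟨w', hw⟩ := Z.forthV hv (by simp; omega) (g • v)
  have e0 : Z.F [(g, g')] [(v, v'), (g • v, w')] := Z.mono hw (by simp) (by simp)
  have e1 : g' • v' = w' := Z.smul e0
  have e2 : h • v = g • v := by rw [← hact, ← he, hact]
  have e3 : h' • v' = w' := by
    have : Z.F [(h, h')] [(v, v'), (h • v, w')] := by
      rw [e2]
      exact Z.mono hw (by simp) (by simp)
    exact Z.smul this
  exact h2 (e1.trans e3.symm)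

theorem BF.lift_mul (Z : BF G V K) (hK : 8 ≤ K) {Q : Type} [Group Q] [MulAction Q V] (φ : G →* Q)
    (hact : ∀ (g : G) (v : V), φ g • v = g • v)
    (hfaith : ∀ q : Q, (∀ v : V, q • v = v) → q = 1) {g g' h h' k k' : G}
    (hF : Z.F [(g, g'), (h, h'), (k, k')] []) (he : φ g * φ h = φ k) :
    φ g' * φ h' = φ k' := by
  by_contra hne
  have h1 : ¬ ∀ v : V, ((φ k')⁻¹ * (φ g' * φ h')) • v = v := by
    intro hc
    apply hne
    have := hfaith _ hc
    rw [inv_mul_eq_one] at this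
    exact this.symm
  push Not at h1
  obtain ⟨v', hv'⟩ := h1
  have h2 : g' • (h' • v') ≠ k' • v' := by
    intro hc
    apply hv'
    rw [mul_smul, mul_smul, hact, hact, hc, ← hact k', inv_smul_smul]
  obtain ⟨v, hv⟩ := Z.backV hF (by simp; omega) v'
  obtain ⟨w', hw⟩ := Z.forthV hv (by simp; omega) (h • v)
  obtain ⟨x', hx⟩ := Z.forthV hw (by simp; omega) (g • (h • v))
  have d1 : Z.F [(h, h')] [(v, v'), (h • v, w')] := Z.mono hx (by simp) (by simp)
  have d2 : Z.F [(g, g')] [(h • v, w'), (g • (h • v), x')] := Z.mono hx (by simp) (by simp)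
  have e1 : h' • v' = w' := Z.smul d1
  have e2 : g' • w' = x' := Z.smul d2
  have e3 : k • v = g • (h • v) := by rw [← hact, ← he, mul_smul, hact, hact]
  have e4 : k' • v' = x' := by
    have : Z.F [(k, k')] [(v, v'), (k • v, x')] := by
      rw [e3]
      exact Z.mono hx (by simp) (by simp)
    exact Z.smul this
  exact h2 (by rw [e1, e2, e4])

theorem BF.toQuot (Z : BF G V K) (hK : 8 ≤ K) {Q : Type} [Group Q] [MulAction Q V] (φ : G →* Q)
    (hφ : Function.Surjective φ) (hact : ∀ (g : G) (v : V), φ g • v = g • v)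
    (hfaith : ∀ q : Q, (∀ v : V, q • v = v) → q = 1) :
    ∃ Z' : BF Q V K, (∀ A B, Z.F A B → Z'.F (A.map (Prod.map φ φ)) B) ∧
      (∀ B, Z'.F [] B → Z.F [] B) ∧ (∀ u, Z.Pin u → Z'.Pin (φ u)) := by
  let Z' : BF Q V K :=
    { F := fun A B => ∃ A0 : List (G × G), A0.map (Prod.map φ φ) = A ∧ Z.F A0 B
      mono := by
        rintro A A' B B' ⟨A0, rfl, h⟩ hA hB
        obtain ⟨A1, h1, h2⟩ := exists_sub_map _ _ _ hA
        exact ⟨A1, h2, Z.mono h h1 hB⟩
      symm := by
        rintro A B ⟨A0, rfl, h⟩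
        exact ⟨A0.map Prod.swap, map_map_swap _ _, Z.symm h⟩
      eqG := by
        rintro a a' b b' ⟨A0, hA, h⟩ hab
        rcases A0 with _ | ⟨⟨g, g'⟩, _ | ⟨⟨k, k'⟩, _ | ⟨c, l⟩⟩⟩ <;> simp at hA
        obtain ⟨⟨rfl, rfl⟩, rfl, rfl⟩ := hA
        exact Z.lift_eq hK φ hact hfaith h hab
      eqV := by
        rintro v v' w w' ⟨A0, hA, h⟩ hab
        rcases A0 with _ | ⟨c, l⟩ <;> simp at hA
        exact Z.eqV h hab
      mul := by
        rintro a a' b b' c' ⟨A0, hA, h⟩
        rcases A0 with _ | ⟨⟨g, g'⟩, _ | ⟨⟨k, k'⟩, _ | ⟨⟨m, m'⟩, _ | ⟨c, l⟩⟩⟩⟩ <;> simp at hA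
        obtain ⟨⟨rfl, rfl⟩, ⟨rfl, rfl⟩, h3, rfl⟩ := hA
        exact Z.lift_mul hK φ hact hfaith h h3.symm
      smul := by
        rintro a a' v v' w' ⟨A0, hA, h⟩
        rcases A0 with _ | ⟨⟨g, g'⟩, _ | ⟨c, l⟩⟩ <;> simp at hA
        obtain ⟨rfl, rfl⟩ := hA
        rw [hact] at h ⊢
        exact Z.smul h
      moveG := by
        rintro A B ⟨A0, rfl, h⟩ hl q
        obtain ⟨g, rfl⟩ := hφ q
        obtain ⟨g', hg'⟩ := Z.moveG h (by simpa using hl) g
        exact ⟨φ g', (g, g') :: A0, by simp, hg'⟩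
      moveV := by
        rintro A B ⟨A0, rfl, h⟩ hl
        obtain ⟨f, hf⟩ := Z.moveV h (by simpa using hl)
        exact ⟨f, fun v => ⟨A0, rfl, hf v⟩⟩ }
  refine ⟨Z', fun A B h => ⟨A, rfl, h⟩, ?_, ?_⟩
  · rintro B ⟨A0, hA, h⟩
    rcases A0 with _ | ⟨c, l⟩ <;> simp at hA
    exact h
  · rintro u hu q ⟨A0, hA, h⟩
    rcases A0 with _ | ⟨⟨u0, g0⟩, _ | ⟨c, l⟩⟩ <;> simp at hA
    obtain ⟨h1, rfl⟩ := hA
    obtain ⟨u', hu'⟩ := Z.moveG h (by simp; omega) u
    have e : u' = u := hu u' (Z.mono hu' (by simp) (by simp))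
    subst e
    have : Z.F [(u0, g0), (u', u')] [] := Z.mono hu' (by simp) (by simp)
    exact Z.lift_eq hK φ hact hfaith this h1

theorem BF.toClasses [Finite V] (Z : BF G V K) (hK : 8 ≤ K) (s : Setoid V)
    [MulAction G (Quotient s)]
    (hs : ∀ (g : G) (v : V), g • (Quotient.mk s v) = Quotient.mk s (g • v))
    (hinv : ∀ v v' w w', Z.F [] [(v, v'), (w, w')] → s.r v w → s.r v' w') :
    ∃ Z' : BF G (Quotient s) K,
      (∀ A B, Z.F A B → Z'.F A (B.map (Prod.map (Quotient.mk s) (Quotient.mk s)))) ∧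
      (∀ A y y', Z'.F A [(y, y')] → ∃ v v', Quotient.mk s v = y ∧ Quotient.mk s v' = y' ∧
        Z.F A [(v, v')]) ∧ (∀ A, Z'.F A [] → Z.F A []) := by
  let m : V → Quotient s := Quotient.mk s
  have hm : ∀ v w : V, m v = m w → s.r v w := fun v w h => Quotient.exact h
  have hm' : ∀ v w : V, s.r v w → m v = m w := fun v w h => Quotient.sound h
  let Z' : BF G (Quotient s) K :=
    { F := fun A B => ∃ B0 : List (V × V), B0.map (Prod.map m m) = B ∧ Z.F A B0
      mono := by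
        rintro A A' B B' ⟨B0, rfl, h⟩ hA hB
        obtain ⟨B1, h1, h2⟩ := exists_sub_map _ _ _ hB
        exact ⟨B1, h2, Z.mono h hA h1⟩
      symm := by
        rintro A B ⟨B0, rfl, h⟩
        exact ⟨B0.map Prod.swap, map_map_swap _ _, Z.symm h⟩
      eqG := by
        rintro a a' b b' ⟨B0, hB, h⟩ hab
        rcases B0 with _ | ⟨c, l⟩ <;> simp at hB
        exact Z.eqG h hab
      eqV := by
        rintro y y' z z' ⟨B0, hB, h⟩ hab
        rcases B0 with _ | ⟨⟨v, v'⟩, _ | ⟨⟨w, w'⟩, _ | ⟨c, l⟩⟩⟩ <;> simp at hB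
        obtain ⟨⟨rfl, rfl⟩, rfl, rfl⟩ := hB
        exact hm' _ _ (hinv _ _ _ _ h (hm _ _ hab))
      mul := by
        rintro a a' b b' c' ⟨B0, hB, h⟩
        rcases B0 with _ | ⟨c, l⟩ <;> simp at hB
        exact Z.mul h
      smul := by
        rintro a a' y y' z' ⟨B0, hB, h⟩
        rcases B0 with _ | ⟨⟨v, v'⟩, _ | ⟨⟨w, w'⟩, _ | ⟨c, l⟩⟩⟩ <;> simp at hB
        obtain ⟨⟨rfl, rfl⟩, h3, rfl⟩ := hB
        have h4 : s.r (a • v) w := by
          apply hm
          rw [h3]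
          exact (hs a v).symm
        obtain ⟨x', hx⟩ := Z.forthV h (by simp; omega) (a • v)
        have d1 : Z.F [(a, a')] [(v, v'), (a • v, x')] := Z.mono hx (by simp) (by simp)
        have d2 : Z.F [] [(a • v, x'), (w, w')] := Z.mono hx (by simp) (by simp)
        have e1 : a' • v' = x' := Z.smul d1
        have e2 : s.r x' w' := hinv _ _ _ _ d2 h4
        calc a' • m v' = m (a' • v') := hs a' v'
          _ = m x' := by rw [e1]
          _ = m w' := hm' _ _ e2
      moveG := by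
        rintro A B ⟨B0, rfl, h⟩ hl g
        obtain ⟨g', hg'⟩ := Z.moveG h (by simpa using hl) g
        exact ⟨g', B0, rfl, hg'⟩
      moveV := by
        rintro A B ⟨B0, rfl, h⟩ hl
        obtain ⟨f, hf⟩ := Z.moveV h (by simpa using hl)
        have hcard : ∀ x, Nat.card {x' // s.r x x'} = Nat.card {y // s.r (f x) y} := by
          intro x
          have h1 : Z.F [] [(x, f x)] := Z.mono (hf x) (by simp) (by simp)
          obtain ⟨f2, hf2⟩ := Z.moveV h1 (by simp; omega)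
          refine Nat.card_congr (f2.subtypeEquiv ?_)
          intro u
          constructor
          · intro hxu
            exact hinv _ _ _ _ (Z.mono (hf2 u) (by simp) (by simp)) hxu
          · intro hxu
            have h3 := Z.symm (hf2 u)
            simp only [List.map_cons, List.map_nil, Prod.swap_prod_mk] at h3
            exact hinv _ _ _ _ (Z.mono h3 (by simp) (by simp)) hxu
        obtain ⟨g, hg⟩ := class_bij s s f hcard
        refine ⟨g, ?_⟩
        intro q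
        obtain ⟨x, rfl, hx⟩ := hg q
        refine ⟨(x, f x) :: B0, ?_, hf x⟩
        rw [← hx]
        rfl }
  refine ⟨Z', fun A B h => ⟨B, rfl, h⟩, ?_, ?_⟩
  · rintro A y y' ⟨B0, hB, h⟩
    rcases B0 with _ | ⟨⟨v, v'⟩, _ | ⟨c, l⟩⟩ <;> simp at hB
    obtain ⟨rfl, rfl⟩ := hB
    exact ⟨v, v', rfl, rfl, h⟩
  · rintro A ⟨B0, hB, h⟩
    rcases B0 with _ | ⟨c, l⟩ <;> simp at hB
    exact h

end

end Pool.Agent.H68.WLN
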