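import Pool.Agent.H68.N.Non3
import Pool.Agent.H68.N.Trans
import Pool.Agent.H68.N.Abel

set_option autoImplicit false

namespace Pool.Agent.H68.WLN

open Pool.Agent.H68.WL

theorem Cov.map {G Q : Type} [Group G] [Group Q] {D : ℕ} {x : Fin D → G} (h : Cov x)
    (φ : G →* Q) (hφ : Function.Surjective φ) : Cov (fun i => φ (x i)) := by
  intro Q2 _ _ ψ hψ R hR hab ρ hρ
  exact h Q2 (ψ.comp φ) (hψ.comp hφ) R hR hab ρ hρ

theorem Cov.self {Q : Type} [Group Q] [Finite Q] {D : ℕ} {x : Fin D → Q} (h : Cov x) :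
    ∀ R : Subgroup Q, IsSocleFactor R → (∃ a ∈ R, ∃ b ∈ R, a * b ≠ b * a) →
      ∀ ρ ∈ R, ∃ h ∈ Subgroup.closure (Set.range x), ∀ z ∈ R, h * z * h⁻¹ = ρ * z * ρ⁻¹ :=
  fun R hR hab ρ hρ => h Q (MonoidHom.id Q) Function.surjective_id R hR hab ρ hρ

/-- The classes of a normal subgroup are permuted. -/
@[reducible] def quotAction {Q V : Type} [Group Q] [MulAction Q V] (S : Subgroup Q)
    (hS : S.Normal) : MulAction Q (Quotient (MulAction.orbitRel S V)) where
  smul q := Quotient.map' (fun v => q • v) (by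
    rintro v w ⟨a, rfl⟩
    refine ⟨⟨q * a.1 * q⁻¹, hS.conj_mem a.1 a.2 q⟩, ?_⟩
    change (q * a.1 * q⁻¹) • (q • w) = q • (a.1 • w)
    rw [mul_smul, mul_smul, inv_smul_smul])
  one_smul y := by
    induction y using Quotient.inductionOn' with
    | h v =>
      change Quotient.mk'' ((1 : Q) • v) = Quotient.mk'' v
      rw [one_smul]
  mul_smul p q y := by
    induction y using Quotient.inductionOn' with
    | h v =>
      change Quotient.mk'' ((p * q) • v) = Quotient.mk'' (p • (q • v))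
      rw [mul_smul]

theorem exists_quot {Q V : Type} [Group Q] [MulAction Q V] (S : Subgroup Q) (hS : S.Normal) :
    ∃ (s : Setoid V) (_ : MulAction Q (Quotient s)),
      (∀ v w : V, s.r v w ↔ ∃ a ∈ S, a • w = v) ∧
      ∀ (q : Q) (v : V), q • (Quotient.mk s v) = Quotient.mk s (q • v) := by
  refine ⟨MulAction.orbitRel S V, quotAction S hS, ?_, fun q v => rfl⟩
  intro v w
  constructor
  · rintro ⟨a, ha⟩; exact ⟨a.1, a.2, ha⟩
  · rintro ⟨a, ha, h⟩; exact ⟨⟨a, ha⟩, h⟩

theorem exists_level {Q V : Type} [Group Q] [Finite Q] [MulAction Q V] [Finite V] {D : ℕ}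
    (x : Fin D → Q) (hx : Cov x) (hne : ∃ q : Q, q ≠ 1) :
    ∃ S : Subgroup Q, S.Normal ∧ S ≠ ⊥ ∧
      (∀ {K : ℕ}, 12 ≤ K → ∀ (Z : BF Q V K) (g g' : Q), Z.F [(g, g')] [] → g ∈ S → g' ∈ S) ∧
      ∀ (v0 : V), (∃ a ∈ S, a • v0 ≠ v0) → ∀ c : Col,
        ∃ κ0 : V → Col, Pat {w | ∃ a ∈ S, a • v0 = w} c κ0 ∧
        ∀ {K : ℕ}, 12 ≤ K → ∀ (Z : BF Q V K) (κ : V → Col), (∀ i, Z.Pin (x i)) →
        (∀ a ∈ S, κ (a • v0) = κ0 (a • v0)) → Z.Pres κ →
        ∀ v w, (∃ a ∈ S, a • v0 = v) → (∃ a ∈ S, a • v0 = w) →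
          Z.F [] [(v, w)] → v = w := by
  by_cases hsab : sab Q = ⊥
  · have hss := hss_of_sab hsab
    refine ⟨socle Q, ?_, ?_, ?_, ?_⟩
    · rw [socle_eq hss]; exact soc_normal
    · intro hb
      obtain ⟨q, hq⟩ := hne
      apply hq
      apply soc_centralizer hss
      intro t ht
      rw [← socle_eq hss, hb, Subgroup.mem_bot] at ht
      rw [ht, mul_one, one_mul]
    · intro K hK Z g g' h hg
      exact Z.toSys0.socle_inv (by omega) h hg
    · intro v0 hv0 c
      exact block_nonab x hss hx.self v0 hv0 c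
  · refine ⟨sab Q, sab_normal, hsab, ?_, ?_⟩
    · intro K hK Z g g' h hg
      exact Z.toSys0.sab_inv (by omega) h hg
    · intro v0 hv0 c
      obtain ⟨κ0, hp, h⟩ := block_abel (sab Q) sab_comm v0 hv0 c
      refine ⟨κ0, hp, ?_⟩
      intro K hK Z κ _ hκ hpres v w hv hw hvw
      exact h hK Z κ hκ hpres (fun g g' hg hgs => Z.toSys0.sab_inv (by omega) hg hgs) v w hv hw hvw

/-- One step of the recursion, for a faithful action. -/
theorem naming_step (V : Type) [Finite V] (Q : Type) [Group Q] [Finite Q] [MulAction Q V]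
    (hfaith : ∀ q : Q, (∀ v : V, q • v = v) → q = 1)
    {D : ℕ} (x : Fin D → Q) (hx : Cov x)
    (ih : ∀ (V' : Type) [Finite V'] [MulAction Q V'], Nat.card V' < Nat.card V →
      ∃ κ : V' → Col, ∀ {K : ℕ}, 12 ≤ K → ∀ (Z : BF Q V' K), (∀ i, Z.Pin (x i)) → Z.Pres κ →
        ∀ v w, w ∈ MulAction.orbit Q v → Z.F [] [(v, w)] → v = w) :
    ∃ κ : V → Col, ∀ {K : ℕ}, 12 ≤ K → ∀ (Z : BF Q V K), (∀ i, Z.Pin (x i)) → Z.Pres κ →
      ∀ v w, w ∈ MulAction.orbit Q v → Z.F [] [(v, w)] → v = w := by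
  classical
  by_cases hne : ∃ q : Q, q ≠ 1
  swap
  · push Not at hne
    refine ⟨fun _ => (0, 0), ?_⟩
    rintro K hK Z _ _ v w ⟨q, rfl⟩ _
    change v = q • v
    rw [hne q, one_smul]
  obtain ⟨S, hSn, hSne, hSinv, hblock⟩ := exists_level (V := V) x hx hne
  obtain ⟨s, _, hrel, hsm⟩ := exists_quot (V := V) S hSn
  have hmk : ∀ v w : V, Quotient.mk s v = Quotient.mk s w ↔ ∃ a ∈ S, a • w = v := by
    intro v w
    rw [← hrel]
    exact Quotient.eq (r := s)
  have hcard : Nat.card (Quotient s) < Nat.card V := by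
    have h1 : ∃ a ∈ S, a ≠ 1 := by
      by_contra hcon
      push Not at hcon
      exact hSne ((Subgroup.eq_bot_iff_forall _).2 hcon)
    obtain ⟨a, ha, ha1⟩ := h1
    have h2 : ∃ v : V, a • v ≠ v := by
      by_contra hcon
      push Not at hcon
      exact ha1 (hfaith a hcon)
    obtain ⟨v, hv⟩ := h2
    haveI : Fintype V := Fintype.ofFinite V
    haveI : Fintype (Quotient s) := Fintype.ofFinite _
    rw [Nat.card_eq_fintype_card, Nat.card_eq_fintype_card]
    apply Fintype.card_lt_of_surjective_not_injective (Quotient.mk s) Quotient.mk_surjective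
    intro hinj
    exact hv (hinj ((hmk _ _).2 ⟨a, ha, rfl⟩))
  obtain ⟨κ', hκ'⟩ := ih (Quotient s) hcard
  -- the colouring
  have hrep : ∀ v : V, ∃ a ∈ S, a • (Quotient.out (Quotient.mk s v)) = v := by
    intro v
    rw [← hmk]
    exact (Quotient.out_eq _).symm
  have hex : ∀ y : Quotient s, ∃ κ0 : V → Col,
      ((∃ a ∈ S, a • (Quotient.out y) ≠ Quotient.out y) →
        (Pat {w | ∃ a ∈ S, a • (Quotient.out y) = w} (κ' y) κ0 ∧
        ∀ {K : ℕ}, 12 ≤ K → ∀ (Z : BF Q V K) (κ : V → Col), (∀ i, Z.Pin (x i)) →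
        (∀ a ∈ S, κ (a • (Quotient.out y)) = κ0 (a • (Quotient.out y))) → Z.Pres κ →
        ∀ v w, (∃ a ∈ S, a • (Quotient.out y) = v) → (∃ a ∈ S, a • (Quotient.out y) = w) →
          Z.F [] [(v, w)] → v = w)) ∧
      ((∀ a ∈ S, a • (Quotient.out y) = Quotient.out y) → κ0 (Quotient.out y) = κ' y) := by
    intro y
    by_cases h : ∃ a ∈ S, a • (Quotient.out y) ≠ Quotient.out y
    · obtain ⟨κ0, hp, h2⟩ := hblock (Quotient.out y) h (κ' y)
      refine ⟨κ0, fun _ => ⟨hp, h2⟩, ?_⟩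
      intro h3
      obtain ⟨a, ha, h4⟩ := h
      exact absurd (h3 a ha) h4
    · exact ⟨fun _ => κ' y, fun h2 => absurd h2 h, fun _ => rfl⟩
  choose κ0 hκ0 using hex
  refine ⟨fun v => κ0 (Quotient.mk s v) v, ?_⟩
  intro K hK Z hpin hpres v w hvw hF
  set κ : V → Col := fun v => κ0 (Quotient.mk s v) v with hκdef
  have hκB : ∀ y : Quotient s, ∀ a ∈ S, κ (a • (Quotient.out y)) = κ0 y (a • (Quotient.out y)) := by
    intro y a ha
    have h1 : Quotient.mk s (a • (Quotient.out y)) = y := by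
      have h2 := (hmk (a • (Quotient.out y)) (Quotient.out y)).2 ⟨a, ha, rfl⟩
      rw [h2]; exact Quotient.out_eq y
    simp only [hκdef, h1]
  have hinv : ∀ v v' w w', Z.F [] [(v, v'), (w, w')] → s.r v w → s.r v' w' := by
    intro v v' w w' h h1
    rw [hrel] at h1 ⊢
    obtain ⟨a, ha, haw⟩ := h1
    obtain ⟨a', h2⟩ := Z.moveG h (by simp; omega) a
    refine ⟨a', hSinv hK Z a a' (Z.mono h2 (by simp) (by simp)) ha, ?_⟩
    exact (Z.smul_iff (Z.mono h2 (by simp) (by simp) :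
      Z.F [(a, a')] [(w, w'), (v, v')])).1 haw
  obtain ⟨Z1, z1, z2, z3⟩ := Z.toClasses (by omega) s hsm hinv
  -- nontrivial blocks
  have hntr : ∀ v v', Z.F [] [(v, v')] →
      (∃ a ∈ S, a • Quotient.out (Quotient.mk s v) ≠ Quotient.out (Quotient.mk s v)) →
      (∃ a ∈ S, a • Quotient.out (Quotient.mk s v') ≠ Quotient.out (Quotient.mk s v')) := by
    intro v v' h h1
    obtain ⟨a, ha, h2⟩ := h1
    obtain ⟨b, hb, h3⟩ := hrep v
    -- a point of the block different from v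
    have h4 : (b * a * b⁻¹) • v ≠ v := by
      rw [← h3, mul_smul, mul_smul, inv_smul_smul]
      intro h5
      exact h2 (smul_left_cancel b h5)
    have h5 : b * a * b⁻¹ ∈ S := mul_mem (mul_mem hb ha) (inv_mem hb)
    obtain ⟨a', h6⟩ := Z.moveG h (by simp; omega) (b * a * b⁻¹)
    have h7 := hSinv hK Z _ a' (Z.mono h6 (by simp) (by simp)) h5
    have h8 : a' • v' ≠ v' := by
      intro h9
      exact h4 ((Z.smul_iff (Z.mono h6 (by simp) (by simp) :
        Z.F [(b * a * b⁻¹, a')] [(v, v'), (v, v')])).2 h9)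
    by_contra hcon
    push Not at hcon
    obtain ⟨b', hb', h10⟩ := hrep v'
    apply h8
    rw [← h10, hcon b' hb']
    exact hcon a' h7
  have hlab : ∀ v v', Z.F [] [(v, v')] → κ' (Quotient.mk s v) = κ' (Quotient.mk s v') := by
    intro v v' h
    by_cases h1 : ∃ a ∈ S, a • Quotient.out (Quotient.mk s v) ≠ Quotient.out (Quotient.mk s v)
    · have h1' := hntr v v' h h1
      obtain ⟨X0, hX0, X1, hX1, -, e0, e1, -, -⟩ := ((hκ0 (Quotient.mk s v)).1 h1).1
      obtain ⟨Y0, hY0, Y1, hY1, -, e0', e1', u0', u1'⟩ := ((hκ0 (Quotient.mk s v')).1 h1').1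
      have hcl : ∀ y : Quotient s, ∀ X ∈ {w | ∃ a ∈ S, a • (Quotient.out y) = w},
          Quotient.mk s X = y := by
        rintro y X ⟨a, ha, rfl⟩
        have h2 := (hmk (a • (Quotient.out y)) (Quotient.out y)).2 ⟨a, ha, rfl⟩
        rw [h2]; exact Quotient.out_eq y
      have hback : ∀ X X', Z.F [] [(v, v'), (X, X')] → Quotient.mk s X = Quotient.mk s v →
          X' ∈ {w | ∃ a ∈ S, a • (Quotient.out (Quotient.mk s v')) = w} ∧
            κ0 (Quotient.mk s v') X' = κ0 (Quotient.mk s v) X := by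
        intro X X' hXX hX
        have h2 : Quotient.mk s X' = Quotient.mk s v' := by
          apply Quotient.sound
          exact hinv X X' v v' (Z.monoB hXX (by simp)) (Quotient.exact hX)
        constructor
        · have := hrep X'
          rw [h2] at this
          exact this
        · have h3 := hpres X X' (Z.monoB hXX (by simp))
          simp only [hκdef, h2, hX] at h3
          exact h3.symm
      obtain ⟨X0', p0⟩ := Z.forthV h (by simp; omega) X0
      obtain ⟨X1', p1⟩ := Z.forthV h (by simp; omega) X1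
      obtain ⟨q0, r0⟩ := hback X0 X0' (Z.monoB p0 (by simp)) (hcl _ X0 hX0)
      obtain ⟨q1, r1⟩ := hback X1 X1' (Z.monoB p1 (by simp)) (hcl _ X1 hX1)
      rw [e0] at r0
      rw [e1] at r1
      have s0 := u0' X0' q0 (by rw [r0])
      have s1 := u1' X1' q1 (by rw [r1])
      rw [s0, e0'] at r0
      rw [s1, e1'] at r1
      exact Prod.ext (congrArg Prod.fst r0).symm (congrArg Prod.fst r1).symm
    · have h1' : ¬ ∃ a ∈ S, a • Quotient.out (Quotient.mk s v') ≠
          Quotient.out (Quotient.mk s v') := fun h2 => h1 (hntr v' v (Z.symmV h) h2)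
      push Not at h1 h1'
      have h3 := hpres v v' h
      have h4 : ∀ u : V, (∀ a ∈ S, a • Quotient.out (Quotient.mk s u) =
          Quotient.out (Quotient.mk s u)) → κ0 (Quotient.mk s u) u = κ' (Quotient.mk s u) := by
        intro u hu
        obtain ⟨b, hb, h5⟩ := hrep u
        have h6 : Quotient.out (Quotient.mk s u) = u := by
          rw [← hu b hb]; exact h5
        have h7 := (hκ0 (Quotient.mk s u)).2 hu
        rw [h6] at h7
        exact h7
      rw [← h4 v h1, ← h4 v' h1']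
      exact h3
  have hZ1 : Z1.Pres κ' := by
    intro y y' h
    obtain ⟨u, u', rfl, rfl, h2⟩ := z2 [] y y' h
    exact hlab u u' h2
  have hZ1p : ∀ i, Z1.Pin (x i) := by
    intro i g h
    exact hpin i g (z3 _ h)
  have hcls : Quotient.mk s v = Quotient.mk s w := by
    obtain ⟨q, rfl⟩ := hvw
    refine hκ' hK Z1 hZ1p hZ1 (Quotient.mk s v) (Quotient.mk s (q • v)) ⟨q, hsm q v⟩ ?_
    exact z1 [] [(v, q • v)] hF
  by_cases h1 : ∃ a ∈ S, a • Quotient.out (Quotient.mk s v) ≠ Quotient.out (Quotient.mk s v)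
  · refine ((hκ0 (Quotient.mk s v)).1 h1).2 hK Z κ hpin (hκB _) hpres v w (hrep v) ?_ hF
    rw [hcls]; exact hrep w
  · push Not at h1
    obtain ⟨b, hb, h2⟩ := hrep v
    obtain ⟨b', hb', h3⟩ := hrep w
    rw [← hcls] at h3
    rw [← h2, ← h3, h1 b hb, h1 b' hb']

theorem naming (n : ℕ) : ∀ (V : Type) [Finite V] (G : Type) [Group G] [Finite G] [MulAction G V]
    {D : ℕ} (x : Fin D → G), Nat.card V = n → Cov x →
    ∃ κ : V → Col, ∀ {K : ℕ}, 12 ≤ K → ∀ (Z : BF G V K), (∀ i, Z.Pin (x i)) → Z.Pres κ →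
      ∀ v w, w ∈ MulAction.orbit G v → Z.F [] [(v, w)] → v = w := by
  induction n using Nat.strong_induction_on with
  | _ n ih =>
    intro V _ G _ _ _ D x hn hx
    let φ := MulAction.toPermHom G V
    have hφ : Function.Surjective φ.rangeRestrict := φ.rangeRestrict_surjective
    have hfaith : ∀ q : φ.range, (∀ v : V, q • v = v) → q = 1 := by
      intro q h
      apply Subtype.ext
      ext v
      exact h v
    obtain ⟨κ, hκ⟩ := naming_step V φ.range hfaith (fun i => φ.rangeRestrict (x i))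
      (hx.map _ hφ) (by
        intro V' _ _ hlt
        exact ih (Nat.card V') (by omega) V' φ.range (fun i => φ.rangeRestrict (x i)) rfl
          (hx.map _ hφ))
    refine ⟨κ, ?_⟩
    intro K hK Z hpin hpres v w hvw hF
    obtain ⟨Z', z1, z2, z3⟩ := Z.toQuot (by omega) φ.rangeRestrict hφ (fun g v => rfl) hfaith
    refine hκ hK Z' (fun i => z3 _ (hpin i)) (fun u u' h => hpres u u' (z2 _ h)) v w ?_ ?_
    · obtain ⟨g, rfl⟩ := hvw
      exact ⟨φ.rangeRestrict g, rfl⟩
    · exact z1 [] [(v, w)] hF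

end Pool.Agent.H68.WLN
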