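import Pool.Agent.H68.N.Basic
import Pool.Agent.H68.N.Chain
import Pool.Agent.H68.N.Fac

set_option autoImplicit false

namespace Pool.Agent.H68.WLN

open Pool.Agent.H68.WL

section Non

variable {Q V : Type} [Group Q] [Finite Q] [MulAction Q V] {K : ℕ}

/-- The socle factors acting nontrivially on `B`. -/
abbrev Ix (Q : Type) {V : Type} [Group Q] [MulAction Q V] (B : Finset V) : Type :=
  {T : {T : Subgroup Q // IsSocleFactor T} // ∃ r ∈ T.1, ∃ w ∈ B, r • w ≠ w}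

/-- The factor. -/
def RR {B : Finset V} (T : Ix Q B) : Subgroup Q := T.1.1

variable (hss : ∀ N : Subgroup Q, N.Normal → (∀ x ∈ N, ∀ y ∈ N, x * y = y * x) → N = ⊥)
  {B : Finset V}

include hss

theorem nclS_RR (T : Ix Q B) {r : Q} (hr : r ∈ RR T) (h1 : r ≠ 1) : nclS r = RR T :=
  nclS_eq hss T.1.2 hr h1

theorem RR_inj {T T' : Ix Q B} {r : Q} (hr : r ∈ RR T) (hr' : r ∈ RR T') (h1 : r ≠ 1) :
    T = T' :=
  Subtype.ext (Subtype.ext ((nclS_RR hss T hr h1).symm.trans (nclS_RR hss T' hr' h1)))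

theorem RR_simple (T : Ix Q B) : IsSimpleGroup (RR T) := by
  obtain ⟨M, hM, hT⟩ := T.1.2
  exact isSimple_of_min hM hT

theorem RR_nonab' (T : Ix Q B) : ∃ a b : RR T, a * b ≠ b * a := by
  obtain ⟨M, hM, hT⟩ := T.1.2
  exact not_comm_of_min hss hM hT

theorem RR_nonab (T : Ix Q B) : ∃ a ∈ RR T, ∃ b ∈ RR T, a * b ≠ b * a := by
  obtain ⟨a, b, hab⟩ := RR_nonab' hss T
  exact ⟨a, a.2, b, b.2, fun h => hab (Subtype.ext h)⟩

theorem RR_cent (T : Ix Q B) {a b : Q} (ha : a ∈ RR T) (hb : b ∈ RR T)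
    (h : ∀ z ∈ RR T, a * z * a⁻¹ = b * z * b⁻¹) : a = b := by
  haveI := RR_simple hss T
  by_contra hne
  have h1 : (⟨b⁻¹ * a, (RR T).mul_mem ((RR T).inv_mem hb) ha⟩ : RR T) ≠ 1 := by
    intro h2
    apply hne
    have h3 : b⁻¹ * a = 1 := congrArg Subtype.val h2
    exact (inv_mul_eq_one.1 h3).symm
  obtain ⟨⟨c, hc⟩, hcc⟩ := exists_comm_ne (RR_nonab' hss T) h1
  apply hcc
  apply Subtype.ext
  change b⁻¹ * a * c = c * (b⁻¹ * a)
  have h2 := h c hc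
  calc b⁻¹ * a * c = b⁻¹ * (a * c * a⁻¹) * a := by group
    _ = b⁻¹ * (b * c * b⁻¹) * a := by rw [h2]
    _ = c * (b⁻¹ * a) := by group

theorem RR_comm (T T' : Ix Q B) (hne : T ≠ T') : ∀ x ∈ RR T, ∀ y ∈ RR T', x * y = y * x :=
  socleFactor_commute T.1.2 T'.1.2 (fun h => hne (Subtype.ext (Subtype.ext h)))

theorem RR_le (T : Ix Q B) : RR T ≤ socle Q := by
  rw [socle_eq hss]
  exact le_iSup (fun T : {T : Subgroup Q // IsSocleFactor T} => T.1) T.1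

variable {v0 : V} (hBm : ∀ w, w ∈ B ↔ ∃ a ∈ socle Q, a • v0 = w)

omit hss [Finite Q] in
include hBm in
theorem smul_memB {a : Q} (ha : a ∈ socle Q) {w : V} (hw : w ∈ B) : a • w ∈ B := by
  rw [hBm] at hw ⊢
  obtain ⟨b, hb, rfl⟩ := hw
  exact ⟨a * b, mul_mem ha hb, by rw [mul_smul]⟩

omit hss [Finite Q] in
include hBm in
theorem transB {w w' : V} (hw : w ∈ B) (hw' : w' ∈ B) : ∃ a ∈ socle Q, a • w = w' := by
  rw [hBm] at hw hw'
  obtain ⟨b, hb, rfl⟩ := hw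
  obtain ⟨c, hc, rfl⟩ := hw'
  exact ⟨c * b⁻¹, mul_mem hc (inv_mem hb), by rw [mul_smul, inv_smul_smul]⟩

include hBm in
theorem RR_trans : ∀ w ∈ B, ∀ w' ∈ B, ∃ a ∈ ⨆ T : Ix Q B, RR T, a • w = w' := by
  have key : ∀ a ∈ soc Q, ∀ w ∈ B, ∃ a' ∈ ⨆ T : Ix Q B, RR T, a' • w = a • w := by
    intro a ha
    induction ha using Subgroup.iSup_induction' with
    | hp T x hx =>
      intro w hw
      by_cases hT : ∃ r ∈ T.1, ∃ w ∈ B, r • w ≠ w
      · exact ⟨x, (le_iSup (fun T : Ix Q B => RR T) ⟨T, hT⟩) hx, rfl⟩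
      · push Not at hT
        exact ⟨1, one_mem _, by rw [one_smul, hT x hx w hw]⟩
    | h1 => intro w _; exact ⟨1, one_mem _, rfl⟩
    | hmul x y hx hy ihx ihy =>
      intro w hw
      obtain ⟨y', hy', h1⟩ := ihy w hw
      have hyw : y • w ∈ B := by
        refine smul_memB hBm ?_ hw
        rw [socle_eq hss]; exact hy
      obtain ⟨x', hx', h2⟩ := ihx (y • w) hyw
      exact ⟨x' * y', mul_mem hx' hy', by rw [mul_smul, h1, h2, mul_smul]⟩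
  intro w hw w' hw'
  obtain ⟨a, ha, rfl⟩ := transB hBm hw hw'
  obtain ⟨a', ha', h⟩ := key a (by rw [← socle_eq hss]; exact ha) w hw
  exact ⟨a', ha', h⟩

/-- A good letter of `T` is induced by `h`. -/
def GoodH (B : Finset V) (T : Ix Q B) (h : Q) : Prop :=
  ∃ ρ ∈ RR T, (∀ z ∈ RR T, h * z * h⁻¹ = ρ * z * ρ⁻¹) ∧
    2 * B.card ≤ 3 * {w | w ∈ B ∧ Ok (RR (B := B)) T ρ w}.ncard

variable (hK : 11 ≤ K) (Z : BF Q V K)

omit hss in
include hK hBm in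
theorem memB_of {v v' w w' : V} (h : Z.F [] [(v, v'), (w, w')]) (hv : v ∈ B) (hw : w ∈ B)
    (hv' : v' ∈ B) : w' ∈ B := by
  obtain ⟨a, ha, haw⟩ := transB hBm hv hw
  obtain ⟨a', h1⟩ := Z.moveG h (by simp; omega) a
  have h2 := (Z.smul_iff h1).1 haw
  have h3 : a' ∈ socle Q :=
    Z.toSys0.socle_inv (by omega) (Z.mono h1 (by simp) (by simp) : Z.F [(a, a')] []) ha
  rw [← h2]
  exact smul_memB hBm h3 hv'

variable (hfix : ∀ v v', Z.F [] [(v, v')] → v ∈ B → v' ∈ B)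

include hK hfix

theorem facIx {T : Ix Q B} {r r' : Q} (h : Z.F [(r, r')] []) (hr : r ∈ RR T) (h1 : r ≠ 1) :
    ∃ T' : Ix Q B, r' ∈ RR T' ∧ r' ≠ 1 := by
  have h2 : Fac r := (fac_iff hss r).2 ⟨h1, T.1.1, T.1.2, hr⟩
  have h3 : Fac r' := Z.toSys0.fac_inv (by omega) h h2
  obtain ⟨h4, T1, hT1, hr1⟩ := (fac_iff hss r').1 h3
  refine ⟨⟨⟨T1, hT1⟩, ?_⟩, hr1, h4⟩
  obtain ⟨s, hs, w, hw, hsw⟩ := T.2
  obtain ⟨s', hs'⟩ := Z.moveG h (by simp; omega) s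
  have h5 : s' ∈ nclS r' := by
    have h6 : s ∈ nclS r := by rw [nclS_RR hss T hr h1]; exact hs
    exact Z.toSys0.nclS_inv (by omega) (Z.monoA hs' (by simp) : Z.F [(r, r'), (s, s')] []) h6
  rw [nclS_eq hss hT1 hr1 h4] at h5
  obtain ⟨w', hw'⟩ := Z.forthV hs' (by simp; omega) w
  refine ⟨s', h5, w', hfix w w' (Z.mono hw' (by simp) (by simp)) hw, ?_⟩
  intro h7
  apply hsw
  have h8 := Z.place_smul hw' (by simp; omega) (a := s) (a' := s') (v := w) (v' := w')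
    (by simp) (by simp)
  exact (Z.eqV_iff (Z.mono h8 (by simp) (by simp) : Z.F [] [(s • w, s' • w'), (w, w')])).2 h7

/-- `s` in the factor of `r` is matched with an element of the factor of `r'`. -/
theorem mem_of {T T' : Ix Q B} {r r' s s' : Q} (h : Z.F [(r, r'), (s, s')] []) (hr : r ∈ RR T)
    (h1 : r ≠ 1) (hr' : r' ∈ RR T') : s ∈ RR T ↔ s' ∈ RR T' := by
  have h2 : r' ≠ 1 := fun h3 => h1 ((Z.toSys0.eq_one_iff (by omega)
    (Z.monoA h (by simp) : Z.F [(r, r')] [])).2 h3)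
  rw [← nclS_RR hss T hr h1, ← nclS_RR hss T' hr' h2]
  exact Z.toSys0.nclS_iff (by omega) h

theorem ok_inv {T T' : Ix Q B} {r r' ρ ρ' : Q} {w w' : V}
    (h : Z.F [(r, r'), (ρ, ρ')] [(w, w')]) (hr : r ∈ RR T) (h1 : r ≠ 1) (hr' : r' ∈ RR T')
    (hok : Ok (RR (B := B)) T ρ w) : Ok (RR (B := B)) T' ρ' w' := by
  have hp := Z.place_smul h (by simp; omega) (a := ρ) (a' := ρ') (v := w) (v' := w')
    (by simp) (by simp)
  refine ⟨?_, ?_⟩
  · intro h2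
    exact hok.1 ((Z.eqV_iff (Z.mono hp (by simp) (by simp) :
      Z.F [] [(ρ • w, ρ' • w'), (w, w')])).2 h2)
  rintro j' hj' ⟨r2', hr2', e2'⟩ s' hs'
  obtain ⟨r2, h2⟩ := Z.back hp (by simp; omega) r2'
  obtain ⟨s, h3⟩ := Z.back h2 (by simp; omega) s'
  -- r2 is not trivial
  have e2 : r2 • w = ρ • w :=
    (Z.smul_iff (Z.mono h3 (by simp) (by simp) :
      Z.F [(r2, r2')] [(w, w'), (ρ • w, ρ' • w')])).2 e2'
  have hr21 : r2 ≠ 1 := by
    rintro rfl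
    rw [one_smul] at e2
    exact hok.1 e2.symm
  have hr21' : r2' ≠ 1 := fun h4 => hr21 ((Z.toSys0.eq_one_iff (by omega)
    (Z.mono h3 (by simp) (by simp) : Z.F [(r2, r2')] [])).2 h4)
  have hsymm : Z.F [(r2', r2)] [] := Z.symm1 (Z.mono h3 (by simp) (by simp))
  obtain ⟨j, hj, -⟩ := facIx hss hK Z hfix hsymm hr2' hr21'
  have hjT : j ≠ T := by
    rintro rfl
    have h4 := (mem_of hss hK Z hfix (Z.mono h3 (by simp) (by simp) :
      Z.F [(r, r'), (r2, r2')] []) hr h1 hr').1 hj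
    exact hj' (RR_inj hss hr2' h4 hr21')
  have hs : s ∈ RR T := (mem_of hss hK Z hfix (Z.mono h3 (by simp) (by simp) :
      Z.F [(r, r'), (s, s')] []) hr h1 hr').2 hs'
  obtain ⟨r3, hr3, e3⟩ := hok.2 j hjT ⟨r2, hj, e2⟩ s hs
  obtain ⟨r3', h4⟩ := Z.moveG h3 (by simp; omega) r3
  have h5 := Z.place_smul h4 (by simp; omega) (a := s) (a' := s') (v := w) (v' := w')
    (by simp) (by simp)
  refine ⟨r3', ?_, ?_⟩
  · exact (mem_of hss hK Z hfix (Z.mono h5 (by simp) (by simp) :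
      Z.F [(r2, r2'), (r3, r3')] []) hj hr21 hr2').1 hr3
  · exact (Z.smul_iff (Z.mono h5 (by simp) (by simp) :
      Z.F [(r3, r3')] [(w, w'), (s • w, s' • w')])).1 e3

theorem ok_card {T T' : Ix Q B} {r r' ρ ρ' : Q}
    (h : Z.F [(r, r'), (ρ, ρ')] []) (hr : r ∈ RR T) (h1 : r ≠ 1) (hr' : r' ∈ RR T') :
    {w | w ∈ B ∧ Ok (RR (B := B)) T ρ w}.ncard = {w | w ∈ B ∧ Ok (RR (B := B)) T' ρ' w}.ncard := by
  have h1' : r' ≠ 1 := fun h3 => h1 ((Z.toSys0.eq_one_iff (by omega)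
    (Z.monoA h (by simp) : Z.F [(r, r')] [])).2 h3)
  obtain ⟨f, hf⟩ := Z.moveV h (by simp; omega)
  have h2 : {w | w ∈ B ∧ Ok (RR (B := B)) T' ρ' w} =
      f '' {w | w ∈ B ∧ Ok (RR (B := B)) T ρ w} := by
    ext w'
    simp only [Set.mem_ofPred_eq, Set.mem_image]
    constructor
    · rintro ⟨hw', hok⟩
      have h3 := hf (f.symm w')
      rw [f.apply_symm_apply] at h3
      have h4 := Z.symm h3
      simp only [List.map_cons, List.map_nil, Prod.swap_prod_mk] at h4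
      refine ⟨f.symm w', ⟨hfix w' _ (Z.mono h4 (by simp) (by simp)) hw', ?_⟩, by simp⟩
      exact ok_inv hss hK Z hfix h4 hr' h1' hr hok
    · rintro ⟨w, ⟨hw, hok⟩, rfl⟩
      exact ⟨hfix w _ (Z.mono (hf w) (by simp) (by simp)) hw,
        ok_inv hss hK Z hfix (hf w) hr h1 hr' hok⟩
  rw [h2, Set.ncard_image_of_injective _ f.injective]

/-- conjugation by a pinned element is respected -/
theorem act_inv {T T' : Ix Q B} {r r' ρ ρ' h0 : Q}
    (h : Z.F [(r, r'), (ρ, ρ')] []) (hr : r ∈ RR T) (h1 : r ≠ 1) (hr' : r' ∈ RR T')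
    (hp : Z.Pin h0) (ha : ∀ z ∈ RR T, h0 * z * h0⁻¹ = ρ * z * ρ⁻¹) :
    ∀ z ∈ RR T', h0 * z * h0⁻¹ = ρ' * z * ρ'⁻¹ := by
  intro z' hz'
  obtain ⟨z, h2⟩ := Z.back h (by simp; omega) z'
  have hz : z ∈ RR T := (mem_of hss hK Z hfix (Z.mono h2 (by simp) (by simp) :
      Z.F [(r, r'), (z, z')] []) hr h1 hr').2 hz'
  have h3 := hp.place h2 (by simp; omega)
  have h4 := Z.place_conj h3 (by simp; omega) (a := h0) (a' := h0) (b := z) (b' := z')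
    (by simp) (by simp)
  have h5 := Z.place_conj h4 (by simp; omega) (a := ρ) (a' := ρ') (b := z) (b' := z')
    (by simp) (by simp)
  have h6 := Z.eqG (Z.mono h5 (by simp) (by simp) :
    Z.F [(h0 * z * h0⁻¹, h0 * z' * h0⁻¹), (ρ * z * ρ⁻¹, ρ' * z' * ρ'⁻¹)] [])
  exact h6 (ha z hz)

theorem goodH_inv {T T' : Ix Q B} {r r' h0 : Q}
    (h : Z.F [(r, r')] []) (hr : r ∈ RR T) (h1 : r ≠ 1) (hr' : r' ∈ RR T')
    (hp : Z.Pin h0) (hg : GoodH B T h0) : GoodH B T' h0 := by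
  obtain ⟨ρ, hρ, ha, hc⟩ := hg
  obtain ⟨ρ', h2⟩ := Z.moveG h (by simp; omega) ρ
  have h3 : Z.F [(r, r'), (ρ, ρ')] [] := Z.monoA h2 (by simp)
  refine ⟨ρ', (mem_of hss hK Z hfix h3 hr h1 hr').1 hρ,
    act_inv hss hK Z hfix h3 hr h1 hr' hp ha, ?_⟩
  rw [← ok_card hss hK Z hfix h3 hr h1 hr']
  exact hc

theorem goodH_iff {T T' : Ix Q B} {r r' h0 : Q}
    (h : Z.F [(r, r')] []) (hr : r ∈ RR T) (h1 : r ≠ 1) (hr' : r' ∈ RR T')
    (hp : Z.Pin h0) : GoodH B T h0 ↔ GoodH B T' h0 := by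
  have h1' : r' ≠ 1 := fun h3 => h1 ((Z.toSys0.eq_one_iff (by omega)
    (Z.monoA h (by simp) : Z.F [(r, r')] [])).2 h3)
  exact ⟨goodH_inv hss hK Z hfix h hr h1 hr' hp,
    goodH_inv hss hK Z hfix (Z.symm1 h) hr' h1' hr hp⟩

end Non

end Pool.Agent.H68.WLN
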