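import Pool.Agent.H68.N.Non

set_option autoImplicit false

namespace Pool.Agent.H68.WLN

open Pool.Agent.H68.WL

/-- The data by which a large block is named. -/
structure IsChain {Q V ι : Type} [Group Q] [MulAction Q V] (B : Finset V) (ρ : ι → Q) (s : ℕ)
    (e : ℕ → ι) (ω : V) (θ : ℕ → V) : Prop where
  pos : 0 < s
  surj : ∀ i, ∃ k < s, e k = i
  inj : ∀ h < s, ∀ k < s, e h = e k → h = k
  memω : ω ∈ B
  ne0 : ρ (e 0) • ω ≠ ω
  base : ∀ j, j ≠ e 0 → ρ j • ω ≠ ρ (e 0) • ω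
  memθ : ∀ k, k + 1 < s → θ k ∈ B
  u0 : ∀ k, k + 1 < s → ∀ j, j ≠ e k → ρ j • θ k ≠ ρ (e k) • θ k
  u1 : ∀ k, k + 1 < s → ∀ j, j ≠ e (k + 1) → ρ j • θ k ≠ ρ (e (k + 1)) • θ k
  av : ∀ k, k + 1 < s → θ k ≠ ω ∧ θ k ≠ ρ (e 0) • ω ∧
        ρ (e k) • θ k ≠ ω ∧ ρ (e k) • θ k ≠ ρ (e 0) • ω ∧
        ρ (e (k + 1)) • θ k ≠ ω ∧ ρ (e (k + 1)) • θ k ≠ ρ (e 0) • ω
  sep : ∀ h k, h + 1 < s → k + 1 < s → h ≠ k → ∀ j,
        ρ j • θ k ≠ ρ (e h) • θ h ∧ ρ j • θ k ≠ ρ (e (h + 1)) • θ h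

open Classical in
/-- Three bits. -/
noncomputable def bits (a b c : Prop) : Fin 256 :=
  if a then (if b then (if c then 2 else 3) else (if c then 4 else 5))
  else (if b then (if c then 6 else 7) else (if c then 8 else 9))

theorem bits_ne_zero (a b c : Prop) : bits a b c ≠ 0 := by
  unfold bits
  split_ifs <;> decide

theorem bits_ne_one (a b c : Prop) : bits a b c ≠ 1 := by
  unfold bits
  split_ifs <;> decide

theorem bits_inj {a b c a' b' c' : Prop} (h : bits a b c = bits a' b' c') :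
    (a ↔ a') ∧ (b ↔ b') ∧ (c ↔ c') := by
  unfold bits at h
  split_ifs at h <;> first | (exfalso; revert h; decide) | tauto

open Classical in
/-- The colouring of a large block. -/
noncomputable def colr {Q V ι : Type} [Group Q] [MulAction Q V] (ρ : ι → Q) (s : ℕ)
    (e : ℕ → ι) (ω : V) (θ : ℕ → V) (c : Col) (u : V) : Col :=
  if u = ω then (c.1, 0) else if u = ρ (e 0) • ω then (c.2, 1) else
    (0, bits (∃ k, k + 1 < s ∧ u = θ k) (∃ k, k + 1 < s ∧ u = ρ (e k) • θ k)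
      (∃ k, k + 1 < s ∧ u = ρ (e (k + 1)) • θ k))

section colr

variable {Q V ι : Type} [Group Q] [MulAction Q V] {B : Finset V} {ρ : ι → Q} {s : ℕ}
    {e : ℕ → ι} {ω : V} {θ : ℕ → V} (c : Col)

theorem colr_zero {u : V} (h : (colr ρ s e ω θ c u).2 = 0) : u = ω := by
  unfold colr at h
  by_contra h1
  rw [if_neg h1] at h
  split_ifs at h with h2
  · simp at h
  · exact bits_ne_zero _ _ _ h

theorem colr_one {u : V} (h : (colr ρ s e ω θ c u).2 = 1) : u = ρ (e 0) • ω := by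
  unfold colr at h
  split_ifs at h with h1 h2
  · simp at h
  · exact h2
  · exact absurd h (bits_ne_one _ _ _)

theorem colr_flag {u u' : V} (h : colr ρ s e ω θ c u = colr ρ s e ω θ c u') (h0 : u ≠ ω)
    (h1 : u ≠ ρ (e 0) • ω) :
    ((∃ k, k + 1 < s ∧ u = θ k) → (∃ k, k + 1 < s ∧ u' = θ k)) ∧
    ((∃ k, k + 1 < s ∧ u = ρ (e k) • θ k) → (∃ k, k + 1 < s ∧ u' = ρ (e k) • θ k)) ∧
    ((∃ k, k + 1 < s ∧ u = ρ (e (k + 1)) • θ k) →
      (∃ k, k + 1 < s ∧ u' = ρ (e (k + 1)) • θ k)) := by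
  have h0' : u' ≠ ω := by
    intro h2
    apply h0
    apply colr_zero (ρ := ρ) (s := s) (e := e) (θ := θ) c
    rw [h, h2]
    simp [colr]
  have h1' : u' ≠ ρ (e 0) • ω := by
    intro h2
    apply h1
    apply colr_one (ρ := ρ) (s := s) (e := e) (θ := θ) c
    rw [h]
    unfold colr
    rw [if_neg h0', if_pos h2]
  unfold colr at h
  rw [if_neg h0, if_neg h1, if_neg h0', if_neg h1'] at h
  have h2 := bits_inj (congrArg Prod.snd h)
  exact ⟨h2.1.1, h2.2.1.1, h2.2.2.1⟩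

theorem colr_pat (hc : IsChain B ρ s e ω θ) (hm : ρ (e 0) • ω ∈ B) :
    Pat (B : Set V) c (colr ρ s e ω θ c) := by
  refine ⟨ω, hc.memω, ρ (e 0) • ω, hm, hc.ne0.symm, ?_, ?_, ?_, ?_⟩
  · unfold colr
    rw [if_pos rfl]
  · unfold colr
    rw [if_neg hc.ne0, if_pos rfl]
  · intro u _ h
    exact colr_zero c h
  · intro u _ h
    exact colr_one c h

end colr

section Non2

variable {Q V : Type} [Group Q] [Finite Q] [MulAction Q V] {K D : ℕ} (x : Fin D → Q)
  {B : Finset V}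

/-- The canonical element inducing a good letter. -/
noncomputable def HH (B : Finset V) (T : Ix Q B) : Q :=
  Classical.epsilon (fun h => h ∈ Subgroup.closure (Set.range x) ∧ GoodH B T h)

variable (hss : ∀ N : Subgroup Q, N.Normal → (∀ x ∈ N, ∀ y ∈ N, x * y = y * x) → N = ⊥)
  (hcov : ∀ R : Subgroup Q, IsSocleFactor R → (∃ a ∈ R, ∃ b ∈ R, a * b ≠ b * a) →
      ∀ ρ ∈ R, ∃ h ∈ Subgroup.closure (Set.range x), ∀ z ∈ R, h * z * h⁻¹ = ρ * z * ρ⁻¹)
  {v0 : V} (hBm : ∀ w, w ∈ B ↔ ∃ a ∈ socle Q, a • v0 = w)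

include hss hcov hBm

theorem HH_spec (T : Ix Q B) : HH x B T ∈ Subgroup.closure (Set.range x) ∧
    GoodH B T (HH x B T) := by
  apply Classical.epsilon_spec (p := fun h => h ∈ Subgroup.closure (Set.range x) ∧ GoodH B T h)
  obtain ⟨ρ, hρ, hc⟩ := exists_good (RR (B := B)) B (RR_comm hss) (RR_simple hss)
    (RR_nonab hss) (fun i r hr w hw => smul_memB hBm (RR_le hss i hr) hw) (RR_trans hss hBm)
    (fun i => i.2) T
  obtain ⟨h, hh, ha⟩ := hcov (RR T) T.1.2 (RR_nonab hss T) ρ hρ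
  exact ⟨h, hh, ρ, hρ, ha, hc⟩

/-- The letter of `T`. -/
noncomputable def letter (T : Ix Q B) : Q := (HH_spec x hss hcov hBm T).2.choose

theorem letter_mem (T : Ix Q B) : letter x hss hcov hBm T ∈ RR T :=
  (HH_spec x hss hcov hBm T).2.choose_spec.1

theorem letter_act (T : Ix Q B) : ∀ z ∈ RR T, HH x B T * z * (HH x B T)⁻¹ =
    letter x hss hcov hBm T * z * (letter x hss hcov hBm T)⁻¹ :=
  (HH_spec x hss hcov hBm T).2.choose_spec.2.1

theorem letter_good (T : Ix Q B) : 2 * B.card ≤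
    3 * {w | w ∈ B ∧ Ok (RR (B := B)) T (letter x hss hcov hBm T) w}.ncard :=
  (HH_spec x hss hcov hBm T).2.choose_spec.2.2

theorem letter_ne (hB : 0 < B.card) (T : Ix Q B) : letter x hss hcov hBm T ≠ 1 := by
  intro h
  have h1 := letter_good x hss hcov hBm T
  have h2 : 0 < {w | w ∈ B ∧ Ok (RR (B := B)) T (letter x hss hcov hBm T) w}.ncard := by omega
  obtain ⟨w, -, hw⟩ := Set.nonempty_of_ncard_ne_zero h2.ne'
  apply hw.1
  rw [h, one_smul]

variable (hK : 11 ≤ K) (Z : BF Q V K) (hfix : ∀ v v', Z.F [] [(v, v')] → v ∈ B → v' ∈ B)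
  (hx : ∀ i, Z.Pin (x i))

include hK hfix hx

theorem HH_eq {T T' : Ix Q B} {r r' : Q} (h : Z.F [(r, r')] []) (hr : r ∈ RR T) (h1 : r ≠ 1)
    (hr' : r' ∈ RR T') : HH x B T = HH x B T' := by
  unfold HH
  congr 1
  funext h0
  apply propext
  refine and_congr_right fun h2 => ?_
  exact goodH_iff hss hK Z hfix h hr h1 hr' (BF.pin_closure (by omega) hx h2)

theorem place_letter {A : List (Q × Q)} {C : List (V × V)} (h : Z.F A C)
    (hl : A.length + C.length < K) {T T' : Ix Q B} {r r' : Q} (hA : (r, r') ∈ A)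
    (hr : r ∈ RR T) (h1 : r ≠ 1) (hr' : r' ∈ RR T') :
    Z.F ((letter x hss hcov hBm T, letter x hss hcov hBm T') :: A) C := by
  obtain ⟨ρ', h2⟩ := Z.moveG h hl (letter x hss hcov hBm T)
  have h3 : Z.F [(r, r'), (letter x hss hcov hBm T, ρ')] [] := by
    refine Z.mono h2 ?_ (by simp)
    intro p hp
    simp only [List.mem_cons, List.not_mem_nil, or_false] at hp
    rcases hp with rfl | rfl
    · exact List.mem_cons_of_mem _ hA
    · exact List.mem_cons_self
  have h4 : ρ' ∈ RR T' := (mem_of hss hK Z hfix h3 hr h1 hr').1 (letter_mem x hss hcov hBm T)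
  have h5 : HH x B T = HH x B T' :=
    HH_eq x hss hcov hBm hK Z hfix hx (Z.monoA h3 (by simp)) hr h1 hr'
  have h6 := act_inv hss hK Z hfix h3 hr h1 hr'
    (BF.pin_closure (by omega) hx (HH_spec x hss hcov hBm T).1) (letter_act x hss hcov hBm T)
  have h7 : ρ' = letter x hss hcov hBm T' := by
    apply RR_cent hss T' h4 (letter_mem x hss hcov hBm T')
    intro z hz
    rw [← h6 z hz, ← letter_act x hss hcov hBm T' z hz, h5]
  rw [h7] at h2
  exact h2

/-- elements of a recognized factor are pinned -/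
theorem pin_of_rec {T : Ix Q B} (hrec : ∀ r r', r ∈ RR T → r ≠ 1 → Z.F [(r, r')] [] → r' ∈ RR T)
    {z : Q} (hz : z ∈ RR T) : Z.Pin z := by
  intro z' h
  by_cases hz1 : z = 1
  · rw [hz1] at h ⊢
    exact BF.pin_one z' h
  have hz' := hrec z z' hz hz1 h
  obtain ⟨h0, hh, ha⟩ := hcov (RR T) T.1.2 (RR_nonab hss T) z hz
  have h2 := act_inv hss hK Z hfix (Z.monoA h (by simp) : Z.F [(z, z'), (z, z')] []) hz hz1 hz'
    (BF.pin_closure (by omega) hx hh) ha
  apply RR_cent hss T hz' hz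
  intro y hy
  rw [← h2 y hy, ha y hy]

variable {s : ℕ} {e : ℕ → Ix Q B} {ω : V} {θ : ℕ → V}
  (hc : IsChain B (letter x hss hcov hBm) s e ω θ) (c : Col)
  (hω : ∀ w, Z.F [] [(ω, w)] → w = ω)
  (hκ : ∀ u u', u ∈ B → Z.F [] [(u, u')] →
    colr (letter x hss hcov hBm) s e ω θ c u = colr (letter x hss hcov hBm) s e ω θ c u')

include hc hω hκ

theorem rec_zero (r r' : Q) (hr : r ∈ RR (e 0)) (h1 : r ≠ 1) (h : Z.F [(r, r')] []) :
    r' ∈ RR (e 0) := by
  obtain ⟨T', hr', -⟩ := facIx hss hK Z hfix h hr h1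
  have h2 := place_letter x hss hcov hBm hK Z hfix hx h (by simp; omega) (by simp) hr h1 hr'
  obtain ⟨w, h3⟩ := Z.forthV h2 (by simp; omega) ω
  have h4 : w = ω := hω w (Z.mono h3 (by simp) (by simp))
  rw [h4] at h3
  have h5 := Z.place_smul h3 (by simp; omega) (a := letter x hss hcov hBm (e 0))
    (a' := letter x hss hcov hBm T') (v := ω) (v' := ω) (by simp) (by simp)
  have hm : letter x hss hcov hBm (e 0) • ω ∈ B :=
    smul_memB hBm (RR_le hss _ (letter_mem x hss hcov hBm (e 0))) hc.memω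
  have h6 := hκ _ _ hm (Z.mono h5 (by simp) (by simp) :
    Z.F [] [(letter x hss hcov hBm (e 0) • ω, letter x hss hcov hBm T' • ω)])
  have h7 : letter x hss hcov hBm T' • ω = letter x hss hcov hBm (e 0) • ω := by
    apply colr_one (ρ := letter x hss hcov hBm) (s := s) (e := e) (θ := θ) c
    rw [← h6]
    unfold colr
    rw [if_neg hc.ne0, if_pos rfl]
  by_cases hT : T' = e 0
  · rw [← hT]; exact hr'
  · exact absurd h7 (hc.base T' hT)

theorem rec_succ {k : ℕ} (hk : k + 1 < s)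
    (hrec : ∀ r r', r ∈ RR (e k) → r ≠ 1 → Z.F [(r, r')] [] → r' ∈ RR (e k))
    (r r' : Q) (hr : r ∈ RR (e (k + 1))) (h1 : r ≠ 1) (h : Z.F [(r, r')] []) :
    r' ∈ RR (e (k + 1)) := by
  set ρ := letter x hss hcov hBm with hρ
  have hpin : Z.Pin (ρ (e k)) :=
    pin_of_rec x hss hcov hBm hK Z hfix hx hrec (letter_mem x hss hcov hBm (e k))
  have hav := hc.av k hk
  obtain ⟨T', hr', -⟩ := facIx hss hK Z hfix h hr h1
  have h2 := place_letter x hss hcov hBm hK Z hfix hx h (by simp; omega) (by simp) hr h1 hr'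
  have h3 := hpin.place h2 (by simp; omega)
  obtain ⟨θ', h4⟩ := Z.forthV h3 (by simp; omega) (θ k)
  have h5 := Z.place_smul h4 (by simp; omega) (a := ρ (e k)) (a' := ρ (e k)) (v := θ k)
    (v' := θ') (by simp) (by simp)
  have h6 := Z.place_smul h5 (by simp; omega) (a := ρ (e (k + 1))) (a' := ρ T') (v := θ k)
    (v' := θ') (by simp [hρ]) (by simp)
  have hmem : ∀ T : Ix Q B, ρ T • θ k ∈ B := fun T =>
    smul_memB hBm (RR_le hss _ (letter_mem x hss hcov hBm T)) (hc.memθ k hk)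
  -- the point θ k
  have f1 := (colr_flag c (hκ _ _ (hc.memθ k hk) (Z.mono h6 (by simp) (by simp) :
    Z.F [] [(θ k, θ')])) hav.1 hav.2.1).1 ⟨k, hk, rfl⟩
  obtain ⟨h', hh', rfl⟩ := f1
  have f2 := (colr_flag c (hκ _ _ (hmem (e k)) (Z.mono h6 (by simp) (by simp) :
    Z.F [] [(ρ (e k) • θ k, ρ (e k) • θ h')])) hav.2.2.1 hav.2.2.2.1).2.1 ⟨k, hk, rfl⟩
  obtain ⟨h'', hh'', e2⟩ := f2
  have hkh : h' = k := by
    by_cases h7 : h'' = h'
    · rw [h7] at e2
      by_contra h8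
      refine hc.u0 h' hh' (e k) ?_ e2
      intro h9
      exact h8 (hc.inj _ (by omega) _ (by omega) h9).symm
    · exact absurd e2 (hc.sep h'' h' hh'' hh' h7 (e k)).1
  rw [hkh] at h6
  have f3 := (colr_flag c (hκ _ _ (hmem (e (k + 1))) (Z.mono h6 (by simp) (by simp) :
    Z.F [] [(ρ (e (k + 1)) • θ k, ρ T' • θ k)])) hav.2.2.2.2.1 hav.2.2.2.2.2).2.2 ⟨k, hk, rfl⟩
  obtain ⟨m, hm, e3⟩ := f3
  have hT : T' = e (k + 1) := by
    by_cases h7 : m = k
    · rw [h7] at e3
      by_contra h8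
      exact hc.u1 k hk T' h8 e3
    · exact absurd e3 (hc.sep m k hm hk h7 T').2
  rw [← hT]
  exact hr'

theorem rec_all (T : Ix Q B) (r r' : Q) (hr : r ∈ RR T) (h1 : r ≠ 1) (h : Z.F [(r, r')] []) :
    r' ∈ RR T := by
  have key : ∀ k, k < s → ∀ r r', r ∈ RR (e k) → r ≠ 1 → Z.F [(r, r')] [] → r' ∈ RR (e k) := by
    intro k
    induction k with
    | zero =>
      intro _ r r' hr h1 h
      exact rec_zero x hss hcov hBm hK Z hfix hx hc c hω hκ r r' hr h1 h
    | succ k ih =>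
      intro hk r r' hr h1 h
      exact rec_succ x hss hcov hBm hK Z hfix hx hc c hω hκ hk (ih (by omega)) r r' hr h1 h
  obtain ⟨k, hk, rfl⟩ := hc.surj T
  exact key k hk r r' hr h1 h

/-- points of the block are named -/
theorem named {v w : V} (hv : v ∈ B) (h : Z.F [] [(v, w)]) : v = w := by
  obtain ⟨w1, h0⟩ := Z.forthV h (by simp; omega) ω
  have hw1 : w1 = ω := hω w1 (Z.mono h0 (by simp) (by simp))
  rw [hw1] at h0
  obtain ⟨τ, hτ, hτv⟩ := transB hBm hc.memω hv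
  obtain ⟨τ', h2⟩ := Z.moveG h0 (by simp; omega) τ
  have hτ' : τ' ∈ socle Q := Z.toSys0.socle_inv (by omega) (Z.mono h2 (by simp) (by simp)) hτ
  have hτw : τ' • ω = w := (Z.smul_iff (Z.mono h2 (by simp) (by simp) :
    Z.F [(τ, τ')] [(ω, ω), (v, w)])).1 hτv
  have hcomm : ∀ T : Ix Q B, ∀ z ∈ T.1.1, (τ⁻¹ * τ') * z = z * (τ⁻¹ * τ') := by
    intro T z hz
    have hrec := rec_all x hss hcov hBm hK Z hfix hx hc c hω hκ T
    have hp : Z.Pin z := pin_of_rec x hss hcov hBm hK Z hfix hx hrec hz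
    have hτz : τ * z * τ⁻¹ ∈ RR T := by
      have h3 : socle Q ≤ Subgroup.normalizer ((RR T : Subgroup Q) : Set Q) := by
        rw [socle_eq hss]
        refine iSup_le ?_
        intro T1 y hy
        rw [Subgroup.mem_normalizer_iff]
        intro u
        by_cases hT1 : T1 = T.1
        · have hy' : y ∈ RR T := by rw [hT1] at hy; exact hy
          constructor
          · intro hu
            exact mul_mem (mul_mem hy' hu) (inv_mem hy')
          · intro hu
            have := mul_mem (mul_mem (inv_mem hy') hu) hy'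
            simpa [mul_assoc] using this
        · have hcm : ∀ u ∈ RR T, y * u = u * y := fun u hu =>
            socleFactor_commute T1.2 T.1.2 (fun h => hT1 (Subtype.ext h)) y hy u hu
          constructor
          · intro hu
            rw [hcm u hu]; simpa using hu
          · intro hu
            have h4 := hcm _ hu
            have h5 : u = y * u * y⁻¹ := by
              have h6 : y * (y * u * y⁻¹) * y⁻¹ = y * u * y⁻¹ := by rw [h4]; group
              have h7 : y * u * y⁻¹ = u := by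
                have := congrArg (fun g => y⁻¹ * g * y) h6
                simpa [mul_assoc] using this
              exact h7.symm
            rw [h5]; exact hu
      exact (Subgroup.mem_normalizer_iff.1 (h3 hτ) z).1 hz
    have hp2 : Z.Pin (τ * z * τ⁻¹) := pin_of_rec x hss hcov hBm hK Z hfix hx hrec hτz
    have h3 := hp.place h2 (by simp; omega)
    have h4 := Z.place_conj h3 (by simp; omega) (a := τ) (a' := τ') (b := z) (b' := z)
      (by simp) (by simp)
    have h5 := hp2 _ (Z.mono h4 (by simp) (by simp) :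
      Z.F [(τ * z * τ⁻¹, τ' * z * τ'⁻¹)] [])
    calc (τ⁻¹ * τ') * z = τ⁻¹ * (τ' * z * τ'⁻¹) * τ' := by group
      _ = τ⁻¹ * (τ * z * τ⁻¹) * τ' := by rw [h5]
      _ = z * (τ⁻¹ * τ') := by group
  have hmem : τ⁻¹ * τ' ∈ soc Q := by
    rw [← socle_eq hss]
    exact mul_mem (inv_mem hτ) hτ'
  have h3 := center_socle hss (Ix Q B) (fun T => T.1) (τ⁻¹ * τ') hmem hcomm
  have h4 : (⨆ S : {S : {T : Subgroup Q // IsSocleFactor T} // ∀ i : Ix Q B, i.1 ≠ S}, S.1.1) ≤
      MulAction.stabilizer Q ω := by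
    refine iSup_le ?_
    rintro ⟨S, hS⟩ g hg
    rw [MulAction.mem_stabilizer_iff]
    by_contra h5
    exact hS ⟨S, g, hg, ω, hc.memω, h5⟩ rfl
  have h5 := h4 h3
  rw [MulAction.mem_stabilizer_iff] at h5
  rw [← hτv, ← hτw]
  conv_lhs => rw [← h5]
  rw [← mul_smul]
  congr 1
  group

end Non2

end Pool.Agent.H68.WLN
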