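import Pool.Agent.H68.N.Non2

set_option autoImplicit false

namespace Pool.Agent.H68.WLN

open Pool.Agent.H68.WL

theorem small_block {V : Type} (B : Finset V) {X0 X1 : V} (h0 : X0 ∈ B) (h1 : X1 ∈ B)
    (hne : X0 ≠ X1) (hB : B.card ≤ 65000) (c : Col) :
    ∃ κ0 : V → Col, Pat (B : Set V) c κ0 ∧ ∀ u ∈ B, ∀ v ∈ B, κ0 u = κ0 v → u = v := by
  classical
  let g : ℕ → Col := fun n =>
    (⟨n % 256, Nat.mod_lt _ (by norm_num)⟩, if h : 2 + n / 256 < 256 then ⟨2 + n / 256, h⟩ else 2)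
  have hg2 : ∀ n, (g n).2 ≠ 0 ∧ (g n).2 ≠ 1 := by
    intro n
    simp only [g]
    split_ifs with h
    · constructor
      · intro h2
        have := congrArg Fin.val h2
        simp at this
      · intro h2
        have := congrArg Fin.val h2
        simp only [Fin.val_one] at this
        omega
    · constructor <;> decide
  have hginj : ∀ m n, m < 65000 → n < 65000 → g m = g n → m = n := by
    intro m n hm hn h
    have h3 : 2 + m / 256 < 256 := by omega
    have h4 : 2 + n / 256 < 256 := by omega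
    simp only [g, dif_pos h3, dif_pos h4, Prod.mk.injEq, Fin.mk.injEq] at h
    omega
  let κ0 : V → Col := fun u => if u = X0 then (c.1, 0) else if u = X1 then (c.2, 1) else
    if h : u ∈ B then g (B.equivFin ⟨u, h⟩).1 else (0, 5)
  have hz : ∀ u ∈ B, (κ0 u).2 = 0 → u = X0 := by
    intro u hu h
    by_contra h2
    simp only [κ0, if_neg h2] at h
    split_ifs at h with h3
    · simp at h
    · exact (hg2 _).1 h
  have ho : ∀ u ∈ B, (κ0 u).2 = 1 → u = X1 := by
    intro u hu h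
    by_contra h2
    simp only [κ0, if_neg h2] at h
    split_ifs at h with h3
    · simp at h
    · exact (hg2 _).2 h
  refine ⟨κ0, ⟨X0, h0, X1, h1, hne, ?_, ?_, hz, ho⟩, ?_⟩
  · simp only [κ0, if_pos rfl]
  · simp only [κ0, if_neg hne.symm, if_pos rfl]
    rfl
  · intro u hu v hv h
    by_cases hu0 : u = X0
    · have : (κ0 v).2 = 0 := by
        rw [← h]
        simp only [κ0, if_pos hu0]
      rw [hu0, hz v hv this]
    by_cases hv0 : v = X0
    · have : (κ0 u).2 = 0 := by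
        rw [h]
        simp only [κ0, if_pos hv0]
      exact absurd (hz u hu this) hu0
    by_cases hu1 : u = X1
    · have : (κ0 v).2 = 1 := by
        rw [← h]
        simp only [κ0, if_neg hu0, if_pos hu1]
      rw [hu1, ho v hv this]
    by_cases hv1 : v = X1
    · have : (κ0 u).2 = 1 := by
        rw [h]
        simp only [κ0, if_neg hv0, if_pos hv1]
      exact absurd (ho u hu this) hu1
    simp only [κ0, if_neg hu0, if_neg hu1, if_neg hv0, if_neg hv1, dif_pos hu, dif_pos hv] at h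
    have h5 := hginj _ _ (lt_of_lt_of_le (Fin.is_lt _) hB) (lt_of_lt_of_le (Fin.is_lt _) hB) h
    have h6 := B.equivFin.injective (Fin.ext h5)
    exact congrArg Subtype.val h6

theorem block_nonab {Q V : Type} [Group Q] [Finite Q] [MulAction Q V] [Finite V] {D : ℕ}
    (x : Fin D → Q)
    (hss : ∀ N : Subgroup Q, N.Normal → (∀ x ∈ N, ∀ y ∈ N, x * y = y * x) → N = ⊥)
    (hcov : ∀ R : Subgroup Q, IsSocleFactor R → (∃ a ∈ R, ∃ b ∈ R, a * b ≠ b * a) →
      ∀ ρ ∈ R, ∃ h ∈ Subgroup.closure (Set.range x), ∀ z ∈ R, h * z * h⁻¹ = ρ * z * ρ⁻¹)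
    (v0 : V) (hne : ∃ a ∈ socle Q, a • v0 ≠ v0) (c : Col) :
    ∃ κ0 : V → Col, Pat {w | ∃ a ∈ socle Q, a • v0 = w} c κ0 ∧
      ∀ {K : ℕ}, 12 ≤ K → ∀ (Z : BF Q V K) (κ : V → Col), (∀ i, Z.Pin (x i)) →
        (∀ a ∈ socle Q, κ (a • v0) = κ0 (a • v0)) → Z.Pres κ →
        ∀ v w, (∃ a ∈ socle Q, a • v0 = v) → (∃ a ∈ socle Q, a • v0 = w) →
          Z.F [] [(v, w)] → v = w := by
  classical
  let B : Finset V := (Set.toFinite {w | ∃ a ∈ socle Q, a • v0 = w}).toFinset
  have hBm : ∀ w, w ∈ B ↔ ∃ a ∈ socle Q, a • v0 = w := by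
    intro w
    simp [B]
  have hBset : {w | ∃ a ∈ socle Q, a • v0 = w} = (B : Set V) := by
    ext w
    simp [B]
  have hv0 : v0 ∈ B := (hBm v0).2 ⟨1, one_mem _, one_smul _ _⟩
  obtain ⟨a1, ha1, hav⟩ := hne
  have ha1B : a1 • v0 ∈ B := (hBm _).2 ⟨a1, ha1, rfl⟩
  rw [hBset]
  by_cases hB : B.card ≤ 65000
  · obtain ⟨κ0, hp, hinj⟩ := small_block B hv0 ha1B hav.symm hB c
    refine ⟨κ0, hp, ?_⟩
    intro K hK Z κ hx hκ hpres v w hv hw h
    have h1 := hpres v w h
    apply hinj v ((hBm v).2 hv) w ((hBm w).2 hw)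
    obtain ⟨a, ha, rfl⟩ := hv
    obtain ⟨b, hb, rfl⟩ := hw
    rw [← hκ a ha, ← hκ b hb, h1]
  · push Not at hB
    obtain ⟨s, e, ω, θ, c1, c2, c3, c4, c5, c6, c7, c8⟩ := exists_chain (RR (B := B)) B ⟨v0, hv0⟩
      (RR_comm hss) (RR_simple hss) (RR_nonab hss)
      (fun i r hr w hw => smul_memB hBm (RR_le hss i hr) hw) (RR_trans hss hBm)
      (fun i => i.2) hB (letter x hss hcov hBm) (letter_mem x hss hcov hBm)
      (letter_good x hss hcov hBm)
    have hc : IsChain B (letter x hss hcov hBm) s e ω θ :=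
      ⟨c1, c2, c3, c4, c5, c6, fun k hk => (c7 k hk).1, fun k hk => (c7 k hk).2.1,
        fun k hk => (c7 k hk).2.2.1, fun k hk => (c7 k hk).2.2.2, c8⟩
    have hm : letter x hss hcov hBm (e 0) • ω ∈ B :=
      smul_memB hBm (RR_le hss _ (letter_mem x hss hcov hBm (e 0))) hc.memω
    refine ⟨colr (letter x hss hcov hBm) s e ω θ c, colr_pat c hc hm, ?_⟩
    intro K hK Z κ hx hκ hpres v w hv hw h
    obtain ⟨K', rfl⟩ : ∃ K', K = K' + 1 := ⟨K - 1, by omega⟩
    have hκB : ∀ u ∈ B, κ u = colr (letter x hss hcov hBm) s e ω θ c u := by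
      intro u hu
      obtain ⟨a, ha, rfl⟩ := (hBm u).1 hu
      exact hκ a ha
    have hv' := (hBm v).2 hv
    have hw' := (hBm w).2 hw
    -- place ω
    obtain ⟨ω', h1⟩ := Z.forthV h (by simp; omega) ω
    have hω'B : ω' ∈ B := memB_of hBm (by omega) Z
      (Z.monoB h1 (by simp) : Z.F [] [(v, w), (ω, ω')]) hv' hc.memω hw'
    have h2 := hpres ω ω' (Z.monoB h1 (by simp))
    rw [hκB ω hc.memω, hκB ω' hω'B] at h2
    have h3 : ω' = ω := by
      apply colr_zero (ρ := letter x hss hcov hBm) (s := s) (e := e) (θ := θ) c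
      rw [← h2]
      unfold colr
      rw [if_pos rfl]
    rw [h3] at h1
    have hfix : ∀ u u', (Z.rel ω).F [] [(u, u')] → u ∈ B → u' ∈ B := by
      intro u u' hu huB
      exact memB_of hBm (by omega) Z hu hc.memω huB hc.memω
    refine named x hss hcov hBm (K := K') (by omega) (Z.rel ω) hfix (fun i => (hx i).rel ω) hc c
      ?_ ?_ hv' h1
    · intro u hu
      exact (Z.eqV hu rfl).symm
    · intro u u' hu huu
      have h4 := hpres u u' (Z.monoB huu (by simp))
      rw [hκB u hu, hκB u' (hfix u u' huu hu)] at h4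
      exact h4

end Pool.Agent.H68.WLN
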